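import Pool.Agent.FT3D.Defs

/-!
# The checker of decision trees

Cells near a vertex `g` are coded by `c = 128 * x + 8 * y + z` with `x, y < 16` and `z < 8`: the cell is
`(g.1 + x - 8, g.2 + y - 8, z)`.  Columns and vertices are coded by `v = 16 * x + y`, the code of `g` is
`136`.  The column with code `v` is the column north east of the vertex with code `v`.
-/

namespace Pool.Agent.FT3D

/-- parameters: number of levels, orientation, order, mode, floor -/
structure Par where
  J : ℕ
  ori : ℕ
  al : ℕ
  deep : Bool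
  M : ℤ

inductive Mv where
  | f (c d e : ℕ)
  | t (o a b : ℕ)

inductive Tr where
  | no
  | con (u : ℕ) (p : List ℕ)
  | red (ms : List Mv) (ce : List (ℕ × ℕ × List ℕ))
  | br (c : ℕ) (t1 t2 t3 t4 t5 t6 : Tr)

def get : List (ℕ × ℕ) → ℕ → ℕ
  | [], _ => 0
  | (a, d) :: K, c => bif Nat.beq a c then d else get K c

def nbc (c d : ℕ) : ℕ :=
  bif Nat.beq d 1 then c + 128 else bif Nat.beq d 2 then c - 128 else bif Nat.beq d 3 then c + 8 else
  bif Nat.beq d 4 then c - 8 else bif Nat.beq d 5 then c + 1 else c - 1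

def opc (d : ℕ) : ℕ :=
  bif Nat.beq d 1 then 2 else bif Nat.beq d 2 then 1 else bif Nat.beq d 3 then 4 else
  bif Nat.beq d 4 then 3 else bif Nat.beq d 5 then 6 else bif Nat.beq d 6 then 5 else 0

/-- sign of a column -/
def sgc (P : Par) (v : ℕ) : ℤ := bif Nat.beq ((v / 16 + v % 16 + P.ori) % 2) 1 then 1 else -1

/-- the window for vertices: both coordinates of the code are between 2 and 14 -/
def wv (v : ℕ) : Bool :=
  Nat.ble 32 v && Nat.ble v 239 && Nat.ble 2 (v % 16) && Nat.ble (v % 16) 14

/-- is one of the cells of the column known? -/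
def anyK (K : List (ℕ × ℕ)) (v : ℕ) : ℕ → Bool
  | 0 => false
  | z + 1 => (!(Nat.beq (get K (8 * v + z)) 0)) || anyK K v z

def colK (P : Par) (K : List (ℕ × ℕ)) (v : ℕ) : Bool :=
  Nat.beq v 136 || Nat.beq v 120 || Nat.beq v 135 || Nat.beq v 119 || anyK K v P.J

/-- is the vertex `v` a corner of a known column? -/
def cor (P : Par) (K : List (ℕ × ℕ)) (v : ℕ) : Bool :=
  wv v && (colK P K v || colK P K (v - 1) || colK P K (v - 16) || colK P K (v - 17))

/-- bounds for the net number of dimers between the columns `p` and `q`, `q` being the neighbour of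
`p` in direction `k` (`k = 1, 3`), from the levels below `z` -/
def rng (K : List (ℕ × ℕ)) (p q k : ℕ) : ℕ → ℤ × ℤ
  | 0 => (0, 0)
  | z + 1 =>
    let r := rng K p q k z
    let a := get K (8 * p + z)
    let b := get K (8 * q + z)
    let e : ℤ := bif Nat.beq (z % 2) 0 then 1 else -1
    bif Nat.beq a 0 then
      bif Nat.beq b 0 then
        bif Nat.beq (z % 2) 0 then (r.1, r.2 + 1) else (r.1 - 1, r.2)
      else bif Nat.beq b (opc k) then (r.1 + e, r.2 + e) else r
    else bif Nat.beq a k then (r.1 + e, r.2 + e) else r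

/-- bounds for the step east (`k = 1`) or north (`k = 3`) from the vertex `v` -/
def stp (P : Par) (K : List (ℕ × ℕ)) (v k : ℕ) : Option (ℤ × ℤ) :=
  bif Nat.beq k 1 then
    bif colK P K v || colK P K (v - 1) then
      let r := rng K (v - 1) v 3 P.J
      let s := sgc P v
      let a := s * (4 * r.1 - ep P.J)
      let b := s * (4 * r.2 - ep P.J)
      some (min a b, max a b)
    else none
  else
    bif colK P K v || colK P K (v - 16) then
      let r := rng K (v - 16) v 1 P.J
      let s := sgc P (v - 16)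
      let a := s * (4 * r.1 - ep P.J)
      let b := s * (4 * r.2 - ep P.J)
      some (min a b, max a b)
    else none

/-- bounds for a step in direction `k`, `1 ≤ k ≤ 4`, with the new vertex -/
def stpD (P : Par) (K : List (ℕ × ℕ)) (v k : ℕ) : Option (ℕ × ℤ × ℤ) :=
  bif wv v then
    bif Nat.beq k 1 then (stp P K v 1).map fun r => (v + 16, r)
    else bif Nat.beq k 2 then (stp P K (v - 16) 1).map fun r => (v - 16, -r.2, -r.1)
    else bif Nat.beq k 3 then (stp P K v 3).map fun r => (v + 1, r)
    else bif Nat.beq k 4 then (stp P K (v - 1) 3).map fun r => (v - 1, -r.2, -r.1)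
    else none
  else none

/-- bounds along a path -/
def pth (P : Par) (K : List (ℕ × ℕ)) (v : ℕ) : List ℕ → Option (ℕ × ℤ × ℤ)
  | [] => some (v, 0, 0)
  | k :: p =>
    match stpD P K v k with
    | none => none
    | some (w, lo, hi) =>
      match pth P K w p with
      | none => none
      | some (w', lo', hi') => some (w', lo + lo', hi + hi')

/-- residue class modulo 4 of the height at the vertex `v` -/
def rsd (P : Par) (v : ℕ) : ℤ :=
  bif Nat.beq (P.J % 2) 0 then 0 else
  let a := bif Nat.beq P.ori 0 then (v / 16) % 2 else (v % 16) % 2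
  let b := bif Nat.beq P.ori 0 then (v % 16) % 2 else (v / 16) % 2
  bif Nat.beq a 0 then (bif Nat.beq b 0 then 0 else 3) else (bif Nat.beq b 0 then 1 else 2)

/-- does the vertex `v` come before `g` in the order? -/
def bfr (P : Par) (v : ℕ) : Bool :=
  let k := v % 16 + P.al * (v / 16)
  let k0 := 8 + P.al * 8
  Nat.blt k0 k || (Nat.beq k k0 && Nat.blt (v / 16) 8)

/-- the largest possible height at `v` -/
def ubc (P : Par) (v : ℕ) : ℤ :=
  bif Nat.beq v 136 then 0 else
  let r := rsd P v
  bif decide (r = 0) then (bif bfr P v then -4 else 0) else r - 4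

/-- the floor at `v` -/
def flo (P : Par) (v : ℕ) : ℤ := P.M + (rsd P v - P.M) % 4

/-- value up to which a vertex may be raised -/
def rbd (P : Par) (v : ℕ) : ℤ := bif bfr P v then -1 else 0

def loS (P : Par) (K : List (ℕ × ℕ)) (u : ℕ) : Option ℤ :=
  bif Nat.beq u 136 then some 0 else bif !P.deep && cor P K u then some (flo P u) else none

def hiS (P : Par) (K : List (ℕ × ℕ)) (u : ℕ) : Option ℤ :=
  bif Nat.beq u 136 then some 0 else bif cor P K u then some (ubc P u) else none

def chkCon (P : Par) (K : List (ℕ × ℕ)) (u : ℕ) (p : List ℕ) : Bool :=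
  match loS P K u, pth P K u p with
  | some a, some (w, lo, _) => decide (ubc P w < a + lo)
  | _, _ => false

/-- the effect of a move on the known cells; the vertex that changes, the change of its height
(in units of 4), and the change of the number of cells in horizontal dimers -/
def mv (P : Par) (K : List (ℕ × ℕ)) : Mv → Option (List (ℕ × ℕ) × ℕ × ℤ × ℤ)
  | .f c d e =>
    bif wv (c / 8) && (Nat.beq d 1 || Nat.beq d 3 || Nat.beq d 5) && (Nat.beq e 1 || Nat.beq e 3 || Nat.beq e 5) &&
        !(Nat.beq d e) && Nat.beq (get K c) d && Nat.beq (get K (nbc c e)) d then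
      let K' := (c, e) :: (nbc c d, e) :: (nbc c e, opc e) :: (nbc (nbc c d) e, opc e) :: K
      let v := c / 8 + 17
      let z : ℤ := bif Nat.beq (c % 2) 0 then 1 else -1
      bif Nat.beq e 5 then some (K', v, 0, -4) else
      bif Nat.beq d 5 then some (K', v, 0, 4) else
      some (K', v, (bif Nat.beq d 1 then 1 else -1) * sgc P (v - 16) * z, 0)
    else none
  | .t o a b =>
    bif wv (o / 8) && Nat.ble 1 a && Nat.ble a 4 && Nat.ble 1 b && Nat.ble b 4 && !(Nat.beq ((a + 1) / 2) ((b + 1) / 2))
        && Nat.beq (get K o) a && Nat.beq (get K (o + 1)) b &&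
        Nat.beq (get K (nbc (nbc o a) b)) 5 then
      let K' := (o, 5) :: (o + 1, 6) :: (nbc o a, b) :: (nbc (nbc o a) b, opc b) ::
        (nbc o b + 1, a) :: (nbc (nbc o a) b + 1, opc a) :: K
      let v := o / 8 + (bif Nat.beq a 1 || Nat.beq b 1 then 16 else 0) +
        (bif Nat.beq a 3 || Nat.beq b 3 then 1 else 0)
      let z : ℤ := bif Nat.beq (o % 2) 0 then 1 else -1
      some (K', v, (bif Nat.ble a 2 then 1 else -1) * sgc P (v - 16) * z, 0)
    else none

/-- a sequence of moves: list of the changes and total change of the number of cells in horizontal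
dimers -/
def mvs (P : Par) : List (ℕ × ℕ) → List Mv → Option (List (ℕ × ℤ) × ℤ)
  | _, [] => some ([], 0)
  | K, m :: ms =>
    match mv P K m with
    | none => none
    | some (K', v, d, h) =>
      match mvs P K' ms with
      | none => none
      | some (L, h') => some ((v, d) :: L, h + h')

/-- total change at `v` -/
def dl : List (ℕ × ℤ) → ℕ → ℤ
  | [], _ => 0
  | (w, d) :: L, v => bif Nat.beq w v then d + dl L v else dl L v

def chkCe (P : Par) (K : List (ℕ × ℕ)) (L : List (ℕ × ℤ)) (c : ℕ × ℕ × List ℕ) : Bool :=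
  let D := dl L c.1
  match pth P K c.2.1 c.2.2 with
  | none => false
  | some (w, lo, hi) =>
    Nat.beq w c.1 &&
    (bif decide (0 < D) then
      match hiS P K c.2.1 with
      | none => false
      | some a => decide (a + hi + 4 * D ≤ rbd P c.1)
    else
      match loS P K c.2.1 with
      | none => false
      | some a => decide (flo P c.1 ≤ a + lo + 4 * D))

def hasV : List (ℕ × ℕ × List ℕ) → ℕ → Bool
  | [], _ => false
  | c :: l, v => Nat.beq c.1 v || hasV l v

def chkRed (P : Par) (K : List (ℕ × ℕ)) (ms : List Mv) (ce : List (ℕ × ℕ × List ℕ)) : Bool :=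
  match mvs P K ms with
  | none => false
  | some (L, h) =>
    (decide (dl L 136 < 0) && ce.all (chkCe P K L) &&
      L.all fun x => decide (dl L x.1 = 0) || hasV ce x.1) ||
    (decide (h < 0) && L.all fun x => decide (dl L x.1 = 0))

/-- is the direction `d` impossible for the cell `c`? -/
def imp (P : Par) (K : List (ℕ × ℕ)) (c d : ℕ) : Bool :=
  (Nat.beq d 5 && Nat.ble P.J (c % 8 + 1)) || (Nat.beq d 6 && Nat.beq (c % 8) 0) ||
    (!(Nat.beq (get K (nbc c d)) 0) && !(Nat.beq (get K (nbc c d)) (opc d)))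

def okB (P : Par) (K : List (ℕ × ℕ)) (c : ℕ) : Bool :=
  colK P K (c / 8) && Nat.beq (get K c) 0 && Nat.ble 2 (c / 128) && Nat.ble (c / 128) 13 &&
    Nat.ble 2 (c / 8 % 16) && Nat.ble (c / 8 % 16) 13 && Nat.blt (c % 8) P.J

def chk (P : Par) : List (ℕ × ℕ) → Tr → Bool
  | _, .no => false
  | K, .con u p => chkCon P K u p
  | K, .red ms ce => chkRed P K ms ce
  | K, .br c t1 t2 t3 t4 t5 t6 =>
    okB P K c &&
    (imp P K c 1 || chk P ((c, 1) :: (nbc c 1, 2) :: K) t1) &&
    (imp P K c 2 || chk P ((c, 2) :: (nbc c 2, 1) :: K) t2) &&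
    (imp P K c 3 || chk P ((c, 3) :: (nbc c 3, 4) :: K) t3) &&
    (imp P K c 4 || chk P ((c, 4) :: (nbc c 4, 3) :: K) t4) &&
    (imp P K c 5 || chk P ((c, 5) :: (nbc c 5, 6) :: K) t5) &&
    (imp P K c 6 || chk P ((c, 6) :: (nbc c 6, 5) :: K) t6)

end Pool.Agent.FT3D
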