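import Mathlib

/-!
# Flips and trits in slabs: the tilings, the moves and the projected height

Directions are coded by `1 = E, 2 = W, 3 = N, 4 = S, 5 = U, 6 = D`; `0` means no direction.
A tiling `T` of the box `[0,m) × [0,n) × [0,J)` gives to every cell the direction of its partner, and `0`
outside the box.
-/

namespace Pool.Agent.FT3D

abbrev Cell := ℤ × ℤ × ℤ

def dX (d : ℕ) : ℤ := if d = 1 then 1 else if d = 2 then -1 else 0
def dY (d : ℕ) : ℤ := if d = 3 then 1 else if d = 4 then -1 else 0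
def dZ (d : ℕ) : ℤ := if d = 5 then 1 else if d = 6 then -1 else 0

def opp (d : ℕ) : ℕ :=
  if d = 1 then 2 else if d = 2 then 1 else if d = 3 then 4 else if d = 4 then 3 else
  if d = 5 then 6 else if d = 6 then 5 else 0

/-- the neighbour of the cell `c` in direction `d` -/
def nb (c : Cell) (d : ℕ) : Cell := (c.1 + dX d, c.2.1 + dY d, c.2.2 + dZ d)

/-- `d` and `e` are perpendicular directions -/
def perp (d e : ℕ) : Prop := 1 ≤ d ∧ d ≤ 6 ∧ 1 ≤ e ∧ e ≤ 6 ∧ (d + 1) / 2 ≠ (e + 1) / 2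

def Bx (J : ℕ) (m n : ℤ) (c : Cell) : Prop :=
  0 ≤ c.1 ∧ c.1 < m ∧ 0 ≤ c.2.1 ∧ c.2.1 < n ∧ 0 ≤ c.2.2 ∧ c.2.2 < J

structure Til (J : ℕ) (m n : ℤ) (T : Cell → ℕ) : Prop where
  out : ∀ c, ¬ Bx J m n c → T c = 0
  rng : ∀ c, Bx J m n c → 1 ≤ T c ∧ T c ≤ 6
  mem : ∀ c, Bx J m n c → Bx J m n (nb c (T c))
  inv : ∀ c, Bx J m n c → T (nb c (T c)) = opp (T c)

/-- the parallel dimers `c, c+d` and `c+e, c+e+d` are replaced by `c, c+e` and `c+d, c+d+e` -/
def flip (T : Cell → ℕ) (c : Cell) (d e : ℕ) : Cell → ℕ := fun x =>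
  if x = c then e else if x = nb c d then e else if x = nb c e then opp e
  else if x = nb (nb c d) e then opp e else T x

def CanFlip (T : Cell → ℕ) (c : Cell) (d e : ℕ) : Prop := perp d e ∧ T c = d ∧ T (nb c e) = d

/-- the dimers `o, o+a`, `o+U, o+U+b`, `o+a+b, o+a+b+U` are replaced by `o, o+U`, `o+a, o+a+b`,
`o+b+U, o+a+b+U` (a trit in the cube with corner `o` and directions `a, b, U`) -/
def trit (T : Cell → ℕ) (o : Cell) (a b : ℕ) : Cell → ℕ := fun x =>
  if x = o then 5 else if x = nb o 5 then 6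
  else if x = nb o a then b else if x = nb (nb o a) b then opp b
  else if x = nb (nb o b) 5 then a else if x = nb (nb (nb o a) b) 5 then opp a else T x

def CanTrit (T : Cell → ℕ) (o : Cell) (a b : ℕ) : Prop :=
  perp a b ∧ a ≤ 4 ∧ b ≤ 4 ∧ T o = a ∧ T (nb o 5) = b ∧ T (nb (nb o a) b) = 5

inductive Move (T : Cell → ℕ) : (Cell → ℕ) → Prop
  | flip (c : Cell) (d e : ℕ) (h : CanFlip T c d e) : Move T (flip T c d e)
  | trit (o : Cell) (a b : ℕ) (h : CanTrit T o a b) : Move T (trit T o a b)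

/-- `T'` is reached from `T` by flips and trits -/
def Conn (T T' : Cell → ℕ) : Prop := Relation.ReflTransGen Move T T'

/-- the sign of a column -/
def sg (x y : ℤ) : ℤ := if Even (x + y) then 1 else -1

/-- net number of dimers between the columns `(x,y)` and `(x+1,y)` (`k = 1`), or `(x,y+1)` (`k = 3`) -/
def Fl (J : ℕ) (T : Cell → ℕ) (k : ℕ) (x y : ℤ) : ℤ :=
  ∑ z ∈ Finset.range J, (-1) ^ z * (if T (x, y, (z : ℤ)) = k then 1 else 0)

/-- the parity of the number of levels -/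
def ep (J : ℕ) : ℤ := ((J % 2 : ℕ) : ℤ)

/-- the projected height (times four) -/
noncomputable def ht (J : ℕ) (T : Cell → ℕ) (i j : ℤ) : ℤ :=
  ∑ y ∈ Finset.Ico 0 j, ep J * sg 0 y +
    ∑ x ∈ Finset.Ico 0 i, sg x j * (4 * Fl J T 3 x (j - 1) - ep J)

/-- the vertices of the rectangle -/
def Cl (m n : ℤ) (i j : ℤ) : Prop := 0 ≤ i ∧ i ≤ m ∧ 0 ≤ j ∧ j ≤ n

/-- the box as a finite set of cells -/
noncomputable def bxF (J : ℕ) (m n : ℤ) : Finset Cell :=
  Finset.Ico 0 m ×ˢ (Finset.Ico 0 n ×ˢ Finset.Ico 0 (J : ℤ))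

/-- the number of cells in horizontal dimers -/
noncomputable def hor (J : ℕ) (m n : ℤ) (T : Cell → ℕ) : ℕ := ((bxF J m n).filter fun c => T c ≤ 4).card

end Pool.Agent.FT3D
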