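import Pool.Agent.FT3D.Height

/-!
# The effect of the moves on the projected height
-/

namespace Pool.Agent.FT3D

variable {J : ℕ} {m n : ℤ} {T : Cell → ℕ}

/-- the contribution of one cell to the alternating sum over a column -/
private theorem Fl_one {J : ℕ} {p : Cell} (h0 : 0 ≤ p.2.2) (h1 : p.2.2 < J) (u x y : ℤ) :
    ∑ z ∈ Finset.range J, (-1 : ℤ) ^ z * (if ((x, y, (z : ℤ)) : Cell) = p then u else 0) =
      if x = p.1 ∧ y = p.2.1 then u * (-1) ^ p.2.2.toNat else 0 := by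
  obtain ⟨a, b, c⟩ := p
  simp only at h0 h1 ⊢
  lift c to ℕ using h0
  simp only [Prod.mk.injEq, Int.toNat_natCast]
  by_cases hxy : x = a ∧ y = b
  · rw [if_pos hxy, Finset.sum_eq_single c]
    · rw [if_pos ⟨hxy.1, hxy.2, rfl⟩]
      ring
    · intro z _ hz
      rw [if_neg (fun h => hz (by exact_mod_cast h.2.2))]
      ring
    · intro h
      exact absurd (Finset.mem_range.2 (by exact_mod_cast h1)) h
  · rw [if_neg hxy]
    apply Finset.sum_eq_zero
    intro z _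
    rw [if_neg (fun h => hxy ⟨h.1, h.2.1⟩)]
    ring

/-- the change of `Fl` if the dimers in direction `3` change at two cells -/
private theorem Fl_two {J : ℕ} {T T' : Cell → ℕ} {p q : Cell} {u v : ℤ}
    (hp0 : 0 ≤ p.2.2) (hp1 : p.2.2 < J) (hq0 : 0 ≤ q.2.2) (hq1 : q.2.2 < J)
    (h : ∀ r, (if T' r = 3 then (1 : ℤ) else 0) =
      (if T r = 3 then 1 else 0) + (if r = p then u else 0) + (if r = q then v else 0)) (x y : ℤ) :
    Fl J T' 3 x y = Fl J T 3 x y + (if x = p.1 ∧ y = p.2.1 then u * (-1) ^ p.2.2.toNat else 0) +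
      (if x = q.1 ∧ y = q.2.1 then v * (-1) ^ q.2.2.toNat else 0) := by
  rw [← Fl_one hp0 hp1, ← Fl_one hq0 hq1]
  unfold Fl
  rw [← Finset.sum_add_distrib, ← Finset.sum_add_distrib]
  apply Finset.sum_congr rfl
  intro z _
  rw [h]
  ring

private theorem ht_same {J : ℕ} {T T' : Cell → ℕ} (h : ∀ x y, Fl J T' 3 x y = Fl J T 3 x y)
    (i j : ℤ) : ht J T' i j = ht J T i j := by
  unfold ht
  congr 1
  apply Finset.sum_congr rfl
  intro x _
  rw [h]

private theorem sum_pick (i x0 : ℤ) (f : ℤ → ℤ) :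
    ∑ x ∈ Finset.Ico 0 i, (if x = x0 then f x else 0) = if 0 ≤ x0 ∧ x0 < i then f x0 else 0 := by
  rw [Finset.sum_ite_eq']
  simp only [Finset.mem_Ico]

/-- the change of the height if `Fl` changes by the same amount at two adjacent columns -/
private theorem ht_chg {J : ℕ} {T T' : Cell → ℕ} {x0 y0 s : ℤ} (hx0 : 0 ≤ x0)
    (h : ∀ x y, Fl J T' 3 x y = Fl J T 3 x y + (if x = x0 ∧ y = y0 then s else 0) +
      (if x = x0 + 1 ∧ y = y0 then s else 0)) (i j : ℤ) :
    ht J T' i j = ht J T i j + if i = x0 + 1 ∧ j = y0 + 1 then 4 * (s * sg x0 (y0 + 1)) else 0 := by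
  by_cases hj : j = y0 + 1
  · subst hj
    have key : ∑ x ∈ Finset.Ico 0 i, sg x (y0 + 1) * (4 * Fl J T' 3 x (y0 + 1 - 1) - ep J) =
        ∑ x ∈ Finset.Ico 0 i, sg x (y0 + 1) * (4 * Fl J T 3 x (y0 + 1 - 1) - ep J) +
        (∑ x ∈ Finset.Ico 0 i, (if x = x0 then 4 * (s * sg x (y0 + 1)) else 0) +
        ∑ x ∈ Finset.Ico 0 i, (if x = x0 + 1 then 4 * (s * sg x (y0 + 1)) else 0)) := by
      rw [← Finset.sum_add_distrib, ← Finset.sum_add_distrib]
      apply Finset.sum_congr rfl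
      intro x _
      rw [h]
      have e1 : (x = x0 ∧ y0 + 1 - 1 = y0) ↔ x = x0 := ⟨fun h => h.1, fun h => ⟨h, by ring⟩⟩
      have e2 : (x = x0 + 1 ∧ y0 + 1 - 1 = y0) ↔ x = x0 + 1 := ⟨fun h => h.1, fun h => ⟨h, by ring⟩⟩
      simp only [e1, e2]
      split_ifs <;> ring
    unfold ht
    rw [key, sum_pick, sum_pick, sg_succ_left]
    split_ifs <;> first | (exfalso; omega) | ring
  · rw [if_neg (fun h => hj h.2), add_zero]
    unfold ht
    congr 1
    apply Finset.sum_congr rfl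
    intro x _
    rw [h, if_neg (fun h => hj (by omega)), if_neg (fun h => hj (by omega))]
    ring

/-- the dimers in direction `3` after a flip -/
private theorem flip_pt (hT : Til J m n T) {c : Cell} {d e : ℕ} (h : CanFlip T c d e)
    (hd : d = 1 ∨ d = 3 ∨ d = 5) (he : e = 1 ∨ e = 3 ∨ e = 5) (r : Cell) :
    (if flip T c d e r = 3 then (1 : ℤ) else 0) = (if T r = 3 then 1 else 0) +
      (if r = c then (if e = 3 then 1 else 0) - (if d = 3 then 1 else 0) else 0) +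
      (if r = nb c d then (if e = 3 then 1 else 0) else 0) +
      (if r = nb c e then -(if d = 3 then 1 else 0) else 0) := by
  obtain ⟨hp, h1, h2⟩ := h
  obtain ⟨d1, d2, d3, d4, d5, d6⟩ := flip_distinct c hp
  have hc : Bx J m n c := bx_of_ne hT (by omega)
  have hce : Bx J m n (nb c e) := bx_of_ne hT (by omega)
  have h3 : T (nb c d) = opp d := by
    have := hT.inv c hc
    rwa [h1] at this
  have h4 : T (nb (nb c d) e) = opp d := by
    have := hT.inv _ hce
    rwa [h2, nb_comm] at this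
  have od : opp d ≠ 3 := by rcases hd with rfl | rfl | rfl <;> decide
  have oe : opp e ≠ 3 := by rcases he with rfl | rfl | rfl <;> decide
  unfold flip
  by_cases r1 : r = c
  · subst r1
    rw [if_pos rfl, if_pos rfl, if_neg d1.symm, if_neg d2.symm, h1]
    ring
  by_cases r2 : r = nb c d
  · subst r2
    rw [if_neg d1, if_pos rfl, if_neg d1, if_pos rfl, if_neg d4, h3, if_neg od]
    ring
  by_cases r3 : r = nb c e
  · subst r3
    rw [if_neg d2, if_neg d4.symm, if_pos rfl, if_neg d2, if_neg d4.symm, if_pos rfl, h2, if_neg oe]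
    ring
  by_cases r4 : r = nb (nb c d) e
  · subst r4
    rw [if_neg d3, if_neg d5, if_neg d6, if_pos rfl, if_neg d3, if_neg d5, if_neg d6, h4, if_neg od,
      if_neg oe]
    ring
  · rw [if_neg r1, if_neg r2, if_neg r3, if_neg r4, if_neg r1, if_neg r2, if_neg r3]
    ring

/-- a flip in a vertical plane does not change the projected height -/
theorem ht_flip_v (hT : Til J m n T) {c : Cell} {d e : ℕ} (h : CanFlip T c d e)
    (hd : d = 1 ∨ d = 3 ∨ d = 5) (he : e = 1 ∨ e = 3 ∨ e = 5) (hv : d = 5 ∨ e = 5) (i j : ℤ) :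
    ht J (flip T c d e) i j = ht J T i j := by
  have hpt := flip_pt hT h hd he
  obtain ⟨hp, h1, h2⟩ := h
  have hc : Bx J m n c := bx_of_ne hT (by omega)
  have hce : Bx J m n (nb c e) := bx_of_ne hT (by omega)
  have hcd : Bx J m n (nb c d) := by
    have := hT.mem c hc
    rwa [h1] at this
  have hde : d ≠ e := by
    rintro rfl
    exact hp.2.2.2.2 rfl
  have h5 : Bx J m n (nb c 5) := by
    rcases hv with rfl | rfl
    · exact hcd
    · exact hce
  obtain ⟨-, -, -, -, a1, a2⟩ := hc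
  obtain ⟨-, -, -, -, b1, b2⟩ := h5
  have hn1 : (nb c 5).1 = c.1 := by simp [nb, dX]
  have hn2 : (nb c 5).2.1 = c.2.1 := by simp [nb, dY]
  have hn3 : (nb c 5).2.2 = c.2.2 + 1 := by simp [nb, dZ]
  apply ht_same
  intro x y
  have hq : ∀ r, (if flip T c d e r = 3 then (1 : ℤ) else 0) = (if T r = 3 then 1 else 0) +
      (if r = c then (if e = 3 then 1 else 0) - (if d = 3 then 1 else 0) else 0) +
      (if r = nb c 5 then (if e = 3 then 1 else 0) - (if d = 3 then 1 else 0) else 0) := by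
    intro r
    rw [hpt r]
    rcases hv with rfl | rfl
    · simp
    · simp
  rw [Fl_two a1 a2 b1 b2 hq, hn1, hn2, hn3]
  have : (c.2.2 + 1).toNat = c.2.2.toNat + 1 := by omega
  rw [this, pow_succ]
  split_ifs <;> ring

/-- a flip in a horizontal plane changes the projected height at one vertex -/
theorem ht_flip_h (hT : Til J m n T) {c : Cell} {d e : ℕ} (h : CanFlip T c d e)
    (hde : (d = 1 ∧ e = 3) ∨ (d = 3 ∧ e = 1)) (i j : ℤ) :
    ht J (flip T c d e) i j = ht J T i j + if i = c.1 + 1 ∧ j = c.2.1 + 1 then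
      4 * ((if d = 1 then 1 else -1) * sg c.1 (c.2.1 + 1) * (-1) ^ c.2.2.toNat) else 0 := by
  have hpt := flip_pt hT h (by omega) (by omega)
  obtain ⟨hp, h1, h2⟩ := h
  have hc : Bx J m n c := bx_of_ne hT (by omega)
  have hce : Bx J m n (nb c e) := bx_of_ne hT (by omega)
  have hcd : Bx J m n (nb c d) := by
    have := hT.mem c hc
    rwa [h1] at this
  have h5 : Bx J m n (nb c 1) := by
    rcases hde with ⟨rfl, rfl⟩ | ⟨rfl, rfl⟩
    · exact hcd
    · exact hce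
  obtain ⟨a0, -, -, -, a1, a2⟩ := hc
  obtain ⟨-, -, -, -, b1, b2⟩ := h5
  have hn1 : (nb c 1).1 = c.1 + 1 := by simp [nb, dX]
  have hn2 : (nb c 1).2.1 = c.2.1 := by simp [nb, dY]
  have hn3 : (nb c 1).2.2 = c.2.2 := by simp [nb, dZ]
  have hq : ∀ r, (if flip T c d e r = 3 then (1 : ℤ) else 0) = (if T r = 3 then 1 else 0) +
      (if r = c then (if d = 1 then 1 else -1) else 0) +
      (if r = nb c 1 then (if d = 1 then 1 else -1) else 0) := by
    intro r
    rw [hpt r]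
    rcases hde with ⟨rfl, rfl⟩ | ⟨rfl, rfl⟩
    · simp
    · simp
  have hF := Fl_two a1 a2 b1 b2 hq
  rw [hn1, hn2, hn3] at hF
  rw [ht_chg a0 hF i j]
  congr 1
  split_ifs <;> ring

private theorem trit_distinct (o : Cell) {a b : ℕ} (h : perp a b) (ha : a ≤ 4) (hb : b ≤ 4) :
    (nb o 5 ≠ o ∧ nb o a ≠ o ∧ nb (nb o a) b ≠ o ∧ nb (nb o b) 5 ≠ o ∧
      nb (nb (nb o a) b) 5 ≠ o) ∧
    (nb o a ≠ nb o 5 ∧ nb (nb o a) b ≠ nb o 5 ∧ nb (nb o b) 5 ≠ nb o 5 ∧
      nb (nb (nb o a) b) 5 ≠ nb o 5) ∧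
    (nb (nb o a) b ≠ nb o a ∧ nb (nb o b) 5 ≠ nb o a ∧ nb (nb (nb o a) b) 5 ≠ nb o a) ∧
    (nb (nb o b) 5 ≠ nb (nb o a) b ∧ nb (nb (nb o a) b) 5 ≠ nb (nb o a) b) ∧
    nb (nb (nb o a) b) 5 ≠ nb (nb o b) 5 := by
  obtain ⟨p1, -, p3, -, p5⟩ := h
  have za : dZ a = 0 := by
    unfold dZ
    rw [if_neg (by omega), if_neg (by omega)]
  have zb : dZ b = 0 := by
    unfold dZ
    rw [if_neg (by omega), if_neg (by omega)]
  have z5 : dZ 5 = 1 := rfl
  have x5 : dX 5 = 0 := rfl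
  have y5 : dY 5 = 0 := rfl
  have hab : (dY a = 0 ∧ (dX a = 1 ∨ dX a = -1) ∧ dX b = 0 ∧ (dY b = 1 ∨ dY b = -1)) ∨
      (dX a = 0 ∧ (dY a = 1 ∨ dY a = -1) ∧ dY b = 0 ∧ (dX b = 1 ∨ dX b = -1)) := by
    have h8 : (a = 1 ∨ a = 2) ∧ (b = 3 ∨ b = 4) ∨ (a = 3 ∨ a = 4) ∧ (b = 1 ∨ b = 2) := by omega
    rcases h8 with ⟨rfl | rfl, rfl | rfl⟩ | ⟨rfl | rfl, rfl | rfl⟩ <;> simp [dX, dY]
  simp only [nb, ne_eq, Prod.ext_iff, za, zb, z5, x5, y5]
  omega

/-- the dimers in direction `3` after a trit -/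
private theorem trit_pt (hT : Til J m n T) {o : Cell} {a b : ℕ} (h : CanTrit T o a b) (r : Cell) :
    (if trit T o a b r = 3 then (1 : ℤ) else 0) = (if T r = 3 then 1 else 0) +
      (if r = o then -(if a = 3 then 1 else 0) else 0) +
      (if r = nb o 5 then -(if b = 3 then 1 else 0) else 0) +
      (if r = nb o a then (if b = 3 then 1 else 0) - (if a = 4 then 1 else 0) else 0) +
      (if r = nb (nb o a) b then (if b = 4 then 1 else 0) else 0) +
      (if r = nb (nb o b) 5 then (if a = 3 then 1 else 0) - (if b = 4 then 1 else 0) else 0) +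
      (if r = nb (nb (nb o a) b) 5 then (if a = 4 then 1 else 0) else 0) := by
  obtain ⟨hp, ha, hb, h1, h2, h3⟩ := h
  obtain ⟨⟨d1, d2, d3, d4, d5⟩, ⟨d6, d7, d8, d9⟩, ⟨d10, d11, d12⟩, ⟨d13, d14⟩, d15⟩ :=
    trit_distinct o hp ha hb
  have hp' := hp
  obtain ⟨p1, -, p3, -, -⟩ := hp'
  have b1 : Bx J m n o := bx_of_ne hT (by omega)
  have b2 : Bx J m n (nb o 5) := bx_of_ne hT (by omega)
  have b3 : Bx J m n (nb (nb o a) b) := bx_of_ne hT (by omega)
  have h4 : T (nb o a) = opp a := by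
    have := hT.inv _ b1
    rwa [h1] at this
  have h5 : T (nb (nb o b) 5) = opp b := by
    have := hT.inv _ b2
    rwa [h2, nb_comm] at this
  have h6 : T (nb (nb (nb o a) b) 5) = 6 := by
    have := hT.inv _ b3
    rw [h3] at this
    exact this
  have oa : (opp a = 3) ↔ a = 4 := by
    have : a = 1 ∨ a = 2 ∨ a = 3 ∨ a = 4 := by omega
    rcases this with rfl | rfl | rfl | rfl <;> simp [opp]
  have ob : (opp b = 3) ↔ b = 4 := by
    have : b = 1 ∨ b = 2 ∨ b = 3 ∨ b = 4 := by omega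
    rcases this with rfl | rfl | rfl | rfl <;> simp [opp]
  unfold trit
  by_cases r1 : r = o
  · subst r1
    rw [if_pos rfl, if_pos rfl, if_neg d1.symm, if_neg d2.symm, if_neg d3.symm, if_neg d4.symm,
      if_neg d5.symm, h1, if_neg (by norm_num : ¬ (5 : ℕ) = 3)]
    ring
  by_cases r2 : r = nb o 5
  · subst r2
    rw [if_neg d1, if_pos rfl, if_neg d1, if_pos rfl, if_neg d6.symm, if_neg d7.symm, if_neg d8.symm,
      if_neg d9.symm, h2, if_neg (by norm_num : ¬ (6 : ℕ) = 3)]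
    ring
  by_cases r3 : r = nb o a
  · subst r3
    rw [if_neg d2, if_neg d6, if_pos rfl, if_neg d2, if_neg d6, if_pos rfl, if_neg d10.symm,
      if_neg d11.symm, if_neg d12.symm, h4]
    simp only [oa]
    ring
  by_cases r4 : r = nb (nb o a) b
  · subst r4
    rw [if_neg d3, if_neg d7, if_neg d10, if_pos rfl, if_neg d3, if_neg d7, if_neg d10, if_pos rfl,
      if_neg d13.symm, if_neg d14.symm, h3, if_neg (by norm_num : ¬ (5 : ℕ) = 3)]
    simp only [ob]
    ring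
  by_cases r5 : r = nb (nb o b) 5
  · subst r5
    rw [if_neg d4, if_neg d8, if_neg d11, if_neg d13, if_pos rfl, if_neg d4, if_neg d8, if_neg d11,
      if_neg d13, if_pos rfl, if_neg d15.symm, h5]
    simp only [ob]
    ring
  by_cases r6 : r = nb (nb (nb o a) b) 5
  · subst r6
    rw [if_neg d5, if_neg d9, if_neg d12, if_neg d14, if_neg d15, if_pos rfl, if_neg d5, if_neg d9,
      if_neg d12, if_neg d14, if_neg d15, if_pos rfl, h6, if_neg (by norm_num : ¬ (6 : ℕ) = 3)]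
    simp only [oa]
    ring
  · rw [if_neg r1, if_neg r2, if_neg r3, if_neg r4, if_neg r5, if_neg r6, if_neg r1, if_neg r2,
      if_neg r3, if_neg r4, if_neg r5, if_neg r6]
    ring

private theorem ht_two {J : ℕ} {m n : ℤ} {T T' : Cell → ℕ} {p q : Cell} {u v x0 y0 s : ℤ}
    (hp : Bx J m n p) (hq : Bx J m n q)
    (hx : (p.1 = x0 ∧ q.1 = x0 + 1) ∨ (p.1 = x0 + 1 ∧ q.1 = x0)) (hy : p.2.1 = y0) (hy' : q.2.1 = y0)
    (hu : u * (-1) ^ p.2.2.toNat = s) (hv : v * (-1) ^ q.2.2.toNat = s)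
    (h : ∀ r, (if T' r = 3 then (1 : ℤ) else 0) =
      (if T r = 3 then 1 else 0) + (if r = p then u else 0) + (if r = q then v else 0)) (i j : ℤ) :
    ht J T' i j = ht J T i j + if i = x0 + 1 ∧ j = y0 + 1 then 4 * (s * sg (i - 1) j) else 0 := by
  obtain ⟨p0, -, -, -, p1, p2⟩ := hp
  obtain ⟨q0, -, -, -, q1, q2⟩ := hq
  have hF := Fl_two p1 p2 q1 q2 h
  rw [hu, hv, hy, hy'] at hF
  have hF' : ∀ x y, Fl J T' 3 x y = Fl J T 3 x y + (if x = x0 ∧ y = y0 then s else 0) +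
      (if x = x0 + 1 ∧ y = y0 then s else 0) := by
    intro x y
    rw [hF x y]
    rcases hx with ⟨e1, e2⟩ | ⟨e1, e2⟩
    · rw [e1, e2]
    · rw [e1, e2]
      ring
  rw [ht_chg (by omega) hF' i j]
  by_cases hc : i = x0 + 1 ∧ j = y0 + 1
  · obtain ⟨rfl, rfl⟩ := hc
    rw [if_pos ⟨rfl, rfl⟩, if_pos ⟨rfl, rfl⟩, add_sub_cancel_right]
  · rw [if_neg hc, if_neg hc]

theorem ht_trit (hT : Til J m n T) {o : Cell} {a b : ℕ} (h : CanTrit T o a b) (i j : ℤ) :
    ht J (trit T o a b) i j = ht J T i j +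
      if i = o.1 + (if a = 1 ∨ b = 1 then 1 else 0) ∧ j = o.2.1 + (if a = 3 ∨ b = 3 then 1 else 0) then
      4 * ((if a ≤ 2 then 1 else -1) * sg (i - 1) j * (-1) ^ o.2.2.toNat) else 0 := by
  have hpt := trit_pt hT h
  obtain ⟨hp, ha, hb, h1, h2, h3⟩ := h
  obtain ⟨p1, -, p3, -, p5⟩ := hp
  have b1 : Bx J m n o := bx_of_ne hT (by omega)
  have b2 : Bx J m n (nb o 5) := bx_of_ne hT (by omega)
  have b3 : Bx J m n (nb (nb o a) b) := bx_of_ne hT (by omega)
  have b4 : Bx J m n (nb o a) := by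
    have := hT.mem _ b1
    rwa [h1] at this
  have b5 : Bx J m n (nb (nb o b) 5) := by
    have := hT.mem _ b2
    rwa [h2, nb_comm] at this
  have b6 : Bx J m n (nb (nb (nb o a) b) 5) := by
    have := hT.mem _ b3
    rwa [h3] at this
  have hz : 0 ≤ o.2.2 := b1.2.2.2.2.1
  have ht1 : (o.2.2 + 1).toNat = o.2.2.toNat + 1 := by omega
  have h8 : (a = 1 ∨ a = 2) ∧ (b = 3 ∨ b = 4) ∨ (a = 3 ∨ a = 4) ∧ (b = 1 ∨ b = 2) := by omega
  have fin : ∀ (x0 y0 s : ℤ), x0 + 1 = o.1 + (if a = 1 ∨ b = 1 then 1 else 0) →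
      y0 + 1 = o.2.1 + (if a = 3 ∨ b = 3 then 1 else 0) →
      s = (if a ≤ 2 then 1 else -1) * (-1) ^ o.2.2.toNat →
      ht J (trit T o a b) i j = ht J T i j +
        (if i = x0 + 1 ∧ j = y0 + 1 then 4 * (s * sg (i - 1) j) else 0) →
      ht J (trit T o a b) i j = ht J T i j +
      if i = o.1 + (if a = 1 ∨ b = 1 then 1 else 0) ∧ j = o.2.1 + (if a = 3 ∨ b = 3 then 1 else 0) then
      4 * ((if a ≤ 2 then 1 else -1) * sg (i - 1) j * (-1) ^ o.2.2.toNat) else 0 := by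
    intro x0 y0 s e1 e2 e3 e4
    rw [e4, e1, e2, e3]
    congr 1
    by_cases hc : i = o.1 + (if a = 1 ∨ b = 1 then 1 else 0) ∧
        j = o.2.1 + (if a = 3 ∨ b = 3 then 1 else 0)
    · rw [if_pos hc, if_pos hc]
      ring
    · rw [if_neg hc, if_neg hc]
  rcases h8 with ⟨ha8, rfl | rfl⟩ | ⟨rfl | rfl, hb8⟩
  · -- `b = 3`
    refine fin (o.1 + min 0 (dX a)) o.2.1 ((-1) ^ o.2.2.toNat) ?_ ?_ ?_ ?_
    · rcases ha8 with rfl | rfl <;> simp [dX]
    · simp
    · rcases ha8 with rfl | rfl <;> simp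
    · refine ht_two b2 b4 (u := -1) (v := 1) ?_ ?_ ?_ ?_ ?_ ?_ i j
      · rcases ha8 with rfl | rfl <;> simp [nb, dX]
      · simp [nb, dY]
      · rcases ha8 with rfl | rfl <;> simp [nb, dY]
      · simp [nb, dZ, ht1, pow_succ]
      · rcases ha8 with rfl | rfl <;> simp [nb, dZ]
      · intro r
        rw [hpt r]
        rcases ha8 with rfl | rfl <;> simp
  · -- `b = 4`
    refine fin (o.1 + min 0 (dX a)) (o.2.1 - 1) ((-1) ^ o.2.2.toNat) ?_ ?_ ?_ ?_
    · rcases ha8 with rfl | rfl <;> simp [dX]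
    · rcases ha8 with rfl | rfl <;> simp
    · rcases ha8 with rfl | rfl <;> simp
    · refine ht_two b5 b3 (u := -1) (v := 1) ?_ ?_ ?_ ?_ ?_ ?_ i j
      · rcases ha8 with rfl | rfl <;> simp [nb, dX]
      · simp [nb, dY]
        try ring
      · rcases ha8 with rfl | rfl <;> simp [nb, dY] <;> ring
      · simp [nb, dZ, ht1, pow_succ]
      · rcases ha8 with rfl | rfl <;> simp [nb, dZ]
      · intro r
        rw [hpt r]
        rcases ha8 with rfl | rfl <;> simp <;> ring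
  · -- `a = 3`
    refine fin (o.1 + min 0 (dX b)) o.2.1 (-(-1) ^ o.2.2.toNat) ?_ ?_ ?_ ?_
    · rcases hb8 with rfl | rfl <;> simp [dX]
    · simp
    · rcases hb8 with rfl | rfl <;> simp
    · refine ht_two b1 b5 (u := -1) (v := 1) ?_ ?_ ?_ ?_ ?_ ?_ i j
      · rcases hb8 with rfl | rfl <;> simp [nb, dX]
      · rfl
      · rcases hb8 with rfl | rfl <;> simp [nb, dY]
      · simp
      · rcases hb8 with rfl | rfl <;> simp [nb, dZ, ht1, pow_succ]
      · intro r
        rw [hpt r]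
        rcases hb8 with rfl | rfl <;> simp
  · -- `a = 4`
    refine fin (o.1 + min 0 (dX b)) (o.2.1 - 1) (-(-1) ^ o.2.2.toNat) ?_ ?_ ?_ ?_
    · rcases hb8 with rfl | rfl <;> simp [dX]
    · rcases hb8 with rfl | rfl <;> simp
    · rcases hb8 with rfl | rfl <;> simp
    · refine ht_two b4 b6 (u := -1) (v := 1) ?_ ?_ ?_ ?_ ?_ ?_ i j
      · rcases hb8 with rfl | rfl <;> simp [nb, dX]
      · simp [nb, dY]
        try ring
      · rcases hb8 with rfl | rfl <;> simp [nb, dY] <;> ring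
      · simp [nb, dZ]
      · rcases hb8 with rfl | rfl <;> simp [nb, dZ, ht1, pow_succ]
      · intro r
        rw [hpt r]
        rcases hb8 with rfl | rfl <;> simp

end Pool.Agent.FT3D
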