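import Pool.Agent.FT3D.Moves

/-!
# The effect of the moves on the number of horizontal dimers
-/

namespace Pool.Agent.FT3D

variable {J : ℕ} {m n : ℤ} {T : Cell → ℕ}

private theorem effect2_mem (hT : Til J m n T) {c : Cell} (h : T c ≠ 0) : c ∈ bxF J m n := by
  obtain ⟨h1, h2, h3, h4, h5, h6⟩ := bx_of_ne hT h
  unfold bxF
  simp only [Finset.mem_product, Finset.mem_Ico]
  exact ⟨⟨h1, h2⟩, ⟨h3, h4⟩, ⟨h5, h6⟩⟩

private theorem effect2_diff (s : Finset Cell) (hs : s ⊆ bxF J m n) {T T' : Cell → ℕ}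
    (h : ∀ x, x ∉ s → T' x = T x) :
    (hor J m n T' : ℤ) = hor J m n T +
      ∑ x ∈ s, ((if T' x ≤ 4 then (1 : ℤ) else 0) - (if T x ≤ 4 then (1 : ℤ) else 0)) := by
  have e1 : ∀ U : Cell → ℕ, (hor J m n U : ℤ) = ∑ x ∈ bxF J m n, (if U x ≤ 4 then (1 : ℤ) else 0) := by
    intro U
    unfold hor
    rw [Finset.card_filter]
    push_cast
    rfl
  rw [e1, e1]
  have e2 : ∑ x ∈ bxF J m n, ((if T' x ≤ 4 then (1 : ℤ) else 0) - (if T x ≤ 4 then (1 : ℤ) else 0)) =
      ∑ x ∈ s, ((if T' x ≤ 4 then (1 : ℤ) else 0) - (if T x ≤ 4 then (1 : ℤ) else 0)) := by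
    symm
    apply Finset.sum_subset hs
    intro x _ hx
    rw [h x hx]
    ring
  rw [← e2, Finset.sum_sub_distrib]
  ring

theorem hor_flip (hT : Til J m n T) {c : Cell} {d e : ℕ} (h : CanFlip T c d e)
    (hd : d = 1 ∨ d = 3 ∨ d = 5) (he : e = 1 ∨ e = 3 ∨ e = 5) :
    (hor J m n (flip T c d e) : ℤ) = hor J m n T + (if e = 5 then -4 else if d = 5 then 4 else 0) := by
  obtain ⟨hp, h1, h2⟩ := h
  obtain ⟨d1, d2, d3, d4, d5, d6⟩ := flip_distinct c hp
  have hp' := hp
  obtain ⟨hd1, hd6, he1, he6, hne⟩ := hp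
  have hc : T c ≠ 0 := by omega
  have hce : T (nb c e) ≠ 0 := by omega
  have o1 := opp_rng hd1 hd6
  have h3 : T (nb c d) = opp d := by
    have := hT.inv c (bx_of_ne hT hc)
    rw [h1] at this
    exact this
  have h4 : T (nb (nb c d) e) = opp d := by
    have := hT.inv (nb c e) (bx_of_ne hT hce)
    rw [h2, nb_comm] at this
    exact this
  have hcd : T (nb c d) ≠ 0 := by rw [h3]; omega
  have hcde : T (nb (nb c d) e) ≠ 0 := by rw [h4]; omega
  rw [effect2_diff ({c, nb c d, nb c e, nb (nb c d) e} : Finset Cell) ?_ ?_ (T := T) (T' := flip T c d e)]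
  · rw [Finset.sum_insert, Finset.sum_insert, Finset.sum_insert, Finset.sum_singleton]
    · have f1 : flip T c d e c = e := by simp [flip]
      have f2 : flip T c d e (nb c d) = e := by simp [flip, d1]
      have f3 : flip T c d e (nb c e) = opp e := by simp [flip, d2, Ne.symm d4]
      have f4 : flip T c d e (nb (nb c d) e) = opp e := by simp [flip, d3, d5, d6]
      rw [f1, f2, f3, f4, h1, h2, h3, h4]
      rcases hd with rfl | rfl | rfl <;> rcases he with rfl | rfl | rfl <;>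
        first
        | (exfalso; revert hne; decide)
        | (simp [opp])
    · simp [Ne.symm d6]
    · simp [d4, Ne.symm d5]
    · simp [Ne.symm d1, Ne.symm d2, Ne.symm d3]
  · intro x hx
    simp only [Finset.mem_insert, Finset.mem_singleton] at hx
    rcases hx with rfl | rfl | rfl | rfl
    · exact effect2_mem hT hc
    · exact effect2_mem hT hcd
    · exact effect2_mem hT hce
    · exact effect2_mem hT hcde
  · intro x hx
    simp only [Finset.mem_insert, Finset.mem_singleton, not_or] at hx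
    obtain ⟨x1, x2, x3, x4⟩ := hx
    simp [flip, x1, x2, x3, x4]

private theorem effect2_six (o : Cell) {a b : ℕ} (hp : perp a b) (ha : a ≤ 4) (hb : b ≤ 4) :
    (o ≠ nb o 5 ∧ o ≠ nb o a ∧ o ≠ nb (nb o a) b ∧ o ≠ nb (nb o b) 5 ∧ o ≠ nb (nb (nb o a) b) 5) ∧
    (nb o 5 ≠ nb o a ∧ nb o 5 ≠ nb (nb o a) b ∧ nb o 5 ≠ nb (nb o b) 5 ∧
      nb o 5 ≠ nb (nb (nb o a) b) 5) ∧
    (nb o a ≠ nb (nb o a) b ∧ nb o a ≠ nb (nb o b) 5 ∧ nb o a ≠ nb (nb (nb o a) b) 5) ∧
    (nb (nb o a) b ≠ nb (nb o b) 5 ∧ nb (nb o a) b ≠ nb (nb (nb o a) b) 5) ∧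
    nb (nb o b) 5 ≠ nb (nb (nb o a) b) 5 := by
  obtain ⟨x, y, z⟩ := o
  obtain ⟨h1, h2, h3, h4, h5⟩ := hp
  interval_cases a <;> interval_cases b <;>
    first
    | (exfalso; revert h5; decide)
    | (refine ⟨⟨?_, ?_, ?_, ?_, ?_⟩, ⟨?_, ?_, ?_, ?_⟩, ⟨?_, ?_, ?_⟩, ⟨?_, ?_⟩, ?_⟩ <;>
        (simp [nb, dX, dY, dZ]; try omega))

theorem hor_trit (hT : Til J m n T) {o : Cell} {a b : ℕ} (h : CanTrit T o a b) :
    hor J m n (trit T o a b) = hor J m n T := by
  obtain ⟨hp, ha, hb, h1, h2, h3⟩ := h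
  obtain ⟨⟨p1, p2, p3, p4, p5⟩, ⟨q1, q2, q3, q4⟩, ⟨r1, r2, r3⟩, ⟨s1, s2⟩, t1⟩ := effect2_six o hp ha hb
  have hp' := hp
  obtain ⟨ha1, ha6, hb1, hb6, hne⟩ := hp
  have n1 : T o ≠ 0 := by omega
  have n2 : T (nb o 5) ≠ 0 := by omega
  have n3 : T (nb (nb o a) b) ≠ 0 := by omega
  have oa := opp_rng ha1 ha6
  have ob := opp_rng hb1 hb6
  have oa4 : opp a ≤ 4 := by
    interval_cases a <;> decide
  have ob4 : opp b ≤ 4 := by
    interval_cases b <;> decide
  have v1 : T (nb o a) = opp a := by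
    have := hT.inv o (bx_of_ne hT n1)
    rw [h1] at this
    exact this
  have v2 : T (nb (nb o b) 5) = opp b := by
    have := hT.inv (nb o 5) (bx_of_ne hT n2)
    rw [h2, nb_comm] at this
    exact this
  have v3 : T (nb (nb (nb o a) b) 5) = 6 := by
    have := hT.inv (nb (nb o a) b) (bx_of_ne hT n3)
    rw [h3] at this
    rw [this]
    rfl
  have m1 : T (nb o a) ≠ 0 := by rw [v1]; omega
  have m2 : T (nb (nb o b) 5) ≠ 0 := by rw [v2]; omega
  have m3 : T (nb (nb (nb o a) b) 5) ≠ 0 := by rw [v3]; omega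
  have key : (hor J m n (trit T o a b) : ℤ) = hor J m n T := by
    rw [effect2_diff ({o, nb o 5, nb o a, nb (nb o a) b, nb (nb o b) 5, nb (nb (nb o a) b) 5} : Finset Cell)
      ?_ ?_ (T := T) (T' := trit T o a b)]
    · rw [Finset.sum_insert, Finset.sum_insert, Finset.sum_insert, Finset.sum_insert, Finset.sum_insert,
        Finset.sum_singleton]
      · have f1 : trit T o a b o = 5 := by simp [trit]
        have f2 : trit T o a b (nb o 5) = 6 := by simp [trit, Ne.symm p1]
        have f3 : trit T o a b (nb o a) = b := by simp [trit, Ne.symm p2, Ne.symm q1]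
        have f4 : trit T o a b (nb (nb o a) b) = opp b := by
          simp [trit, Ne.symm p3, Ne.symm q2, Ne.symm r1]
        have f5 : trit T o a b (nb (nb o b) 5) = a := by
          simp [trit, Ne.symm p4, Ne.symm q3, Ne.symm r2, Ne.symm s1]
        have f6 : trit T o a b (nb (nb (nb o a) b) 5) = opp a := by
          simp [trit, Ne.symm p5, Ne.symm q4, Ne.symm r3, Ne.symm s2, Ne.symm t1]
        rw [f1, f2, f3, f4, f5, f6, h1, h2, h3, v1, v2, v3]
        simp only [ha, hb, oa4, ob4, if_true]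
        norm_num
      · simp [t1]
      · simp [s1, s2]
      · simp [r1, r2, r3]
      · simp [q1, q2, q3, q4]
      · simp [p1, p2, p3, p4, p5]
    · intro x hx
      simp only [Finset.mem_insert, Finset.mem_singleton] at hx
      rcases hx with rfl | rfl | rfl | rfl | rfl | rfl
      · exact effect2_mem hT n1
      · exact effect2_mem hT n2
      · exact effect2_mem hT m1
      · exact effect2_mem hT n3
      · exact effect2_mem hT m2
      · exact effect2_mem hT m3
    · intro x hx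
      simp only [Finset.mem_insert, Finset.mem_singleton, not_or] at hx
      obtain ⟨x1, x2, x3, x4, x5, x6⟩ := hx
      simp [trit, x1, x2, x3, x4, x5, x6]
  exact_mod_cast key

end Pool.Agent.FT3D
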