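import Pool.Agent.FT3D.Height

/-!
# The projected height of a tiling: residues and boundary values
-/

namespace Pool.Agent.FT3D

variable {J : ℕ} {m n : ℤ} {T : Cell → ℕ}

/-- the height modulo 4 (`J` odd), and the flat height for three levels, `n` even -/
def H0 (i j : ℤ) : ℤ := if Even i then (if Even j then 0 else 1) else (if Even j then -1 else -2)

namespace Height2_aux

theorem ico_succ {j : ℤ} (hj : 0 ≤ j) (f : ℤ → ℤ) :
    ∑ y ∈ Finset.Ico 0 (j + 1), f y = (∑ y ∈ Finset.Ico 0 j, f y) + f j := by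
  have h1 : Finset.Ico 0 (j + 1) = insert j (Finset.Ico 0 j) := by
    ext y
    rw [Finset.mem_insert, Finset.mem_Ico, Finset.mem_Ico]
    omega
  have h2 : j ∉ Finset.Ico 0 j := by
    rw [Finset.mem_Ico]
    omega
  rw [h1, Finset.sum_insert h2, add_comm]

theorem ep_odd (hJ : J % 2 = 1) : ep J = 1 := by
  unfold ep
  rw [hJ]
  rfl

theorem ep_even (hJ : J % 2 = 0) : ep J = 0 := by
  unfold ep
  rw [hJ]
  rfl

/-- the signs and the flat height along a row -/
theorem H0_E (i j : ℤ) : ∃ k : ℤ, H0 (i + 1) j = H0 i j - sg i j + 4 * k := by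
  unfold H0 sg
  by_cases hi : Even i <;> by_cases hj : Even j
  · refine ⟨0, ?_⟩
    simp [hi, hj, Int.even_add]
  · refine ⟨-1, ?_⟩
    simp [hi, hj, Int.even_add]
  · refine ⟨0, ?_⟩
    simp [hi, hj, Int.even_add]
  · refine ⟨1, ?_⟩
    simp [hi, hj, Int.even_add]

theorem sg_pred_left (i j : ℤ) : sg (i - 1) j = - sg i j := by
  have h := sg_succ_left (i - 1) j
  rw [sub_add_cancel] at h
  rw [h, neg_neg]

/-- the flat height along a column -/
theorem H0_N (i j : ℤ) : H0 i (j + 1) = H0 i j - sg (i - 1) j := by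
  rw [sg_pred_left]
  unfold H0 sg
  by_cases hi : Even i <;> by_cases hj : Even j <;> simp [hi, hj, Int.even_add]

/-- the flat height along an even row -/
theorem H0_E' (i : ℤ) {j : ℤ} (hj : Even j) : H0 (i + 1) j = H0 i j - sg i j := by
  unfold H0 sg
  by_cases hi : Even i <;> simp [hi, hj, Int.even_add]

theorem ht_zero (hJ : J % 2 = 1) (T : Cell → ℕ) {j : ℤ} (hj : 0 ≤ j) : ht J T 0 j = H0 0 j := by
  have h : ∀ j : ℤ, 0 ≤ j → ∑ y ∈ Finset.Ico 0 j, sg 0 y = H0 0 j := by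
    intro j hj
    refine Int.leInduction (motive := fun j _ => ∑ y ∈ Finset.Ico 0 j, sg 0 y = H0 0 j) ?_ ?_ j hj
    · rfl
    · intro k hk ih
      rw [ico_succ hk, ih, H0_N, sg_pred_left, sub_neg_eq_add]
  unfold ht
  rw [ep_odd hJ, Finset.Ico_self, Finset.sum_empty, add_zero, ← h j hj]
  exact Finset.sum_congr rfl fun y _ => one_mul _

end Height2_aux

open Height2_aux

theorem ht_res_odd (hJ : J % 2 = 1) (T : Cell → ℕ) {i j : ℤ} (hi : 0 ≤ i) (hj : 0 ≤ j) :
    ∃ k : ℤ, ht J T i j = H0 i j + 4 * k := by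
  refine Int.leInduction (motive := fun i _ => ∃ k : ℤ, ht J T i j = H0 i j + 4 * k) ?_ ?_ i hi
  · exact ⟨0, by rw [ht_zero hJ T hj, mul_zero, add_zero]⟩
  · rintro i hi ⟨k, hk⟩
    obtain ⟨k', hk'⟩ := H0_E i j
    refine ⟨k - k' + sg i j * Fl J T 3 i (j - 1), ?_⟩
    rw [ht_E J T j hi, hk, hk', ep_odd hJ]
    ring

theorem ht_res_even (hJ : J % 2 = 0) (T : Cell → ℕ) (i j : ℤ) : ∃ k : ℤ, ht J T i j = 4 * k := by
  refine ⟨∑ x ∈ Finset.Ico 0 i, sg x j * Fl J T 3 x (j - 1), ?_⟩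
  unfold ht
  rw [ep_even hJ, Finset.mul_sum, Finset.sum_eq_zero fun y _ => zero_mul _, zero_add]
  refine Finset.sum_congr rfl fun x _ => ?_
  ring

/-- the height on the boundary, `J` odd, `n` even -/
theorem ht_bd (hJ : J % 2 = 1) (hT : Til J m n T) (hn : Even n) {i j : ℤ} (hC : Cl m n i j)
    (hb : i = 0 ∨ i = m ∨ j = 0 ∨ j = n) : ht J T i j = H0 i j := by
  obtain ⟨hi, hi', hj, hj'⟩ := hC
  -- a row without dimers
  have hrow : ∀ j : ℤ, 0 ≤ j → Even j → (∀ x : ℤ, Fl J T 3 x (j - 1) = 0) → ∀ i : ℤ, 0 ≤ i →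
      ht J T i j = H0 i j := by
    intro j hj hje hF i hi
    refine Int.leInduction (motive := fun i _ => ht J T i j = H0 i j) (ht_zero hJ T hj) ?_ i hi
    intro i hi ih
    rw [ht_E J T j hi, ih, H0_E' i hje, hF i, ep_odd hJ]
    ring
  have h0 : ∀ i : ℤ, 0 ≤ i → ht J T i 0 = H0 i 0 :=
    hrow 0 le_rfl Even.zero fun x => Fl_out hT 3 (Or.inr rfl) (by omega)
  rcases hb with hb | hb | hb | hb
  · rw [hb]
    exact ht_zero hJ T hj
  · rw [hb]
    rw [hb] at hi hi'
    have h1 : ∀ j : ℤ, 0 ≤ j → j ≤ n → ht J T m j = H0 m j := by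
      intro j hj
      refine Int.leInduction (motive := fun j _ => j ≤ n → ht J T m j = H0 m j) ?_ ?_ j hj
      · intro _
        exact h0 m hi
      · intro j hj ih hjn
        have h2 : Fl J T 1 (m - 1) j = 0 := by
          refine Fl_out' hT 1 (Or.inl rfl) ?_
          have h3 : dX 1 = 1 := rfl
          rw [h3]
          omega
        rw [ht_N hT hi le_rfl hj (by omega), ih (by omega), H0_N, h2, ep_odd hJ]
        ring
    exact h1 j hj hj'
  · rw [hb]
    exact h0 i hi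
  · rw [hb]
    refine hrow n (by omega) hn (fun x => ?_) i hi
    refine Fl_out' hT 3 (Or.inr rfl) ?_
    have h3 : dY 3 = 1 := rfl
    rw [h3]
    omega

end Pool.Agent.FT3D
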