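import Pool.Agent.FT3D.Effect
import Pool.Agent.FT3D.Effect2
import Pool.Agent.FT3D.Height2

/-!
# Three levels: the tilings with flat projected height are connected
-/

namespace Pool.Agent.FT3D

variable {m n : ℤ} {T : Cell → ℕ}

/-- the brick tiling: all dimers in direction `y` -/
noncomputable def brick (J : ℕ) (m n : ℤ) : Cell → ℕ := by
  classical
  exact fun c => if Bx J m n c then (if Even c.2.1 then 3 else 4) else 0

/-- flows of a tiling with flat height, direction `1` -/
private theorem Flat_F1 (hT : Til 3 m n T) (hH : ∀ i j, Cl m n i j → ht 3 T i j = H0 i j) {x y : ℤ}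
    (hx : 0 ≤ x) (hx' : x < m) (hy : 0 ≤ y) (hy' : y < n) : Fl 3 T 1 x y = 0 := by
  have h := ht_N hT (i := x + 1) (j := y) (by omega) (by omega) hy hy'
  rw [hH (x + 1) (y + 1) ⟨by omega, by omega, by omega, by omega⟩,
    hH (x + 1) y ⟨by omega, by omega, by omega, by omega⟩, show x + 1 - 1 = x by ring] at h
  have he : ep 3 = 1 := rfl
  rw [he] at h
  unfold H0 sg at h
  rcases Int.even_or_odd' x with ⟨a, ha | ha⟩ <;> rcases Int.even_or_odd' y with ⟨b, hb | hb⟩ <;>
    subst ha <;> subst hb <;> simp only [Int.even_add, Int.even_mul, even_two, Int.not_even_one, true_or,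
      iff_false, iff_true, not_true, if_true, if_false] at h <;> linarith

/-- flows of a tiling with flat height, direction `3` -/
private theorem Flat_F3 (hH : ∀ i j, Cl m n i j → ht 3 T i j = H0 i j) {x y : ℤ}
    (hx : 0 ≤ x) (hx' : x < m) (hy : 0 ≤ y) (hy' : y < n) :
    Fl 3 T 3 x y = if Even y then 1 else 0 := by
  have h := ht_E 3 T (i := x) (y + 1) hx
  rw [hH (x + 1) (y + 1) ⟨by omega, by omega, by omega, by omega⟩,
    hH x (y + 1) ⟨by omega, by omega, by omega, by omega⟩, show y + 1 - 1 = y by ring] at h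
  have he : ep 3 = 1 := rfl
  rw [he] at h
  unfold H0 sg at h
  rcases Int.even_or_odd' x with ⟨a, ha | ha⟩ <;> rcases Int.even_or_odd' y with ⟨b, hb | hb⟩ <;>
    subst ha <;> subst hb <;> simp only [Int.even_add, Int.even_mul, even_two, Int.not_even_one, true_or,
      iff_false, iff_true, not_true, if_true, if_false] at h ⊢ <;> linarith

/-- the flow as a sum over three levels -/
private theorem Flat_sum (T : Cell → ℕ) (k : ℕ) (x y : ℤ) : Fl 3 T k x y =
    (if T (x, y, 0) = k then 1 else 0) - (if T (x, y, 1) = k then 1 else 0) +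
      (if T (x, y, 2) = k then 1 else 0) := by
  unfold Fl
  rw [Finset.sum_range_succ, Finset.sum_range_succ, Finset.sum_range_succ, Finset.sum_range_zero]
  norm_num
  split_ifs <;> norm_num

/-- no stacked pairs and flow zero: no dimers in this direction -/
private theorem Flat_none (hT : Til 3 m n T) {k : ℕ} (hk : k ≠ 0) {x y : ℤ} (h0 : Fl 3 T k x y = 0)
    (hs : ∀ c, ¬ (T c = k ∧ T (nb c 5) = k)) (z : ℤ) : T (x, y, z) ≠ k := by
  intro h
  have hb := bx_of_ne hT (c := (x, y, z)) (by rw [h]; exact hk)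
  have hz0 : 0 ≤ z := hb.2.2.2.2.1
  have hz3 : z < 3 := hb.2.2.2.2.2
  rw [Flat_sum] at h0
  have e0 : nb (x, y, 0) 5 = (x, y, 1) := by simp [nb, dX, dY, dZ]
  have e1 : nb (x, y, 1) 5 = (x, y, 2) := by simp [nb, dX, dY, dZ]
  have s0 := hs (x, y, 0)
  have s1 := hs (x, y, 1)
  rw [e0] at s0
  rw [e1] at s1
  have hz : z = 0 ∨ z = 1 ∨ z = 2 := by omega
  rcases hz with rfl | rfl | rfl
  · rw [if_pos h] at h0
    by_cases h1 : T (x, y, 1) = k
    · exact s0 ⟨h, h1⟩
    · rw [if_neg h1] at h0
      split_ifs at h0 <;> omega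
  · rw [if_pos h] at h0
    by_cases h1 : T (x, y, 0) = k
    · exact s0 ⟨h1, h⟩
    · by_cases h2 : T (x, y, 2) = k
      · exact s1 ⟨h, h2⟩
      · rw [if_neg h1, if_neg h2] at h0
        omega
  · rw [if_pos h] at h0
    by_cases h1 : T (x, y, 1) = k
    · exact s1 ⟨h1, h⟩
    · rw [if_neg h1] at h0
      split_ifs at h0 <;> omega

/-- the invariant of phase 2 -/
private structure Flat_Q (m n : ℤ) (T : Cell → ℕ) : Prop where
  til : Til 3 m n T
  val : ∀ c, Bx 3 m n c → Even c.2.1 → T c = 3 ∨ T c = 5 ∨ T c = 6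
  par : ∀ c, Bx 3 m n c → Even c.2.1 → T c = 5 → T (nb c 3) = 5

private theorem nb3 (x y z : ℤ) : nb (x, y, z) 3 = (x, y + 1, z) := by simp [nb, dX, dY, dZ]

private theorem nb4 (x y z : ℤ) : nb (x, y, z) 4 = (x, y - 1, z) := by
  simp [nb, dX, dY, dZ, sub_eq_add_neg]

private theorem nb5 (x y z : ℤ) : nb (x, y, z) 5 = (x, y, z + 1) := by simp [nb, dX, dY, dZ]

private theorem nb6 (x y z : ℤ) : nb (x, y, z) 6 = (x, y, z - 1) := by
  simp [nb, dX, dY, dZ, sub_eq_add_neg]

private theorem nb2 (x y z : ℤ) : nb (x, y, z) 2 = (x - 1, y, z) := by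
  simp [nb, dX, dY, dZ, sub_eq_add_neg]

/-- no stacked pairs: the invariant of phase 2 holds -/
private theorem Flat_start (hn : Even n) (hT : Til 3 m n T)
    (hH : ∀ i j, Cl m n i j → ht 3 T i j = H0 i j)
    (hs1 : ∀ c, ¬ (T c = 1 ∧ T (nb c 5) = 1)) (hs3 : ∀ c, ¬ (T c = 3 ∧ T (nb c 5) = 3)) :
    Flat_Q m n T := by
  have n1 : ∀ x y z, T (x, y, z) ≠ 1 := by
    intro x y z h
    have hb := bx_of_ne hT (c := (x, y, z)) (by rw [h]; decide)
    exact Flat_none hT (by decide) (Flat_F1 hT hH hb.1 hb.2.1 hb.2.2.1 hb.2.2.2.1) hs1 z h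
  have n2 : ∀ x y z, T (x, y, z) ≠ 2 := by
    intro x y z h
    have hb := bx_of_ne hT (c := (x, y, z)) (by rw [h]; decide)
    have h1 := hT.inv _ hb
    rw [h, nb2] at h1
    exact n1 _ _ _ h1
  have n3 : ∀ x y z, ¬ Even y → T (x, y, z) ≠ 3 := by
    intro x y z hy h
    have hb := bx_of_ne hT (c := (x, y, z)) (by rw [h]; decide)
    have h0 := Flat_F3 hH (x := x) (y := y) hb.1 hb.2.1 hb.2.2.1 hb.2.2.2.1
    rw [if_neg hy] at h0
    exact Flat_none hT (by decide) h0 hs3 z h
  have n4 : ∀ x y z, Even y → T (x, y, z) ≠ 4 := by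
    intro x y z hy h
    have hb := bx_of_ne hT (c := (x, y, z)) (by rw [h]; decide)
    have h1 := hT.inv _ hb
    rw [h, nb4] at h1
    refine n3 _ (y - 1) _ ?_ h1
    rw [Int.even_sub_one]
    exact fun h' => h' hy
  have val : ∀ c, Bx 3 m n c → Even c.2.1 → T c = 3 ∨ T c = 5 ∨ T c = 6 := by
    rintro ⟨x, y, z⟩ hb hy
    have hr := hT.rng _ hb
    have h1 := n1 x y z
    have h2 := n2 x y z
    have h4 := n4 x y z hy
    omega
  have val' : ∀ c, Bx 3 m n c → ¬ Even c.2.1 → T c = 4 ∨ T c = 5 ∨ T c = 6 := by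
    rintro ⟨x, y, z⟩ hb hy
    have hr := hT.rng _ hb
    have h1 := n1 x y z
    have h2 := n2 x y z
    have h3 := n3 x y z hy
    omega
  refine ⟨hT, val, ?_⟩
  rintro ⟨x, y, z⟩ hb hy h5
  have hm := hT.mem _ hb
  have hi := hT.inv _ hb
  rw [h5, nb5] at hm hi
  have hi' : T (x, y, z + 1) = 6 := hi
  have hz0 : 0 ≤ z := hb.2.2.2.2.1
  have hz2 : z + 1 < 3 := hm.2.2.2.2.2
  have hx0 : 0 ≤ x := hb.1
  have hxm : x < m := hb.2.1
  have hy0 : 0 ≤ y := hb.2.2.1
  have hyn : y < n := hb.2.2.2.1
  have hy1 : Even y := hy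
  have hyn' : y + 1 < n := by
    obtain ⟨a, ha⟩ := hn
    obtain ⟨b, hb'⟩ := hy1
    omega
  have hy' : ¬ Even (y + 1) := by
    rw [Int.even_add_one]
    exact fun h' => h' hy
  have hf := Flat_F3 hH hx0 hxm hy0 hyn
  rw [if_pos hy, Flat_sum] at hf
  rw [nb3]
  -- a brick at level `w` of the column goes to the partner column
  have up : ∀ w, T (x, y + 1, w) = 4 → T (x, y, w) = 3 := by
    intro w h
    have hb' := bx_of_ne hT (c := (x, y + 1, w)) (by rw [h]; decide)
    have h1 := hT.inv _ hb'
    rw [h, nb4, add_sub_cancel_right] at h1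
    exact h1
  have dn : ∀ w, T (x, y, w) = 3 → T (x, y + 1, w) = 4 := by
    intro w h
    have hb' := bx_of_ne hT (c := (x, y, w)) (by rw [h]; decide)
    have h1 := hT.inv _ hb'
    rw [h, nb3] at h1
    exact h1
  have hbz : Bx 3 m n (x, y + 1, z) := ⟨hx0, hxm, by show 0 ≤ y + 1; omega, hyn', hz0, by
    show z < 3
    omega⟩
  have hz : z = 0 ∨ z = 1 := by omega
  rcases val' _ hbz hy' with h | h | h
  · have := up _ h
    rw [h5] at this
    exact absurd this (by decide)
  · exact h
  · exfalso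
    have hm2 := hT.mem _ hbz
    have hi2 := hT.inv _ hbz
    rw [h, nb6] at hm2 hi2
    have hi2' : T (x, y + 1, z - 1) = 5 := hi2
    have hz1 : 0 ≤ z - 1 := hm2.2.2.2.2.1
    rcases hz with rfl | rfl
    · omega
    · have e2 : T (x, y, 2) = 6 := hi'
      have h0 : T (x, y, 0) = 3 := by
        by_contra h0
        rw [if_neg h0, h5, e2] at hf
        norm_num at hf
      have h1 := dn _ h0
      have h3 : T (x, y + 1, 0) = 5 := hi2'
      rw [h3] at h1
      exact absurd h1 (by decide)

/-- one step of phase 2 -/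
private theorem Flat_step (hQ : Flat_Q m n T) {c : Cell} (hb : Bx 3 m n c) (hy : Even c.2.1)
    (h5 : T c = 5) : CanFlip T c 5 3 ∧ Flat_Q m n (flip T c 5 3) := by
  have hc : CanFlip T c 5 3 := ⟨by unfold perp; decide, h5, hQ.par c hb hy h5⟩
  obtain ⟨x, y, z⟩ := c
  have hy1 : Even y := hy
  have hval : ∀ c', Bx 3 m n c' → Even c'.2.1 → flip T (x, y, z) 5 3 c' = 3 ∨
      (flip T (x, y, z) 5 3 c' = T c' ∧ c' ≠ (x, y, z) ∧ c' ≠ nb (x, y, z) 5) := by
    rintro ⟨x', y', z'⟩ hb' hy'
    have hy2 : Even y' := hy'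
    unfold flip
    by_cases h1 : ((x', y', z') : Cell) = (x, y, z)
    · rw [if_pos h1]
      exact Or.inl rfl
    · rw [if_neg h1]
      by_cases h2 : ((x', y', z') : Cell) = nb (x, y, z) 5
      · rw [if_pos h2]
        exact Or.inl rfl
      · rw [if_neg h2]
        have h3 : ((x', y', z') : Cell) ≠ nb (x, y, z) 3 := by
          rw [nb3]
          intro h
          have h' : y' = y + 1 := congrArg (fun c : Cell => c.2.1) h
          rw [h', Int.even_add_one] at hy2
          exact hy2 hy1
        have h4 : ((x', y', z') : Cell) ≠ nb (nb (x, y, z) 5) 3 := by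
          rw [nb5, nb3]
          intro h
          have h' : y' = y + 1 := congrArg (fun c : Cell => c.2.1) h
          rw [h', Int.even_add_one] at hy2
          exact hy2 hy1
        rw [if_neg h3, if_neg h4]
        exact Or.inr ⟨rfl, h1, h2⟩
  refine ⟨hc, til_flip hQ.til hc, ?_, ?_⟩
  · intro c' hb' hy'
    rcases hval c' hb' hy' with h | ⟨h, _⟩
    · exact Or.inl h
    · rw [h]
      exact hQ.val c' hb' hy'
  · intro c' hb' hy' h'
    rcases hval c' hb' hy' with h | ⟨h, h1, h2⟩
    · rw [h] at h'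
      exact absurd h' (by decide)
    · rw [h] at h'
      have h3 := hQ.par c' hb' hy' h'
      obtain ⟨x', y', z'⟩ := c'
      have hy2 : Even y' := hy'
      unfold flip
      rw [if_neg, if_neg, if_neg, if_neg]
      · exact h3
      · intro h4
        apply h2
        rw [← nb_opp (x', y', z') (d := 3) (by decide) (by decide), h4, nb_opp _ (by decide) (by decide)]
      · intro h4
        apply h1
        rw [← nb_opp (x', y', z') (d := 3) (by decide) (by decide), h4, nb_opp _ (by decide) (by decide)]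
      · rw [nb3, nb5]
        intro h4
        have h5' : y' + 1 = y := congrArg (fun c : Cell => c.2.1) h4
        rw [← h5', Int.even_add_one] at hy1
        exact hy1 hy2
      · rw [nb3]
        intro h4
        have h5' : y' + 1 = y := congrArg (fun c : Cell => c.2.1) h4
        rw [← h5', Int.even_add_one] at hy1
        exact hy1 hy2

private theorem Flat_end (hQ : Flat_Q m n T) (h5 : ∀ c, Bx 3 m n c → Even c.2.1 → T c ≠ 5) :
    T = brick 3 m n := by
  have h3 : ∀ c, Bx 3 m n c → Even c.2.1 → T c = 3 := by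
    rintro ⟨x, y, z⟩ hb hy
    rcases hQ.val _ hb hy with h | h | h
    · exact h
    · exact absurd h (h5 _ hb hy)
    · exfalso
      have hm := hQ.til.mem _ hb
      have hi := hQ.til.inv _ hb
      rw [h, nb6] at hm hi
      exact h5 _ hm hy hi
  funext c
  unfold brick
  by_cases hb : Bx 3 m n c
  · rw [if_pos hb]
    by_cases hy : Even c.2.1
    · rw [if_pos hy]
      exact h3 c hb hy
    · rw [if_neg hy]
      obtain ⟨x, y, z⟩ := c
      have hy' : ¬ Even y := hy
      have hy0 : 0 ≤ y := hb.2.2.1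
      have hy1 : 0 ≤ y - 1 := by
        by_contra h
        have : y = 0 := by omega
        rw [this] at hy'
        exact hy' (by decide)
      have hyn : y < n := hb.2.2.2.1
      have hb' : Bx 3 m n (x, y - 1, z) := ⟨hb.1, hb.2.1, hy1, by show y - 1 < n; omega, hb.2.2.2.2⟩
      have he : Even (y - 1) := by
        rw [Int.even_sub_one]
        exact hy'
      have h := h3 _ hb' he
      have hi := hQ.til.inv _ hb'
      rw [h, nb3, sub_add_cancel] at hi
      exact hi
  · rw [if_neg hb]
    exact hQ.til.out c hb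

private theorem Flat_phase2 : ∀ (N : ℕ) (T : Cell → ℕ), (bxF 3 m n).card - hor 3 m n T = N →
    Flat_Q m n T → Conn T (brick 3 m n) := by
  intro N
  induction N using Nat.strong_induction_on with
  | _ N ih =>
    intro T hN hQ
    by_cases h : ∀ c, Bx 3 m n c → Even c.2.1 → T c ≠ 5
    · rw [Flat_end hQ h]
      exact Relation.ReflTransGen.refl
    · push Not at h
      obtain ⟨c, hb, hy, h5⟩ := h
      obtain ⟨hc, hQ'⟩ := Flat_step hQ hb hy h5
      have h1 := hor_flip hQ.til hc (by decide) (by decide)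
      rw [if_neg (by decide), if_pos rfl] at h1
      have h2 : hor 3 m n (flip T c 5 3) ≤ (bxF 3 m n).card := Finset.card_filter_le _ _
      have h3 := ih ((bxF 3 m n).card - hor 3 m n (flip T c 5 3)) (by omega) _ rfl hQ'
      exact Relation.ReflTransGen.head (Move.flip c 5 3 hc) h3

private theorem Flat_phase1 (hn : Even n) : ∀ (N : ℕ) (T : Cell → ℕ), hor 3 m n T = N → Til 3 m n T →
    (∀ i j, Cl m n i j → ht 3 T i j = H0 i j) → Conn T (brick 3 m n) := by
  intro N
  induction N using Nat.strong_induction_on with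
  | _ N ih =>
    intro T hN hT hH
    have key : ∀ k : ℕ, (k = 1 ∨ k = 3) → ∀ c, T c = k → T (nb c 5) = k → Conn T (brick 3 m n) := by
      intro k hk c h1 h2
      have hc : CanFlip T c k 5 := ⟨by rcases hk with rfl | rfl <;> (unfold perp; decide), h1, h2⟩
      have hd : k = 1 ∨ k = 3 ∨ k = 5 := by omega
      have h3 := hor_flip hT hc hd (by decide)
      rw [if_pos rfl] at h3
      refine Relation.ReflTransGen.head (Move.flip c k 5 hc)
        (ih (hor 3 m n (flip T c k 5)) (by omega) _ rfl (til_flip hT hc) fun i j hij => ?_)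
      rw [ht_flip_v hT hc hd (by decide) (Or.inr rfl)]
      exact hH i j hij
    by_cases h1 : ∃ c, T c = 1 ∧ T (nb c 5) = 1
    · obtain ⟨c, h, h'⟩ := h1
      exact key 1 (Or.inl rfl) c h h'
    · by_cases h3 : ∃ c, T c = 3 ∧ T (nb c 5) = 3
      · obtain ⟨c, h, h'⟩ := h3
        exact key 3 (Or.inr rfl) c h h'
      · exact Flat_phase2 _ T rfl (Flat_start hn hT hH (fun c h => h1 ⟨c, h⟩) (fun c h => h3 ⟨c, h⟩))

/-- `n` even. The heights give (`ht_E`, `ht_N`) `Fl 3 T 1 x y = 0` for all columns `(x,y)`, `(x+1,y)` of the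
rectangle, and `Fl 3 T 3 x y = 1` for `y` even, `0` for `y` odd. As `Fl = [level 0] - [level 1] + [level 2]`, over
an edge of the columns with flow 0 there are no dimers or two stacked ones (levels 0, 1 or levels 1, 2), over an
edge with flow 1 there is one dimer (level 0 or level 2) or three.
Phase 1 (induction on `hor`): if somewhere there are two stacked dimers `T c = T (nb c 5) = k`, `k = 1, 3`, the
flip `CanFlip T c k 5` replaces them by two vertical dimers; the heights are unchanged (`ht_flip_v`), `hor` goes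
down by 4 (`hor_flip`). When no such pair is left, every column has exactly one horizontal dimer; its partner is
the column of the brick `3 -> 4` (`y` even: `y+1`, `y` odd: `y-1`) and it is in level 0 or in level 2; the other
two cells of the column form a vertical dimer, also in the partner column.
Phase 2 (induction on the number of cells with `T c ≥ 5`): if `T c = 5` with `c = (x,y,z)`, `y` even (`z = 1` or
`0`), the flip `CanFlip T c 5 3` replaces the two vertical dimers by two bricks. Invariant of phase 2: every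
column pair `(x,2k), (x,2k+1)` has all three bricks, or one brick in level 0 (and the vertical dimers 1-2), or one
brick in level 2 (and the vertical dimers 0-1). -/
theorem flat_conn (hn : Even n) (hT : Til 3 m n T)
    (hH : ∀ i j, Cl m n i j → ht 3 T i j = H0 i j) : Conn T (brick 3 m n) := by
  exact Flat_phase1 hn _ T rfl hT hH

end Pool.Agent.FT3D
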