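import Pool.Agent.FT3D.Local

/-!
# Three levels: the global argument
-/

namespace Pool.Agent.FT3D

variable {m n : ℤ} {T : Cell → ℕ}

/-- the local lemmas for the parameters that are needed (from the trees) -/
def LL (P : Par) : Prop :=
  ∀ (m n : ℤ) (T : Cell → ℕ) (s gi gj : ℤ), Sit P m n T s gi gj → Concl P m n T s gi gj

private theorem Glob_rk_inj {m i j i' j' : ℤ} (hi : 0 ≤ i) (hi' : i ≤ m) (hk : 0 ≤ i') (hk' : i' ≤ m)
    (h : j * (m + 1) - i = j' * (m + 1) - i') : i = i' ∧ j = j' := by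
  have hj : j = j' := by
    rcases lt_trichotomy j j' with h1 | h1 | h1
    · exfalso
      have h2 : (j' - j) * (m + 1) ≥ 1 * (m + 1) := mul_le_mul_of_nonneg_right (by linarith) (by linarith)
      nlinarith
    · exact h1
    · exfalso
      have h2 : (j - j') * (m + 1) ≥ 1 * (m + 1) := mul_le_mul_of_nonneg_right (by linarith) (by linarith)
      nlinarith
  subst hj
  exact ⟨by linarith, rfl⟩

private theorem Glob_desc (m n s h : ℤ) (Inv : (Cell → ℕ) → Prop)
    (hstep : ∀ T gi gj, Til 3 m n T → Inv T → Cl m n gi gj → s * ht 3 T gi gj = h →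
      (∀ i j, Cl m n i j → s * ht 3 T i j ≤ h) →
      (∀ i j, Cl m n i j → gj * (m + 1) - gi < j * (m + 1) - i → s * ht 3 T i j < h) →
      ∃ T', Til 3 m n T' ∧ Conn T T' ∧ Inv T' ∧
        ((s * ht 3 T' gi gj < h ∧ ∀ i j, Cl m n i j → (i, j) ≠ (gi, gj) →
          s * ht 3 T' i j ≤ max (s * ht 3 T i j)
            (if gj * (m + 1) - gi < j * (m + 1) - i then h - 1 else h)) ∨
        ((∀ i j, Cl m n i j → ht 3 T' i j = ht 3 T i j) ∧ hor 3 m n T' < hor 3 m n T))) :
    ∀ T, Til 3 m n T → Inv T → (∀ i j, Cl m n i j → s * ht 3 T i j ≤ h) →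
      ∃ T', Til 3 m n T' ∧ Conn T T' ∧ Inv T' ∧ ∀ i j, Cl m n i j → s * ht 3 T' i j ≤ h - 1 := by
  have key : ∀ (r k : ℕ) (T : Cell → ℕ), Til 3 m n T → Inv T →
      (∀ i j, Cl m n i j → s * ht 3 T i j ≤ h) →
      (∀ i j, Cl m n i j → s * ht 3 T i j = h → j * (m + 1) - i + m < r) → hor 3 m n T < k →
      ∃ T', Til 3 m n T' ∧ Conn T T' ∧ Inv T' ∧ ∀ i j, Cl m n i j → s * ht 3 T' i j ≤ h - 1 := by
    intro r
    induction r with
    | zero =>
      intro k T hT hI hh hr _
      refine ⟨T, hT, Relation.ReflTransGen.refl, hI, fun i j hc => ?_⟩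
      have h1 := hh i j hc
      by_contra hcon
      have h2 : s * ht 3 T i j = h := by omega
      have h3 := hr i j hc h2
      obtain ⟨a, b, c, d⟩ := hc
      have h4 : 0 ≤ j * (m + 1) := mul_nonneg c (by linarith)
      push_cast at h3
      linarith
    | succ r ih =>
      intro k
      induction k with
      | zero => intro T _ _ _ _ hk; exact absurd hk (Nat.not_lt_zero _)
      | succ k ihk =>
        intro T hT hI hh hr hk
        by_cases hex : ∃ gi gj, Cl m n gi gj ∧ s * ht 3 T gi gj = h ∧ gj * (m + 1) - gi + m = r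
        · obtain ⟨gi, gj, hg, hgh, hgr⟩ := hex
          have hbef : ∀ i j, Cl m n i j → gj * (m + 1) - gi < j * (m + 1) - i →
              s * ht 3 T i j < h := by
            intro i j hc hlt
            rcases lt_or_eq_of_le (hh i j hc) with h1 | h1
            · exact h1
            · exfalso
              have h2 := hr i j hc h1
              push_cast at h2
              linarith
          obtain ⟨T', hT', hconn, hI', hcase⟩ := hstep T gi gj hT hI hg hgh hh hbef
          rcases hcase with ⟨hlt, hall⟩ | ⟨heq, hhor⟩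
          · have hh' : ∀ i j, Cl m n i j → s * ht 3 T' i j ≤ h := by
              intro i j hc
              by_cases he : (i, j) = (gi, gj)
              · rw [Prod.mk.injEq] at he
                rw [he.1, he.2]
                exact hlt.le
              · have h1 := hall i j hc he
                have h2 := hh i j hc
                refine h1.trans (max_le h2 ?_)
                split_ifs <;> omega
            have hr' : ∀ i j, Cl m n i j → s * ht 3 T' i j = h → j * (m + 1) - i + m < r := by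
              intro i j hc heq
              by_cases he : (i, j) = (gi, gj)
              · exfalso
                rw [Prod.mk.injEq] at he
                rw [he.1, he.2] at heq
                omega
              · by_contra hcon
                have h3 : gj * (m + 1) - gi < j * (m + 1) - i := by
                  have h4 : gj * (m + 1) - gi ≤ j * (m + 1) - i := by linarith
                  rcases lt_or_eq_of_le h4 with h5 | h5
                  · exact h5
                  · exfalso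
                    obtain ⟨h6, h7⟩ := Glob_rk_inj hg.1 hg.2.1 hc.1 hc.2.1 h5
                    exact he (by rw [h6, h7])
                have h5 := hall i j hc he
                rw [if_pos h3] at h5
                have h6 := hbef i j hc h3
                have h7 : max (s * ht 3 T i j) (h - 1) ≤ h - 1 := max_le (by omega) le_rfl
                omega
            obtain ⟨T'', a, b, c, d⟩ :=
              ih (hor 3 m n T' + 1) T' hT' hI' hh' hr' (Nat.lt_succ_self _)
            exact ⟨T'', a, conn_trans hconn b, c, d⟩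
          · have hh' : ∀ i j, Cl m n i j → s * ht 3 T' i j ≤ h := by
              intro i j hc
              rw [heq i j hc]
              exact hh i j hc
            have hr' : ∀ i j, Cl m n i j → s * ht 3 T' i j = h →
                j * (m + 1) - i + m < ((r + 1 : ℕ) : ℤ) := by
              intro i j hc he
              rw [heq i j hc] at he
              exact hr i j hc he
            obtain ⟨T'', a, b, c, d⟩ := ihk T' hT' hI' hh' hr' (by omega)
            exact ⟨T'', a, conn_trans hconn b, c, d⟩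
        · refine ih (k + 1) T hT hI hh ?_ hk
          intro i j hc he
          have h1 := hr i j hc he
          push_cast at h1
          by_contra hcon
          exact hex ⟨i, j, hc, he, by linarith⟩
  intro T hT hI hh
  refine key (n * (m + 1) + m + 1).toNat (hor 3 m n T + 1) T hT hI hh ?_ (Nat.lt_succ_self _)
  intro i j hc _
  obtain ⟨a, b, c, d⟩ := hc
  have h1 : j * (m + 1) ≤ n * (m + 1) := mul_le_mul_of_nonneg_right d (by linarith)
  have h2 := Int.self_le_toNat (n * (m + 1) + m + 1)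
  linarith

private theorem Glob_bound (m n : ℤ) (f : ℤ → ℤ → ℤ) :
    ∃ h : ℕ, ∀ i j, Cl m n i j → f i j ≤ h := by
  refine ⟨(∑ p ∈ Finset.Icc 0 m ×ˢ Finset.Icc 0 n, |f p.1 p.2|).toNat, fun i j hc => ?_⟩
  have h1 : |f i j| ≤ ∑ p ∈ Finset.Icc 0 m ×ˢ Finset.Icc 0 n, |f p.1 p.2| :=
    Finset.single_le_sum (f := fun p : ℤ × ℤ => |f p.1 p.2|) (fun p _ => abs_nonneg _)
      (Finset.mem_product.2 ⟨Finset.mem_Icc.2 ⟨hc.1, hc.2.1⟩,
        Finset.mem_Icc.2 ⟨hc.2.2.1, hc.2.2.2⟩⟩ : (i, j) ∈ Finset.Icc 0 m ×ˢ Finset.Icc 0 n)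
  exact (le_abs_self _).trans (h1.trans (Int.self_le_toNat _))

private theorem Glob_rk (P : Par) (hal : P.al = 0) (m i j : ℤ) : rk P m i j = j * (m + 1) - i := by
  rw [rk, hal]
  push_cast
  ring

private theorem Glob_conv (P : Par) (hJ : P.J = 3) (hal : P.al = 0) {m n : ℤ} {T : Cell → ℕ}
    {s gi gj h : ℤ} (hg : s * ht 3 T gi gj = h) (hC : Concl P m n T s gi gj) :
    ∃ T', Til 3 m n T' ∧ Conn T T' ∧
      (∀ i j, Cl m n i j → min (s * ht 3 T i j - h) (flI P (i - gi) (j - gj)) ≤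
        s * ht 3 T' i j - h) ∧
      ((s * ht 3 T' gi gj < h ∧ ∀ i j, Cl m n i j → (i, j) ≠ (gi, gj) →
          s * ht 3 T' i j ≤ max (s * ht 3 T i j)
            (if gj * (m + 1) - gi < j * (m + 1) - i then h - 1 else h)) ∨
        ((∀ i j, Cl m n i j → ht 3 T' i j = ht 3 T i j) ∧ hor 3 m n T' < hor 3 m n T)) := by
  obtain ⟨T', hT', hc, hlow, hcase⟩ := hC
  simp only [hJ, mul_sub, hg, Glob_rk P hal] at hT' hlow hcase
  refine ⟨T', hT', hc, hlow, ?_⟩
  rcases hcase with ⟨h1, h2⟩ | h1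
  · refine Or.inl ⟨by linarith, fun i j hcl hne => ?_⟩
    have h3 := h2 i j hcl hne
    have h4 : s * ht 3 T' i j ≤ max (s * ht 3 T i j - h)
        (if gj * (m + 1) - gi < j * (m + 1) - i then -1 else 0) + h := by linarith
    refine h4.trans ?_
    rw [← max_add_add_right]
    refine max_le_max (by linarith) ?_
    split_ifs <;> linarith
  · exact Or.inr h1

private theorem Glob_sit (P : Par) (hJ : P.J = 3) (hal : P.al = 0) {m n : ℤ} {T : Cell → ℕ}
    {s gi gj h : ℤ} (hT : Til 3 m n T) (hs : s = 1 ∨ s = -1) (hi : 0 < gi ∧ gi < m)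
    (hj : 0 < gj ∧ gj < n) (ho : s * sg (gi - 1) gj = if P.ori = 0 then 1 else -1)
    (hg : s * ht 3 T gi gj = h)
    (hh : ∀ i j, Cl m n i j → s * ht 3 T i j ≤ h)
    (hbef : ∀ i j, Cl m n i j → gj * (m + 1) - gi < j * (m + 1) - i → s * ht 3 T i j < h)
    (hflo : P.deep = false → ∀ i j, Cl m n i j →
      flI P (i - gi) (j - gj) ≤ s * ht 3 T i j - h) : Sit P m n T s gi gj := by
  refine ⟨by rw [hJ]; exact hT, hs, hi, hj, ho, ?_, ?_, ?_⟩
  · intro i j hc
    rw [hJ, mul_sub, hg]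
    have h1 := hh i j hc
    linarith
  · intro i j hc hlt
    rw [Glob_rk P hal, Glob_rk P hal] at hlt
    rw [hJ, mul_sub, hg]
    have h1 := hbef i j hc hlt
    linarith
  · intro hd i j hc
    rw [hJ, mul_sub, hg]
    exact hflo hd i j hc

/-- a vertex whose height is not a boundary value is interior -/
private theorem Glob_int {m n : ℤ} {T : Cell → ℕ} (hn : Even n) (hT : Til 3 m n T) {gi gj : ℤ}
    (hg : Cl m n gi gj) (hne : ht 3 T gi gj ≠ H0 gi gj) : (0 < gi ∧ gi < m) ∧ (0 < gj ∧ gj < n) := by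
  by_contra hcon
  apply hne
  apply ht_bd (by norm_num) hT hn hg
  obtain ⟨a, b, c, d⟩ := hg
  omega

private theorem Glob_H0 (i j : ℤ) : -2 ≤ H0 i j ∧ H0 i j ≤ 1 := by
  unfold H0
  split_ifs <;> omega

/-- Step A, `s = 1`. Induction on the bound `h` of the heights (all `ht ≤ h`; claim trivial for `h ≤ 1`); for
fixed `h ≥ 2` induction on (rank `rk` of the highest ranked vertex `g` with `ht g = h`, `hor`) (lexicographic; if
there is no such vertex go to `h - 1`). The vertex `g` is interior by `ht_bd` (`H0 ≤ 1`). Parameters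
`⟨3, 0, 0, true, -9⟩` if `sg (gi-1) gj = 1`, else `⟨3, 1, 0, true, -9⟩`; `flo` is void (`deep`), `bef` holds by the choice
of `g`. In the conclusion the lower bound is not needed. First case of `Concl`: again all heights `≤ h`, and all
vertices of height `h` have rank `< rk g` (rank is injective on `Cl`). -/
theorem stepA (hp : LL ⟨3, 0, 0, true, -9⟩) (hq : LL ⟨3, 1, 0, true, -9⟩) (hn : Even n)
    (hT : Til 3 m n T) : ∃ T', Til 3 m n T' ∧ Conn T T' ∧ ∀ i j, Cl m n i j → ht 3 T' i j ≤ 1 := by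
  have key : ∀ (h : ℕ) (T : Cell → ℕ), Til 3 m n T → (∀ i j, Cl m n i j → ht 3 T i j ≤ (h : ℤ) + 1) →
      ∃ T', Til 3 m n T' ∧ Conn T T' ∧ ∀ i j, Cl m n i j → ht 3 T' i j ≤ 1 := by
    intro h
    induction h with
    | zero =>
      intro T hT hh
      exact ⟨T, hT, Relation.ReflTransGen.refl, fun i j hc => by have := hh i j hc; push_cast at this; omega⟩
    | succ h ih =>
      intro T hT hh
      obtain ⟨T1, h1, h2, -, h4⟩ := Glob_desc m n 1 ((h : ℤ) + 2) (fun _ => True) (by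
        intro T gi gj hT _ hg hgh hh hbef
        have hne : ht 3 T gi gj ≠ H0 gi gj := by
          have := (Glob_H0 gi gj).2
          omega
        obtain ⟨hi, hj⟩ := Glob_int hn hT hg hne
        rcases sg_one (gi - 1) gj with hs | hs
        · have hS : Sit ⟨3, 0, 0, true, -9⟩ m n T 1 gi gj :=
            Glob_sit ⟨3, 0, 0, true, -9⟩ rfl rfl hT (Or.inl rfl) hi hj (by rw [hs]; simp) hgh hh hbef
              (fun hd => by simp at hd)
          obtain ⟨T', a, b, -, d⟩ := Glob_conv ⟨3, 0, 0, true, -9⟩ rfl rfl hgh (hp m n T 1 gi gj hS)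
          exact ⟨T', a, b, trivial, d⟩
        · have hS : Sit ⟨3, 1, 0, true, -9⟩ m n T 1 gi gj :=
            Glob_sit ⟨3, 1, 0, true, -9⟩ rfl rfl hT (Or.inl rfl) hi hj (by rw [hs]; simp) hgh hh hbef
              (fun hd => by simp at hd)
          obtain ⟨T', a, b, -, d⟩ := Glob_conv ⟨3, 1, 0, true, -9⟩ rfl rfl hgh (hq m n T 1 gi gj hS)
          exact ⟨T', a, b, trivial, d⟩) T hT trivial (by
          intro i j hc
          have := hh i j hc
          push_cast at this
          omega)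
      obtain ⟨T2, h5, h6, h7⟩ := ih T1 h1 (by
        intro i j hc
        have := h4 i j hc
        omega)
      exact ⟨T2, h5, conn_trans h2 h6, h7⟩
  obtain ⟨h, hh⟩ := Glob_bound m n (ht 3 T)
  exact key h T hT (fun i j hc => by have := hh i j hc; omega)

private theorem Glob_H0_cases (i j : ℤ) :
    (i % 2 = 0 ∧ j % 2 = 0 ∧ H0 i j = 0) ∨ (i % 2 = 0 ∧ j % 2 = 1 ∧ H0 i j = 1) ∨
      (i % 2 = 1 ∧ j % 2 = 0 ∧ H0 i j = -1) ∨ (i % 2 = 1 ∧ j % 2 = 1 ∧ H0 i j = -2) := by
  unfold H0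
  rcases Int.emod_two_eq_zero_or_one i with hi | hi <;>
  rcases Int.emod_two_eq_zero_or_one j with hj | hj <;>
  simp [Int.even_iff, hi, hj]

private theorem Glob_rI_cases0 (P : Par) (hJ : P.J = 3) (ho : P.ori = 0) (i j : ℤ) :
    (i % 2 = 0 ∧ j % 2 = 0 ∧ rI P i j = 0) ∨ (i % 2 = 0 ∧ j % 2 = 1 ∧ rI P i j = 3) ∨
      (i % 2 = 1 ∧ j % 2 = 0 ∧ rI P i j = 1) ∨ (i % 2 = 1 ∧ j % 2 = 1 ∧ rI P i j = 2) := by
  unfold rI
  rcases Int.emod_two_eq_zero_or_one i with hi | hi <;>
  rcases Int.emod_two_eq_zero_or_one j with hj | hj <;>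
  simp [Int.even_iff, hi, hj, hJ, ho]

private theorem Glob_rI_cases1 (P : Par) (hJ : P.J = 3) (ho : P.ori ≠ 0) (i j : ℤ) :
    (i % 2 = 0 ∧ j % 2 = 0 ∧ rI P i j = 0) ∨ (i % 2 = 0 ∧ j % 2 = 1 ∧ rI P i j = 1) ∨
      (i % 2 = 1 ∧ j % 2 = 0 ∧ rI P i j = 3) ∨ (i % 2 = 1 ∧ j % 2 = 1 ∧ rI P i j = 2) := by
  unfold rI
  rcases Int.emod_two_eq_zero_or_one i with hi | hi <;>
  rcases Int.emod_two_eq_zero_or_one j with hj | hj <;>
  simp [Int.even_iff, hi, hj, hJ, ho]

/-- the residue of the floor -/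
private theorem Glob_rI (P : Par) (hJ : P.J = 3) {gi gj i j h k : ℤ} (hg : -h = H0 gi gj + 4 * k)
    (ho : P.ori = 0 ↔ Even h) : (rI P (i - gi) (j - gj) + H0 i j + h) % 4 = 0 := by
  rw [Int.even_iff] at ho
  by_cases hP : P.ori = 0
  · have hh := ho.1 hP
    rcases Glob_rI_cases0 P hJ hP (i - gi) (j - gj) with ⟨a1, a2, a3⟩ | ⟨a1, a2, a3⟩ |
        ⟨a1, a2, a3⟩ | ⟨a1, a2, a3⟩ <;>
    rcases Glob_H0_cases i j with ⟨b1, b2, b3⟩ | ⟨b1, b2, b3⟩ | ⟨b1, b2, b3⟩ | ⟨b1, b2, b3⟩ <;>
    rcases Glob_H0_cases gi gj with ⟨c1, c2, c3⟩ | ⟨c1, c2, c3⟩ | ⟨c1, c2, c3⟩ | ⟨c1, c2, c3⟩ <;>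
    omega
  · have hh : ¬ h % 2 = 0 := fun h' => hP (ho.2 h')
    rcases Glob_rI_cases1 P hJ hP (i - gi) (j - gj) with ⟨a1, a2, a3⟩ | ⟨a1, a2, a3⟩ |
        ⟨a1, a2, a3⟩ | ⟨a1, a2, a3⟩ <;>
    rcases Glob_H0_cases i j with ⟨b1, b2, b3⟩ | ⟨b1, b2, b3⟩ | ⟨b1, b2, b3⟩ | ⟨b1, b2, b3⟩ <;>
    rcases Glob_H0_cases gi gj with ⟨c1, c2, c3⟩ | ⟨c1, c2, c3⟩ | ⟨c1, c2, c3⟩ | ⟨c1, c2, c3⟩ <;>
    omega

/-- one step of step B for a suitable parameter -/
private theorem Glob_stepB (P : Par) (hP : LL P) (hJ : P.J = 3) (hal : P.al = 0) {h : ℤ}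
    (hPh : P.ori = 0 ↔ Even h)
    (hM : (P.deep = false ∧ P.M = -h - 1) ∨ (P.deep = true ∧ P.M = -9 ∧ 8 ≤ h)) (h3 : 3 ≤ h)
    (hn : Even n) :
    ∀ T gi gj, Til 3 m n T → (∀ i j, Cl m n i j → ht 3 T i j ≤ H0 i j) → Cl m n gi gj →
      (-1) * ht 3 T gi gj = h →
      (∀ i j, Cl m n i j → (-1) * ht 3 T i j ≤ h) →
      (∀ i j, Cl m n i j → gj * (m + 1) - gi < j * (m + 1) - i → (-1) * ht 3 T i j < h) →
      ∃ T', Til 3 m n T' ∧ Conn T T' ∧ (∀ i j, Cl m n i j → ht 3 T' i j ≤ H0 i j) ∧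
        (((-1) * ht 3 T' gi gj < h ∧ ∀ i j, Cl m n i j → (i, j) ≠ (gi, gj) →
          (-1) * ht 3 T' i j ≤ max ((-1) * ht 3 T i j)
            (if gj * (m + 1) - gi < j * (m + 1) - i then h - 1 else h)) ∨
        ((∀ i j, Cl m n i j → ht 3 T' i j = ht 3 T i j) ∧ hor 3 m n T' < hor 3 m n T)) := by
  intro T gi gj hT hI hg hgh hh hbef
  have hne : ht 3 T gi gj ≠ H0 gi gj := by
    have := (Glob_H0 gi gj).1
    omega
  obtain ⟨hi, hj⟩ := Glob_int hn hT hg hne
  obtain ⟨k, hk⟩ := ht_res_odd (J := 3) (by norm_num) T hg.1 hg.2.2.1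
  have hgk : -h = H0 gi gj + 4 * k := by omega
  have hfl : ∀ i j, (rI P (i - gi) (j - gj) + H0 i j + h) % 4 = 0 := fun i j => Glob_rI P hJ hgk hPh
  have hori : (-1) * sg (gi - 1) gj = if P.ori = 0 then 1 else -1 := by
    have e1 : P.ori = 0 ↔ ¬ Even (gi - 1 + gj) := by
      rw [hPh, Int.even_iff, Int.even_iff]
      rcases Glob_H0_cases gi gj with ⟨c1, c2, c3⟩ | ⟨c1, c2, c3⟩ | ⟨c1, c2, c3⟩ | ⟨c1, c2, c3⟩ <;>
      constructor <;> intro _ <;> omega
    unfold sg
    by_cases h0 : P.ori = 0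
    · rw [if_pos h0, if_neg (e1.1 h0)]
      norm_num
    · have h1 : Even (gi - 1 + gj) := by
        by_contra hc
        exact h0 (e1.2 hc)
      rw [if_neg h0, if_pos h1]
      norm_num
  have hS : Sit P m n T (-1) gi gj := by
    refine Glob_sit P hJ hal hT (Or.inr rfl) hi hj hori hgh hh hbef ?_
    intro hd i j hc
    rcases hM with ⟨-, hM⟩ | ⟨hd', -⟩
    · have h1 := hI i j hc
      have h2 := hfl i j
      have h4 := Glob_H0 i j
      unfold flI
      omega
    · rw [hd] at hd'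
      simp at hd'
  obtain ⟨T', a, b, c, d⟩ := Glob_conv P hJ hal hgh (hP m n T (-1) gi gj hS)
  refine ⟨T', a, b, ?_, d⟩
  intro i j hc
  have h1 := hI i j hc
  have h2 := hfl i j
  have h4 := Glob_H0 i j
  have h5 := c i j hc
  unfold flI at h5
  rcases hM with ⟨-, hM⟩ | ⟨-, hM, h8⟩
  · rcases min_le_iff.1 h5 with h6 | h6 <;> omega
  · rcases min_le_iff.1 h5 with h6 | h6 <;> omega

/-- Step B, `s = -1`. First `ht ≤ H0` on `Cl` (from `ht_res_odd` and `ht ≤ 1`). Then the same induction as in step A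
for `-ht ≤ h` with the invariant `ht ≤ H0`, as long as `h ≥ 3` (so that `g` is interior, as `H0 ≥ -2` on the boundary).
Here `ht g = -h`; `s * sg (gi-1) gj = 1` iff `gi + gj` even iff `h` even (residues). Parameters: `M = -h-1`, not deep,
for `h = 3, ..., 7` (`⟨3,1,0,false,-4⟩`, `⟨3,0,0,false,-5⟩`, `⟨3,1,0,false,-6⟩`, `⟨3,0,0,false,-7⟩`,
`⟨3,1,0,false,-8⟩`), and `⟨3,0,0,true,-9⟩` (`h` even), `⟨3,1,0,true,-9⟩` (`h` odd) for `h ≥ 8`.
Key fact: for `M = -h-1` the floor `flI P (i-gi) (j-gj)` is `-H0 i j - h` (same residue class modulo 4, and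
`M ≤ -H0 i j - h ≤ M+3`); for `h ≥ 8` and `M = -9` it is `≥ -H0 i j - h`. So the floor condition holds since `ht ≤ H0`,
and the lower bound in `Concl` says `ht ≤ H0` for the new tiling. At the end `ht ≥ -2`, `ht ≤ H0` and the residues give
`ht = H0`. -/
theorem stepB (h9 : LL ⟨3, 0, 0, true, -9⟩) (h9' : LL ⟨3, 1, 0, true, -9⟩)
    (h4 : LL ⟨3, 1, 0, false, -4⟩) (h5 : LL ⟨3, 0, 0, false, -5⟩) (h6 : LL ⟨3, 1, 0, false, -6⟩)
    (h7 : LL ⟨3, 0, 0, false, -7⟩) (h8 : LL ⟨3, 1, 0, false, -8⟩) (hn : Even n)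
    (hT : Til 3 m n T) (hH : ∀ i j, Cl m n i j → ht 3 T i j ≤ 1) :
    ∃ T', Til 3 m n T' ∧ Conn T T' ∧ ∀ i j, Cl m n i j → ht 3 T' i j = H0 i j := by
  have key : ∀ (h : ℕ) (T : Cell → ℕ), Til 3 m n T → (∀ i j, Cl m n i j → ht 3 T i j ≤ H0 i j) →
      (∀ i j, Cl m n i j → (-1) * ht 3 T i j ≤ (h : ℤ) + 2) →
      ∃ T', Til 3 m n T' ∧ Conn T T' ∧ ∀ i j, Cl m n i j → ht 3 T' i j = H0 i j := by
    intro h
    induction h with
    | zero =>
      intro T hT hI hh
      refine ⟨T, hT, Relation.ReflTransGen.refl, fun i j hc => ?_⟩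
      have h1 := hI i j hc
      have h2 := hh i j hc
      obtain ⟨k, hk⟩ := ht_res_odd (J := 3) (by norm_num) T hc.1 hc.2.2.1
      have h3 := Glob_H0 i j
      push_cast at h2
      omega
    | succ h ih =>
      intro T hT hI hh
      obtain ⟨T1, g1, g2, g3, g4⟩ := Glob_desc m n (-1) ((h : ℤ) + 3)
        (fun T => ∀ i j, Cl m n i j → ht 3 T i j ≤ H0 i j) (by
          rcases Nat.lt_or_ge h 5 with hlt | hge
          · have hcases : h = 0 ∨ h = 1 ∨ h = 2 ∨ h = 3 ∨ h = 4 := by omega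
            rcases hcases with rfl | rfl | rfl | rfl | rfl
            · exact Glob_stepB ⟨3, 1, 0, false, -4⟩ h4 rfl rfl (by rw [Int.even_iff]; norm_num)
                (Or.inl ⟨rfl, by norm_num⟩) (by norm_num) hn
            · exact Glob_stepB ⟨3, 0, 0, false, -5⟩ h5 rfl rfl (by rw [Int.even_iff]; norm_num)
                (Or.inl ⟨rfl, by norm_num⟩) (by norm_num) hn
            · exact Glob_stepB ⟨3, 1, 0, false, -6⟩ h6 rfl rfl (by rw [Int.even_iff]; norm_num)
                (Or.inl ⟨rfl, by norm_num⟩) (by norm_num) hn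
            · exact Glob_stepB ⟨3, 0, 0, false, -7⟩ h7 rfl rfl (by rw [Int.even_iff]; norm_num)
                (Or.inl ⟨rfl, by norm_num⟩) (by norm_num) hn
            · exact Glob_stepB ⟨3, 1, 0, false, -8⟩ h8 rfl rfl (by rw [Int.even_iff]; norm_num)
                (Or.inl ⟨rfl, by norm_num⟩) (by norm_num) hn
          · have hge' : (5 : ℤ) ≤ h := by exact_mod_cast hge
            by_cases he : Even ((h : ℤ) + 3)
            · exact Glob_stepB ⟨3, 0, 0, true, -9⟩ h9 rfl rfl (by simp [he])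
                (Or.inr ⟨rfl, rfl, by omega⟩) (by omega) hn
            · exact Glob_stepB ⟨3, 1, 0, true, -9⟩ h9' rfl rfl (by simp [he])
                (Or.inr ⟨rfl, rfl, by omega⟩) (by omega) hn) T hT hI (by
          intro i j hc
          have := hh i j hc
          push_cast at this
          omega)
      obtain ⟨T2, g5, g6, g7⟩ := ih T1 g1 g3 (by
        intro i j hc
        have := g4 i j hc
        omega)
      exact ⟨T2, g5, conn_trans g2 g6, g7⟩
  obtain ⟨h, hh⟩ := Glob_bound m n (fun i j => (-1) * ht 3 T i j)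
  refine key h T hT ?_ (fun i j hc => by have := hh i j hc; omega)
  intro i j hc
  have h1 := hH i j hc
  obtain ⟨k, hk⟩ := ht_res_odd (J := 3) (by norm_num) T hc.1 hc.2.2.1
  have h3 := Glob_H0 i j
  omega

end Pool.Agent.FT3D
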