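import Pool.Agent.FT3D.Moves

/-!
# The projected height of a tiling
-/

namespace Pool.Agent.FT3D

variable {J : ℕ} {m n : ℤ} {T : Cell → ℕ}

theorem sg_one (x y : ℤ) : sg x y = 1 ∨ sg x y = -1 := by
  unfold sg
  split_ifs
  · exact Or.inl rfl
  · exact Or.inr rfl

theorem sg_succ_left (x y : ℤ) : sg (x + 1) y = - sg x y := by
  unfold sg
  by_cases h : Even (x + y)
  · have h' : ¬ Even (x + 1 + y) := by
      rw [Int.not_even_iff_odd]
      have h2 := h.add_one
      have h3 : x + 1 + y = x + y + 1 := by ring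
      rw [h3]
      exact h2
    rw [if_pos h, if_neg h']
  · have h' : Even (x + 1 + y) := by
      rw [Int.not_even_iff_odd] at h
      have h2 := h.add_one
      have h3 : x + 1 + y = x + y + 1 := by ring
      rw [h3]
      exact h2
    rw [if_neg h, if_pos h', neg_neg]

theorem sg_succ_right (x y : ℤ) : sg x (y + 1) = - sg x y := by
  rw [← sg_succ_left]
  unfold sg
  have h3 : x + (y + 1) = x + 1 + y := by ring
  rw [h3]

/-- no dimers leave the box -/
theorem Fl_out (hT : Til J m n T) {x y : ℤ} (k : ℕ) (hk : k = 1 ∨ k = 3)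
    (h : x < 0 ∨ m ≤ x ∨ y < 0 ∨ n ≤ y) : Fl J T k x y = 0 := by
  unfold Fl
  refine Finset.sum_eq_zero fun z _ => ?_
  have h1 : T (x, y, (z : ℤ)) = 0 := by
    apply hT.out
    rintro ⟨h1, h2, h3, h4, _, _⟩
    simp only at h1 h2 h3 h4
    omega
  rw [h1, if_neg, mul_zero]
  omega

/-- no dimers leave the box -/
theorem Fl_out' (hT : Til J m n T) {x y : ℤ} (k : ℕ) (hk : k = 1 ∨ k = 3)
    (h : x + dX k < 0 ∨ m ≤ x + dX k ∨ y + dY k < 0 ∨ n ≤ y + dY k) : Fl J T k x y = 0 := by
  unfold Fl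
  refine Finset.sum_eq_zero fun z _ => ?_
  rw [if_neg, mul_zero]
  intro hz
  have hb : Bx J m n (x, y, (z : ℤ)) := by
    by_contra hb
    have h1 := hT.out _ hb
    omega
  have h2 := hT.mem _ hb
  rw [hz] at h2
  obtain ⟨h3, h4, h5, h6, _, _⟩ := h2
  unfold nb at h3 h4 h5 h6
  simp only at h3 h4 h5 h6
  omega

private theorem Height_two (hT : Til J m n T) (x y z : ℤ) : T (x - 1, y, z) = 1 ↔ T (x, y, z) = 2 := by
  constructor
  · intro h
    have hb : Bx J m n (x - 1, y, z) := by
      by_contra hb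
      have h1 := hT.out _ hb
      omega
    have h2 := hT.inv _ hb
    have h3 : nb (x - 1, y, z) 1 = (x, y, z) := by
      simp [nb, dX, dY, dZ]
    rw [h, h3] at h2
    exact h2
  · intro h
    have hb : Bx J m n (x, y, z) := by
      by_contra hb
      have h1 := hT.out _ hb
      omega
    have h2 := hT.inv _ hb
    have h3 : nb (x, y, z) 2 = (x - 1, y, z) := by
      simp [nb, dX, dY, dZ, sub_eq_add_neg]
    rw [h, h3] at h2
    exact h2

private theorem Height_four (hT : Til J m n T) (x y z : ℤ) : T (x, y - 1, z) = 3 ↔ T (x, y, z) = 4 := by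
  constructor
  · intro h
    have hb : Bx J m n (x, y - 1, z) := by
      by_contra hb
      have h1 := hT.out _ hb
      omega
    have h2 := hT.inv _ hb
    have h3 : nb (x, y - 1, z) 3 = (x, y, z) := by
      simp [nb, dX, dY, dZ]
    rw [h, h3] at h2
    exact h2
  · intro h
    have hb : Bx J m n (x, y, z) := by
      by_contra hb
      have h1 := hT.out _ hb
      omega
    have h2 := hT.inv _ hb
    have h3 : nb (x, y, z) 4 = (x, y - 1, z) := by
      simp [nb, dX, dY, dZ, sub_eq_add_neg]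
    rw [h, h3] at h2
    exact h2

private theorem Height_six (hT : Til J m n T) (x y z : ℤ) : T (x, y, z) = 5 ↔ T (x, y, z + 1) = 6 := by
  constructor
  · intro h
    have hb : Bx J m n (x, y, z) := by
      by_contra hb
      have h1 := hT.out _ hb
      omega
    have h2 := hT.inv _ hb
    have h3 : nb (x, y, z) 5 = (x, y, z + 1) := by
      simp [nb, dX, dY, dZ]
    rw [h, h3] at h2
    exact h2
  · intro h
    have hb : Bx J m n (x, y, z + 1) := by
      by_contra hb
      have h1 := hT.out _ hb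
      omega
    have h2 := hT.inv _ hb
    have h3 : nb (x, y, z + 1) 6 = (x, y, z) := by
      simp [nb, dX, dY, dZ]
    rw [h, h3] at h2
    exact h2

/-- The alternating number of horizontal dimers at a column. Proof: sum over the levels `z` of
`(-1)^z` times `1 = [T=1]+...+[T=6]`; `[T(x,y,z)=2] = [T(x-1,y,z)=1]`, `[T(x,y,z)=4] = [T(x,y-1,z)=3]` and
`[T(x,y,z)=5] = [T(x,y,z+1)=6]`, so the vertical dimers cancel. -/
theorem col_sum (hT : Til J m n T) {x y : ℤ} (hx : 0 ≤ x) (hx' : x < m) (hy : 0 ≤ y) (hy' : y < n) :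
    Fl J T 1 x y + Fl J T 1 (x - 1) y + Fl J T 3 x y + Fl J T 3 x (y - 1) = ep J := by
  set f : ℕ → ℤ := fun z => (-1) ^ z * (if T (x, y, (z : ℤ)) = 6 then 1 else 0) with hf
  have hf0 : f 0 = 0 := by
    show (-1) ^ 0 * (if T (x, y, ((0 : ℕ) : ℤ)) = 6 then 1 else 0) = (0 : ℤ)
    rw [if_neg, mul_zero]
    intro h
    have hb : Bx J m n (x, y, ((0 : ℕ) : ℤ)) := by
      by_contra hb
      have h1 := hT.out _ hb
      omega
    have h2 := hT.mem _ hb
    rw [h] at h2
    obtain ⟨_, _, _, _, h7, _⟩ := h2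
    simp [nb, dZ] at h7
  have hfJ : f J = 0 := by
    show (-1) ^ J * (if T (x, y, (J : ℤ)) = 6 then 1 else 0) = (0 : ℤ)
    have h1 : T (x, y, (J : ℤ)) = 0 := by
      apply hT.out
      rintro ⟨_, _, _, _, _, h8⟩
      simp only at h8
      omega
    rw [h1, if_neg (by decide), mul_zero]
  have htel : ∑ z ∈ Finset.range J, (f z - f (z + 1)) = 0 := by
    rw [Finset.sum_range_sub', hf0, hfJ, sub_zero]
  have hep : ∑ z ∈ Finset.range J, ((-1 : ℤ)) ^ z = ep J := by
    rw [neg_one_geom_sum]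
    unfold ep
    split_ifs with h
    · rw [Nat.even_iff.mp h]
      rfl
    · rw [Nat.not_even_iff.mp h]
      rfl
  have hz : ∀ z ∈ Finset.range J,
      (-1 : ℤ) ^ z * (if T (x, y, (z : ℤ)) = 1 then 1 else 0) +
        (-1) ^ z * (if T (x - 1, y, (z : ℤ)) = 1 then 1 else 0) +
        (-1) ^ z * (if T (x, y, (z : ℤ)) = 3 then 1 else 0) +
        (-1) ^ z * (if T (x, y - 1, (z : ℤ)) = 3 then 1 else 0) + (f z - f (z + 1)) = (-1) ^ z := by
    intro z hz
    rw [Finset.mem_range] at hz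
    have hb : Bx J m n (x, y, (z : ℤ)) := ⟨hx, hx', hy, hy', by simp, by simpa using hz⟩
    obtain ⟨h1, h6⟩ := hT.rng _ hb
    have e2 : (if T (x - 1, y, (z : ℤ)) = 1 then (1 : ℤ) else 0) =
        if T (x, y, (z : ℤ)) = 2 then 1 else 0 := if_congr (Height_two hT x y z) rfl rfl
    have e4 : (if T (x, y - 1, (z : ℤ)) = 3 then (1 : ℤ) else 0) =
        if T (x, y, (z : ℤ)) = 4 then 1 else 0 := if_congr (Height_four hT x y z) rfl rfl
    have e5 : f (z + 1) = - ((-1) ^ z * (if T (x, y, (z : ℤ)) = 5 then 1 else 0)) := by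
      show (-1) ^ (z + 1) * (if T (x, y, ((z + 1 : ℕ) : ℤ)) = 6 then 1 else 0) = _
      have e6 : (if T (x, y, ((z + 1 : ℕ) : ℤ)) = 6 then (1 : ℤ) else 0) =
          if T (x, y, (z : ℤ)) = 5 then 1 else 0 := by
        rw [Nat.cast_add, Nat.cast_one]
        exact if_congr (Height_six hT x y z).symm rfl rfl
      rw [e6, pow_succ]
      ring
    rw [e2, e4, e5]
    show _ + _ + _ + _ + ((-1) ^ z * (if T (x, y, (z : ℤ)) = 6 then 1 else 0) - _) = _
    generalize T (x, y, (z : ℤ)) = t at h1 h6 ⊢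
    interval_cases t <;> simp
  have hall := Finset.sum_congr rfl hz
  rw [hep, Finset.sum_add_distrib, Finset.sum_add_distrib, Finset.sum_add_distrib,
    Finset.sum_add_distrib, htel, add_zero] at hall
  exact hall

private theorem Height_Ico {i : ℤ} (hi : 0 ≤ i) : Finset.Ico 0 (i + 1) = insert i (Finset.Ico 0 i) := by
  ext x
  simp only [Finset.mem_Ico, Finset.mem_insert]
  omega

theorem ht_E (J : ℕ) (T : Cell → ℕ) {i : ℤ} (j : ℤ) (hi : 0 ≤ i) :
    ht J T (i + 1) j = ht J T i j + sg i j * (4 * Fl J T 3 i (j - 1) - ep J) := by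
  unfold ht
  rw [Height_Ico hi, Finset.sum_insert (by simp)]
  ring

/-- by induction on `i`, from `col_sum` -/
theorem ht_N (hT : Til J m n T) {i j : ℤ} (hi : 0 ≤ i) (hi' : i ≤ m) (hj : 0 ≤ j) (hj' : j < n) :
    ht J T i (j + 1) = ht J T i j + sg (i - 1) j * (4 * Fl J T 1 (i - 1) j - ep J) := by
  revert hi'
  refine Int.le_induction (m := 0) (motive := fun i _ => i ≤ m →
    ht J T i (j + 1) = ht J T i j + sg (i - 1) j * (4 * Fl J T 1 (i - 1) j - ep J)) ?_ ?_ i hi
  · intro _
    have h1 : Fl J T 1 (0 - 1) j = 0 := Fl_out hT 1 (Or.inl rfl) (Or.inl (by norm_num))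
    have h2 : sg (0 - 1) j = - sg 0 j := by
      have h3 := sg_succ_left (0 - 1) j
      rw [sub_add_cancel] at h3
      rw [h3, neg_neg]
    rw [h1, h2]
    unfold ht
    rw [Height_Ico hj, Finset.sum_insert (by simp)]
    simp only [Finset.Ico_self, Finset.sum_empty]
    ring
  · intro i hi ih hi'
    have h1 := ih (by omega)
    have h2 := col_sum hT hi (by omega : i < m) hj hj'
    have h3 : sg (i - 1) j = - sg i j := by
      have h4 := sg_succ_left (i - 1) j
      rw [sub_add_cancel] at h4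
      rw [h4, neg_neg]
    rw [ht_E J T (j + 1) hi, ht_E J T j hi, h1, h3, sg_succ_right, add_sub_cancel_right,
      add_sub_cancel_right]
    have h5 : ep J = Fl J T 1 i j + Fl J T 1 (i - 1) j + Fl J T 3 i j + Fl J T 3 i (j - 1) := h2.symm
    rw [h5]
    ring

end Pool.Agent.FT3D
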