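import Pool.Agent.FT3D.Effect
import Pool.Agent.FT3D.Effect2
import Pool.Agent.FT3D.Height2
import Pool.Agent.FT3D.Check

/-!
# The local lemma: statement
-/

namespace Pool.Agent.FT3D

/-- the order of the vertices -/
def rk (P : Par) (m i j : ℤ) : ℤ := (j + P.al * i) * (m + 1) - i

/-- residue class modulo 4 of the relative height at the relative position `(i,j)` -/
def rI (P : Par) (i j : ℤ) : ℤ :=
  if P.J % 2 = 0 then 0 else
  if P.ori = 0 then
    (if Even i then (if Even j then 0 else 3) else (if Even j then 1 else 2))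
  else
    (if Even i then (if Even j then 0 else 1) else (if Even j then 3 else 2))

/-- the floor at the relative position `(i,j)` -/
def flI (P : Par) (i j : ℤ) : ℤ := P.M + (rI P i j - P.M) % 4

/-- the situation at a maximum of `s * ht` -/
structure Sit (P : Par) (m n : ℤ) (T : Cell → ℕ) (s gi gj : ℤ) : Prop where
  til : Til P.J m n T
  s1 : s = 1 ∨ s = -1
  hi : 0 < gi ∧ gi < m
  hj : 0 < gj ∧ gj < n
  ori : s * sg (gi - 1) gj = if P.ori = 0 then 1 else -1
  up : ∀ i j, Cl m n i j → s * (ht P.J T i j - ht P.J T gi gj) ≤ 0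
  bef : ∀ i j, Cl m n i j → rk P m gi gj < rk P m i j → s * (ht P.J T i j - ht P.J T gi gj) < 0
  flo : P.deep = false → ∀ i j, Cl m n i j →
    flI P (i - gi) (j - gj) ≤ s * (ht P.J T i j - ht P.J T gi gj)

/-- the conclusion of the local lemma: flips and trits near `g` lower the maximum at `g`, or keep all heights
and reduce the number of horizontal dimers -/
def Concl (P : Par) (m n : ℤ) (T : Cell → ℕ) (s gi gj : ℤ) : Prop :=
  ∃ T', Til P.J m n T' ∧ Conn T T' ∧
    (∀ i j, Cl m n i j → min (s * (ht P.J T i j - ht P.J T gi gj)) (flI P (i - gi) (j - gj)) ≤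
      s * (ht P.J T' i j - ht P.J T gi gj)) ∧
    ((s * (ht P.J T' gi gj - ht P.J T gi gj) < 0 ∧
      ∀ i j, Cl m n i j → (i, j) ≠ (gi, gj) → s * (ht P.J T' i j - ht P.J T gi gj) ≤
        max (s * (ht P.J T i j - ht P.J T gi gj)) (if rk P m gi gj < rk P m i j then -1 else 0)) ∨
     ((∀ i j, Cl m n i j → ht P.J T' i j = ht P.J T i j) ∧ hor P.J m n T' < hor P.J m n T))

end Pool.Agent.FT3D
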