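import Pool.Agent.Dimer3D.Public

/-!
# Flips and trits of dimer configurations: the public definitions
-/

namespace Pool.Agent.FT3D

open Pool.Agent.Dimer3D

/-- `τ'` is obtained from `τ` by a trit: a swap along an alternating cycle of length `6` whose vertices are the
vertices of a unit cube other than one antipodal pair `a, b` -/
def IsTrit (B : Set (ℤ × ℤ × ℤ)) (τ τ' : Set (Sym2 (ℤ × ℤ × ℤ))) : Prop :=
  ∃ c : ℕ → ℤ × ℤ × ℤ, IsCycleIn Adj3 B 6 c ∧ Alternating τ c ∧ τ' = symmDiff τ (cycleEdges c) ∧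
    ∃ a b : ℤ × ℤ × ℤ, |a.1 - b.1| = 1 ∧ |a.2.1 - b.2.1| = 1 ∧ |a.2.2 - b.2.2| = 1 ∧
      Set.range c = {x | (x.1 = a.1 ∨ x.1 = b.1) ∧ (x.2.1 = a.2.1 ∨ x.2.1 = b.2.1) ∧
        (x.2.2 = a.2.2 ∨ x.2.2 = b.2.2)} \ {a, b}

/-- one flip (a `4`-swap) or one trit between dimer configurations of `B` -/
def FTStep (B : Set (ℤ × ℤ × ℤ)) (τ τ' : Set (Sym2 (ℤ × ℤ × ℤ))) : Prop :=
  IsConfig Adj3 B τ ∧ IsConfig Adj3 B τ' ∧ (IsSwap Adj3 B 4 τ τ' ∨ IsTrit B τ τ')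

/-- `τ` and `τ'` are joined by a finite sequence of flips and trits -/
def JoinedFT (B : Set (ℤ × ℤ × ℤ)) (τ τ' : Set (Sym2 (ℤ × ℤ × ℤ))) : Prop :=
  Relation.ReflTransGen (FTStep B) τ τ'

/-- any two dimer configurations of `B` are joined by a finite sequence of flips and trits -/
def FTConn (B : Set (ℤ × ℤ × ℤ)) : Prop :=
  ∀ τ τ' : Set (Sym2 (ℤ × ℤ × ℤ)), IsConfig Adj3 B τ → IsConfig Adj3 B τ' → JoinedFT B τ τ'

end Pool.Agent.FT3D
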