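import Pool.Agent.FT3D.Moves
import Pool.Agent.FT3D.PubDefs

/-!
# Dimer configurations of the box and the tilings `Til`
-/

namespace Pool.Agent.FT3D

open Pool.Agent.Dimer3D

variable {J m n : ℕ} {T T' : Cell → ℕ}

/-- the point of the box that corresponds to a cell -/
def pt (c : Cell) : ℤ × ℤ × ℤ := (c.1 + 1, c.2.1 + 1, c.2.2 + 1)

/-- the dimers of a tiling -/
def tau (T : Cell → ℕ) : Set (Sym2 (ℤ × ℤ × ℤ)) := {e | ∃ c, T c ≠ 0 ∧ e = s(pt c, pt (nb c (T c)))}

private theorem Pub_pt_inj {c c' : Cell} (h : pt c = pt c') : c = c' := by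
  obtain ⟨x, y, z⟩ := c
  obtain ⟨x', y', z'⟩ := c'
  simp only [pt, Prod.mk.injEq] at h ⊢
  omega

private theorem Pub_pt_mem {c : Cell} : pt c ∈ Box m n J ↔ Bx J m n c := by
  show ((1 ≤ c.1 + 1 ∧ c.1 + 1 ≤ (m : ℤ)) ∧ (1 ≤ c.2.1 + 1 ∧ c.2.1 + 1 ≤ (n : ℤ)) ∧
    (1 ≤ c.2.2 + 1 ∧ c.2.2 + 1 ≤ (J : ℤ))) ↔
    0 ≤ c.1 ∧ c.1 < m ∧ 0 ≤ c.2.1 ∧ c.2.1 < n ∧ 0 ≤ c.2.2 ∧ c.2.2 < J
  omega

private theorem Pub_exists_pt (x : ℤ × ℤ × ℤ) : ∃ c : Cell, x = pt c := by
  obtain ⟨x, y, z⟩ := x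
  refine ⟨(x - 1, y - 1, z - 1), ?_⟩
  simp only [pt, Prod.mk.injEq]
  omega

private theorem Pub_adj_iff (x y : ℤ × ℤ × ℤ) : Adj3 x y ↔
    ((x.1 - y.1 = 1 ∨ x.1 - y.1 = -1) ∧ x.2.1 = y.2.1 ∧ x.2.2 = y.2.2) ∨
    (x.1 = y.1 ∧ (x.2.1 - y.2.1 = 1 ∨ x.2.1 - y.2.1 = -1) ∧ x.2.2 = y.2.2) ∨
    (x.1 = y.1 ∧ x.2.1 = y.2.1 ∧ (x.2.2 - y.2.2 = 1 ∨ x.2.2 - y.2.2 = -1)) := by
  unfold Adj3
  simp only [abs_eq (zero_le_one' ℤ)]

private theorem Pub_adj (c : Cell) {d : ℕ} (h1 : 1 ≤ d) (h6 : d ≤ 6) : Adj3 (pt c) (pt (nb c d)) := by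
  rw [Pub_adj_iff]
  interval_cases d <;> simp [pt, nb, dX, dY, dZ]

private theorem Pub_adj_conv {c : Cell} {y : ℤ × ℤ × ℤ} (h : Adj3 (pt c) y) :
    ∃ d, 1 ≤ d ∧ d ≤ 6 ∧ y = pt (nb c d) := by
  rw [Pub_adj_iff] at h
  obtain ⟨y1, y2, y3⟩ := y
  obtain ⟨x1, x2, x3⟩ := c
  simp only [pt] at h
  rcases h with ⟨h | h, h2, h3⟩ | ⟨h1, h | h, h3⟩ | ⟨h1, h2, h | h⟩
  · refine ⟨2, by norm_num, by norm_num, ?_⟩
    simp only [pt, nb, dX, dY, dZ, Prod.mk.injEq]
    norm_num
    omega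
  · refine ⟨1, by norm_num, by norm_num, ?_⟩
    simp only [pt, nb, dX, dY, dZ, Prod.mk.injEq]
    norm_num
    omega
  · refine ⟨4, by norm_num, by norm_num, ?_⟩
    simp only [pt, nb, dX, dY, dZ, Prod.mk.injEq]
    norm_num
    omega
  · refine ⟨3, by norm_num, by norm_num, ?_⟩
    simp only [pt, nb, dX, dY, dZ, Prod.mk.injEq]
    norm_num
    omega
  · refine ⟨6, by norm_num, by norm_num, ?_⟩
    simp only [pt, nb, dX, dY, dZ, Prod.mk.injEq]
    norm_num
    omega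
  · refine ⟨5, by norm_num, by norm_num, ?_⟩
    simp only [pt, nb, dX, dY, dZ, Prod.mk.injEq]
    norm_num
    omega

private theorem Pub_nb_inj {c : Cell} {d d' : ℕ} (h1 : 1 ≤ d) (h6 : d ≤ 6) (h1' : 1 ≤ d') (h6' : d' ≤ 6)
    (h : nb c d = nb c d') : d = d' := by
  obtain ⟨x, y, z⟩ := c
  simp only [nb, Prod.mk.injEq, add_right_inj] at h
  obtain ⟨hx, hy, hz⟩ := h
  interval_cases d <;> interval_cases d' <;> simp_all [dX, dY, dZ]

private theorem Pub_nb_ne (c : Cell) {d : ℕ} (h1 : 1 ≤ d) (h6 : d ≤ 6) : nb c d ≠ c := by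
  obtain ⟨x, y, z⟩ := c
  intro h
  simp only [nb, Prod.mk.injEq] at h
  obtain ⟨hx, hy, hz⟩ := h
  interval_cases d <;> simp [dX, dY, dZ] at hx hy hz

private theorem Pub_ne {M N : ℤ} (h : Til J M N T) {c : Cell} : T c ≠ 0 ↔ Bx J M N c := by
  constructor
  · intro h1
    by_contra h2
    exact h1 (h.out c h2)
  · intro h1 h2
    have := (h.rng c h1).1
    omega

/-- the partner of the partner -/
private theorem Pub_inv {M N : ℤ} (h : Til J M N T) {c : Cell} (hc : Bx J M N c) :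
    nb (nb c (T c)) (T (nb c (T c))) = c := by
  rw [h.inv c hc]
  exact nb_opp c (h.rng c hc).1 (h.rng c hc).2

private theorem Pub_mem_tau {M N : ℤ} (h : Til J M N T) {a b : Cell} :
    s(pt a, pt b) ∈ tau T ↔ Bx J M N a ∧ b = nb a (T a) := by
  constructor
  · rintro ⟨c, hc, he⟩
    have hc' := (Pub_ne h).1 hc
    rcases Sym2.eq_iff.1 he with ⟨h1, h2⟩ | ⟨h1, h2⟩
    · have h3 := Pub_pt_inj h1
      have h4 := Pub_pt_inj h2
      subst h3
      exact ⟨hc', h4⟩
    · have h3 := Pub_pt_inj h1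
      have h4 := Pub_pt_inj h2
      subst h3 h4
      exact ⟨h.mem _ hc', (Pub_inv h hc').symm⟩
  · rintro ⟨h1, h2⟩
    exact ⟨a, (Pub_ne h).2 h1, by rw [h2]⟩

theorem config_tau (h : Til J m n T) : IsConfig Adj3 (Box m n J) (tau T) := by
  constructor
  · rintro e ⟨c, hc, rfl⟩
    have hc' := (Pub_ne h).1 hc
    exact ⟨pt c, Pub_pt_mem.2 hc', pt (nb c (T c)), Pub_pt_mem.2 (h.mem c hc'),
      Pub_adj c (h.rng c hc').1 (h.rng c hc').2, rfl⟩
  · intro x hx
    obtain ⟨c, rfl⟩ := Pub_exists_pt x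
    have hc := Pub_pt_mem.1 hx
    refine ⟨s(pt c, pt (nb c (T c))), ⟨⟨c, (Pub_ne h).2 hc, rfl⟩, Sym2.mem_mk_left _ _⟩, ?_⟩
    rintro e ⟨⟨c', hc', rfl⟩, he⟩
    have hc'' := (Pub_ne h).1 hc'
    rcases Sym2.mem_iff.1 he with h1 | h1
    · rw [Pub_pt_inj h1]
    · rw [Pub_pt_inj h1, Pub_inv h hc'', Sym2.eq_swap]

/-- `T c` is the direction of the partner of the cell `c` -/
theorem exists_til {τ : Set (Sym2 (ℤ × ℤ × ℤ))} (h : IsConfig Adj3 (Box m n J) τ) :
    ∃ T, Til J m n T ∧ tau T = τ := by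
  classical
  obtain ⟨h1, h2⟩ := h
  have key : ∀ c : Cell, Bx J m n c → ∃ d, 1 ≤ d ∧ d ≤ 6 ∧ s(pt c, pt (nb c d)) ∈ τ := by
    intro c hc
    obtain ⟨e, ⟨he, hce⟩, -⟩ := h2 (pt c) (Pub_pt_mem.2 hc)
    obtain ⟨x, hx, y, hy, ha, rfl⟩ := h1 e he
    rcases Sym2.mem_iff.1 hce with h3 | h3
    · rw [← h3] at ha he
      obtain ⟨d, hd1, hd6, rfl⟩ := Pub_adj_conv ha
      exact ⟨d, hd1, hd6, he⟩
    · rw [← h3] at ha he
      have ha' : Adj3 (pt c) x := by
        rw [Pub_adj_iff] at ha ⊢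
        omega
      obtain ⟨d, hd1, hd6, rfl⟩ := Pub_adj_conv ha'
      refine ⟨d, hd1, hd6, ?_⟩
      rw [Sym2.eq_swap]
      exact he
  choose! f hf1 hf6 hfe using key
  obtain ⟨T, hT⟩ : ∃ T : Cell → ℕ, T = fun c => if Bx J m n c then f c else 0 := ⟨_, rfl⟩
  have hTf : ∀ c, Bx J m n c → T c = f c := by
    intro c hc
    rw [hT]
    exact if_pos hc
  have huniq : ∀ {x : ℤ × ℤ × ℤ}, x ∈ Box m n J → ∀ {e e' : Sym2 (ℤ × ℤ × ℤ)}, e ∈ τ → x ∈ e → e' ∈ τ →
      x ∈ e' → e = e' := by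
    intro x hx e e' he hxe he' hxe'
    obtain ⟨e0, -, h3⟩ := h2 x hx
    rw [h3 e ⟨he, hxe⟩, h3 e' ⟨he', hxe'⟩]
  have hmem : ∀ c : Cell, Bx J m n c → Bx J m n (nb c (f c)) := by
    intro c hc
    obtain ⟨x, hx, y, hy, -, h3⟩ := h1 _ (hfe c hc)
    rcases Sym2.eq_iff.1 h3 with ⟨h4, h5⟩ | ⟨h4, h5⟩
    · rw [← h5] at hy
      exact Pub_pt_mem.1 hy
    · rw [← h5] at hx
      exact Pub_pt_mem.1 hx
  refine ⟨T, ⟨?_, ?_, ?_, ?_⟩, ?_⟩
  · intro c hc
    rw [hT]
    exact if_neg hc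
  · intro c hc
    rw [hTf c hc]
    exact ⟨hf1 c hc, hf6 c hc⟩
  · intro c hc
    rw [hTf c hc]
    exact hmem c hc
  · intro c hc
    have hc' := hmem c hc
    rw [hTf c hc, hTf _ hc']
    have h3 := huniq (Pub_pt_mem.2 hc') (hfe c hc) (Sym2.mem_mk_right _ _) (hfe _ hc')
      (Sym2.mem_mk_left _ _)
    have hne : nb c (f c) ≠ c := Pub_nb_ne c (hf1 c hc) (hf6 c hc)
    rcases Sym2.eq_iff.1 h3 with ⟨h4, h5⟩ | ⟨h4, h5⟩
    · exact absurd (Pub_pt_inj h4).symm hne
    · have h6 := Pub_pt_inj h4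
      have h7 : nb (nb c (f c)) (f (nb c (f c))) = nb (nb c (f c)) (opp (f c)) := by
        rw [← h6, nb_opp c (hf1 c hc) (hf6 c hc)]
      obtain ⟨h8, h9, -⟩ := opp_rng (hf1 c hc) (hf6 c hc)
      exact Pub_nb_inj (hf1 _ hc') (hf6 _ hc') h8 h9 h7
  · ext e
    constructor
    · rintro ⟨c, hc, rfl⟩
      have hc' : Bx J m n c := by
        by_contra h3
        apply hc
        rw [hT]
        exact if_neg h3
      rw [hTf c hc']
      exact hfe c hc'
    · intro he
      obtain ⟨x, hx, y, hy, -, rfl⟩ := h1 e he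
      obtain ⟨c, rfl⟩ := Pub_exists_pt x
      have hc := Pub_pt_mem.1 hx
      refine ⟨c, ?_, ?_⟩
      · have := hf1 c hc
        rw [hTf c hc]
        omega
      · rw [hTf c hc]
        exact huniq hx he (Sym2.mem_mk_left _ _) (hfe c hc) (Sym2.mem_mk_left _ _)

/-- tilings which differ on an alternating cycle -/
private theorem Pub_cycle (h : Til J m n T) (h' : Til J m n T') {k : ℕ} (hk3 : 3 ≤ k) (hk : Even k)
    {x : ℕ → Cell} (hp : ∀ i, x (i + k) = x i) (hd : ∀ i < k, ∀ i' < k, x i = x i' → i = i')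
    (h2 : ∀ i, x (i + 2) ≠ x i) (hb : ∀ i, Bx J m n (x i))
    (he : ∀ i, Even i → x (i + 1) = nb (x i) (T (x i)))
    (ho : ∀ i, ¬ Even i → x (i + 1) = nb (x i) (T' (x i)))
    (hoff : ∀ y, (∀ i, y ≠ x i) → T' y = T y) :
    IsCycleIn Adj3 (Box m n J) k (fun i => pt (x i)) ∧ Alternating (tau T) (fun i => pt (x i)) ∧
      tau T' = symmDiff (tau T) (cycleEdges (fun i => pt (x i))) := by
  -- the predecessor
  have pred : ∀ i, ∃ j, x (j + 1) = x i ∧ x j ≠ x (i + 1) ∧ (Even j ↔ ¬ Even i) := by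
    intro i
    refine ⟨i + (k - 1), ?_, ?_, ?_⟩
    · rw [show i + (k - 1) + 1 = i + k by omega, hp]
    · intro h3
      have h4 := h2 (i + (k - 1))
      rw [show i + (k - 1) + 2 = (i + 1) + k by omega, hp] at h4
      exact h4 h3.symm
    · obtain ⟨r, hr⟩ := hk
      rw [Nat.even_iff, Nat.even_iff]
      omega
  -- the partner in `T'` of `x i` for even `i`
  have he' : ∀ i, Even i → ∃ j, ¬ Even j ∧ x (j + 1) = x i ∧ x j = nb (x i) (T' (x i)) ∧ x j ≠ x (i + 1) := by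
    intro i hi
    obtain ⟨j, hj1, hj2, hj3⟩ := pred i
    have hj : ¬ Even j := fun h3 => hj3.1 h3 hi
    refine ⟨j, hj, hj1, ?_, hj2⟩
    have h3 := ho j hj
    have h4 := Pub_inv h' (hb j)
    rw [← h3, hj1] at h4
    exact h4.symm
  have ho' : ∀ i, ¬ Even i → ∃ j, Even j ∧ x (j + 1) = x i ∧ x j = nb (x i) (T (x i)) ∧ x j ≠ x (i + 1) := by
    intro i hi
    obtain ⟨j, hj1, hj2, hj3⟩ := pred i
    have hj : Even j := hj3.2 hi
    refine ⟨j, hj, hj1, ?_, hj2⟩
    have h3 := he j hj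
    have h4 := Pub_inv h (hb j)
    rw [← h3, hj1] at h4
    exact h4.symm
  have hmT : ∀ i, s(pt (x i), pt (x (i + 1))) ∈ tau T ↔ Even i := by
    intro i
    constructor
    · intro h3
      by_contra hi
      obtain ⟨j, -, -, hj2, hj3⟩ := ho' i hi
      exact hj3 (hj2.trans ((Pub_mem_tau h).1 h3).2.symm)
    · intro hi
      exact (Pub_mem_tau h).2 ⟨hb i, he i hi⟩
  have hmT' : ∀ i, ¬ Even i → s(pt (x i), pt (x (i + 1))) ∈ tau T' := by
    intro i hi
    exact (Pub_mem_tau h').2 ⟨hb i, ho i hi⟩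
  refine ⟨⟨hk3, fun i => ?_, fun i hi i' hi' h3 => hd i hi i' hi' (Pub_pt_inj h3),
    fun i => Pub_pt_mem.2 (hb i), fun i => ?_⟩, fun i => ?_, ?_⟩
  · show pt (x (i + k)) = pt (x i)
    rw [hp]
  · show Adj3 (pt (x i)) (pt (x (i + 1)))
    by_cases hi : Even i
    · rw [he i hi]
      exact Pub_adj _ (h.rng _ (hb i)).1 (h.rng _ (hb i)).2
    · rw [ho i hi]
      exact Pub_adj _ (h'.rng _ (hb i)).1 (h'.rng _ (hb i)).2
  · show s(pt (x i), pt (x (i + 1))) ∈ tau T ↔ ¬ (s(pt (x (i + 1)), pt (x (i + 1 + 1))) ∈ tau T)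
    rw [hmT, hmT, Nat.even_add_one, not_not]
  · ext e
    rw [Set.mem_symmDiff]
    constructor
    · rintro ⟨c, hc, rfl⟩
      have hc' := (Pub_ne h').1 hc
      by_cases hx : ∃ i, c = x i
      · right
        obtain ⟨i, rfl⟩ := hx
        by_cases hi : Even i
        · obtain ⟨j, hj, hj1, hj2, hj3⟩ := he' i hi
          refine ⟨⟨j, ?_⟩, ?_⟩
          · show s(pt (x i), pt (nb (x i) (T' (x i)))) = s(pt (x j), pt (x (j + 1)))
            rw [← hj2, hj1, Sym2.eq_swap]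
          · intro h3
            rw [← hj2] at h3
            have h4 := ((Pub_mem_tau h).1 h3).2
            exact hj3 (h4.trans (he i hi).symm)
        · refine ⟨⟨i, ?_⟩, ?_⟩
          · show s(pt (x i), pt (nb (x i) (T' (x i)))) = s(pt (x i), pt (x (i + 1)))
            rw [← ho i hi]
          · rw [← ho i hi, hmT]
            exact hi
      · left
        push Not at hx
        have h3 := hoff c hx
        refine ⟨⟨c, by rw [← h3]; exact hc, by rw [h3]⟩, ?_⟩
        rintro ⟨i, hi⟩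
        have hi' : s(pt c, pt (nb c (T' c))) = s(pt (x i), pt (x (i + 1))) := hi
        rcases Sym2.eq_iff.1 hi' with ⟨h4, -⟩ | ⟨h4, -⟩
        · exact hx i (Pub_pt_inj h4)
        · exact hx (i + 1) (Pub_pt_inj h4)
    · rintro (⟨⟨c, hc, rfl⟩, h3⟩ | ⟨⟨i, hi⟩, h3⟩)
      · have hc' := (Pub_ne h).1 hc
        have hx : ∀ i, c ≠ x i := by
          rintro i rfl
          apply h3
          by_cases hi : Even i
          · refine ⟨i, ?_⟩
            show s(pt (x i), pt (nb (x i) (T (x i)))) = s(pt (x i), pt (x (i + 1)))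
            rw [← he i hi]
          · obtain ⟨j, hj, hj1, hj2, -⟩ := ho' i hi
            refine ⟨j, ?_⟩
            show s(pt (x i), pt (nb (x i) (T (x i)))) = s(pt (x j), pt (x (j + 1)))
            rw [← hj2, hj1, Sym2.eq_swap]
        have h4 := hoff c hx
        exact ⟨c, by rw [h4]; exact hc, by rw [h4]⟩
      · have hi' : e = s(pt (x i), pt (x (i + 1))) := hi
        rw [hi'] at h3 ⊢
        rw [hmT] at h3
        exact hmT' i h3

/-- the cycle of four cells -/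
private def Pub_c4 (a b c d : Cell) (i : ℕ) : Cell :=
  if i % 4 = 0 then a else if i % 4 = 1 then b else if i % 4 = 2 then c else d

/-- the cycle `c, c+d, c+d+e, c+e` -/
theorem swap_flip (h : Til J m n T) {c : Cell} {d e : ℕ} (hf : CanFlip T c d e) :
    IsSwap Adj3 (Box m n J) 4 (tau T) (tau (flip T c d e)) := by
  obtain ⟨hp, hc, hce⟩ := hf
  have hp' := hp
  obtain ⟨hd1, hd6, he1, he6, -⟩ := hp
  obtain ⟨n1, n2, n3, n4, n5, n6⟩ := flip_distinct c hp'
  have h' := til_flip h (c := c) (d := d) (e := e) ⟨hp', hc, hce⟩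
  have hb0 : Bx J m n c := (Pub_ne h).1 (by omega)
  have hb3 : Bx J m n (nb c e) := (Pub_ne h).1 (by omega)
  have hb1 : Bx J m n (nb c d) := by
    have := h.mem c hb0
    rwa [hc] at this
  have hb2 : Bx J m n (nb (nb c d) e) := by
    have := h.mem _ hb3
    rwa [hce, nb_comm] at this
  have ht2 : T (nb (nb c d) e) = opp d := by
    have := h.inv _ hb3
    rwa [hce, nb_comm] at this
  have f1 : flip T c d e (nb c d) = e := by
    unfold flip
    rw [if_neg n1, if_pos rfl]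
  have f3 : flip T c d e (nb c e) = opp e := by
    unfold flip
    rw [if_neg n2, if_neg (Ne.symm n4), if_pos rfl]
  suffices key : IsCycleIn Adj3 (Box m n J) 4
        (fun i => pt (Pub_c4 c (nb c d) (nb (nb c d) e) (nb c e) i)) ∧
      Alternating (tau T) (fun i => pt (Pub_c4 c (nb c d) (nb (nb c d) e) (nb c e) i)) ∧
      tau (flip T c d e) = symmDiff (tau T)
        (cycleEdges (fun i => pt (Pub_c4 c (nb c d) (nb (nb c d) e) (nb c e) i))) from ⟨_, key⟩
  refine Pub_cycle h h' (k := 4) (by norm_num) (by decide) ?_ ?_ ?_ ?_ ?_ ?_ ?_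
  · intro i
    unfold Pub_c4
    rw [show (i + 4) % 4 = i % 4 by omega]
  · intro i hi j hj hij
    interval_cases i <;> interval_cases j <;> simp [Pub_c4] at hij ⊢
    all_goals first
      | exact absurd hij n1
      | exact absurd hij.symm n1
      | exact absurd hij n2
      | exact absurd hij.symm n2
      | exact absurd hij n3
      | exact absurd hij.symm n3
      | exact absurd hij n4
      | exact absurd hij.symm n4
      | exact absurd hij n5
      | exact absurd hij.symm n5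
      | exact absurd hij n6
      | exact absurd hij.symm n6
  · intro i
    have hi : i % 4 = 0 ∨ i % 4 = 1 ∨ i % 4 = 2 ∨ i % 4 = 3 := by omega
    unfold Pub_c4
    rcases hi with hi | hi | hi | hi
    · rw [show (i + 2) % 4 = 2 by omega, hi]
      exact n3
    · rw [show (i + 2) % 4 = 3 by omega, hi]
      exact Ne.symm n4
    · rw [show (i + 2) % 4 = 0 by omega, hi]
      exact Ne.symm n3
    · rw [show (i + 2) % 4 = 1 by omega, hi]
      exact n4
  · intro i
    unfold Pub_c4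
    split_ifs
    · exact hb0
    · exact hb1
    · exact hb2
    · exact hb3
  · intro i hi
    rw [Nat.even_iff] at hi
    have hi' : i % 4 = 0 ∨ i % 4 = 2 := by omega
    unfold Pub_c4
    rcases hi' with hi' | hi'
    · rw [show (i + 1) % 4 = 1 by omega, hi']
      show nb c d = nb c (T c)
      rw [hc]
    · rw [show (i + 1) % 4 = 3 by omega, hi']
      show nb c e = nb (nb (nb c d) e) (T (nb (nb c d) e))
      rw [ht2, nb_comm c d e, nb_opp _ hd1 hd6]
  · intro i hi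
    rw [Nat.even_iff] at hi
    have hi' : i % 4 = 1 ∨ i % 4 = 3 := by omega
    unfold Pub_c4
    rcases hi' with hi' | hi'
    · rw [show (i + 1) % 4 = 2 by omega, hi']
      show nb (nb c d) e = nb (nb c d) (flip T c d e (nb c d))
      rw [f1]
    · rw [show (i + 1) % 4 = 0 by omega, hi']
      show c = nb (nb c e) (flip T c d e (nb c e))
      rw [f3, nb_opp _ he1 he6]
  · intro y hy
    have y0 : y ≠ c := hy 0
    have y1 : y ≠ nb c d := hy 1
    have y2 : y ≠ nb (nb c d) e := hy 2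
    have y3 : y ≠ nb c e := hy 3
    unfold flip
    rw [if_neg y0, if_neg y1, if_neg y3, if_neg y2]

/-- the cycle of six cells -/
private def Pub_c6 (a b c d e f : Cell) (i : ℕ) : Cell :=
  if i % 6 = 0 then a else if i % 6 = 1 then b else if i % 6 = 2 then c else if i % 6 = 3 then d else
  if i % 6 = 4 then e else f

private theorem Pub_dist6 (o : Cell) {a b : ℕ} (hp : perp a b) (ha : a ≤ 4) (hb : b ≤ 4) :
    nb o a ≠ o ∧ nb (nb o a) b ≠ o ∧ nb (nb (nb o a) b) 5 ≠ o ∧ nb (nb o b) 5 ≠ o ∧ nb o 5 ≠ o ∧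
    nb (nb o a) b ≠ nb o a ∧ nb (nb (nb o a) b) 5 ≠ nb o a ∧ nb (nb o b) 5 ≠ nb o a ∧ nb o 5 ≠ nb o a ∧
    nb (nb (nb o a) b) 5 ≠ nb (nb o a) b ∧ nb (nb o b) 5 ≠ nb (nb o a) b ∧ nb o 5 ≠ nb (nb o a) b ∧
    nb (nb o b) 5 ≠ nb (nb (nb o a) b) 5 ∧ nb o 5 ≠ nb (nb (nb o a) b) 5 ∧
    nb o 5 ≠ nb (nb o b) 5 := by
  obtain ⟨ha1, -, hb1, -, hab⟩ := hp
  obtain ⟨x, y, z⟩ := o
  interval_cases a <;> interval_cases b <;> simp at hab <;> simp [nb, dX, dY, dZ]

private theorem Pub_range (o : Cell) {a b : ℕ} (hp : perp a b) (ha : a ≤ 4) (hb : b ≤ 4) :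
    ∃ u v : ℤ × ℤ × ℤ, |u.1 - v.1| = 1 ∧ |u.2.1 - v.2.1| = 1 ∧ |u.2.2 - v.2.2| = 1 ∧
      ∀ x : ℤ × ℤ × ℤ, (x = pt o ∨ x = pt (nb o a) ∨ x = pt (nb (nb o a) b) ∨
        x = pt (nb (nb (nb o a) b) 5) ∨ x = pt (nb (nb o b) 5) ∨ x = pt (nb o 5)) ↔
        ((x.1 = u.1 ∨ x.1 = v.1) ∧ (x.2.1 = u.2.1 ∨ x.2.1 = v.2.1) ∧
        (x.2.2 = u.2.2 ∨ x.2.2 = v.2.2)) ∧ ¬ (x = u ∨ x = v) := by
  obtain ⟨ha1, -, hb1, -, hab⟩ := hp
  obtain ⟨p, q, r⟩ := o
  refine ⟨pt (nb (p, q, r) b), pt (nb (nb (p, q, r) a) 5), ?_⟩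
  interval_cases a <;> interval_cases b <;> simp at hab
  all_goals
    simp only [nb, pt, dX, dY, dZ]
    norm_num
    intro x y z
    omega

/-- the cycle `o, o+a, o+a+b, o+a+b+U, o+b+U, o+U`; the antipodal pair `o+b, o+a+U` -/
theorem trit_trit (h : Til J m n T) {o : Cell} {a b : ℕ} (hf : CanTrit T o a b) :
    IsTrit (Box m n J) (tau T) (tau (trit T o a b)) := by
  have h' := til_trit h hf
  obtain ⟨hp, ha4, hb4, t0, t5, t2⟩ := hf
  obtain ⟨n1, n2, n3, n4, n5, n6, n7, n8, n9, n10, n11, n12, n13, n14, n15⟩ := Pub_dist6 o hp ha4 hb4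
  obtain ⟨u, v, hu1, hu2, hu3, huv⟩ := Pub_range o hp ha4 hb4
  obtain ⟨ha1, ha6, hb1, hb6, -⟩ := hp
  have hb0 : Bx J m n o := (Pub_ne h).1 (by omega)
  have hb5 : Bx J m n (nb o 5) := (Pub_ne h).1 (by omega)
  have hb2 : Bx J m n (nb (nb o a) b) := (Pub_ne h).1 (by omega)
  have hb1' : Bx J m n (nb o a) := by
    have := h.mem o hb0
    rwa [t0] at this
  have hb3 : Bx J m n (nb (nb (nb o a) b) 5) := by
    have := h.mem _ hb2
    rwa [t2] at this
  have hb4' : Bx J m n (nb (nb o b) 5) := by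
    have := h.mem _ hb5
    rwa [t5, nb_comm] at this
  have t4 : T (nb (nb o b) 5) = opp b := by
    have := h.inv _ hb5
    rwa [t5, nb_comm] at this
  have f1 : trit T o a b (nb o a) = b := by
    unfold trit
    rw [if_neg n1, if_neg (Ne.symm n9), if_pos rfl]
  have f3 : trit T o a b (nb (nb (nb o a) b) 5) = opp a := by
    unfold trit
    rw [if_neg n3, if_neg (Ne.symm n14), if_neg n7, if_neg n10, if_neg (Ne.symm n13), if_pos rfl]
  have f5 : trit T o a b (nb o 5) = 6 := by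
    unfold trit
    rw [if_neg n5, if_pos rfl]
  have key : IsCycleIn Adj3 (Box m n J) 6 (fun i => pt (Pub_c6 o (nb o a) (nb (nb o a) b)
        (nb (nb (nb o a) b) 5) (nb (nb o b) 5) (nb o 5) i)) ∧
      Alternating (tau T) (fun i => pt (Pub_c6 o (nb o a) (nb (nb o a) b)
        (nb (nb (nb o a) b) 5) (nb (nb o b) 5) (nb o 5) i)) ∧
      tau (trit T o a b) = symmDiff (tau T) (cycleEdges (fun i => pt (Pub_c6 o (nb o a) (nb (nb o a) b)
        (nb (nb (nb o a) b) 5) (nb (nb o b) 5) (nb o 5) i))) := by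
    refine Pub_cycle h h' (k := 6) (by norm_num) (by decide) ?_ ?_ ?_ ?_ ?_ ?_ ?_
    · intro i
      unfold Pub_c6
      rw [show (i + 6) % 6 = i % 6 by omega]
    · intro i hi j hj hij
      interval_cases i <;> interval_cases j <;> simp [Pub_c6] at hij ⊢
      all_goals first
        | exact absurd hij n1
        | exact absurd hij.symm n1
        | exact absurd hij n2
        | exact absurd hij.symm n2
        | exact absurd hij n3
        | exact absurd hij.symm n3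
        | exact absurd hij n4
        | exact absurd hij.symm n4
        | exact absurd hij n5
        | exact absurd hij.symm n5
        | exact absurd hij n6
        | exact absurd hij.symm n6
        | exact absurd hij n7
        | exact absurd hij.symm n7
        | exact absurd hij n8
        | exact absurd hij.symm n8
        | exact absurd hij n9
        | exact absurd hij.symm n9
        | exact absurd hij n10
        | exact absurd hij.symm n10
        | exact absurd hij n11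
        | exact absurd hij.symm n11
        | exact absurd hij n12
        | exact absurd hij.symm n12
        | exact absurd hij n13
        | exact absurd hij.symm n13
        | exact absurd hij n14
        | exact absurd hij.symm n14
        | exact absurd hij n15
        | exact absurd hij.symm n15
    · intro i
      have hi : i % 6 = 0 ∨ i % 6 = 1 ∨ i % 6 = 2 ∨ i % 6 = 3 ∨ i % 6 = 4 ∨ i % 6 = 5 := by omega
      unfold Pub_c6
      rcases hi with hi | hi | hi | hi | hi | hi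
      · rw [show (i + 2) % 6 = 2 by omega, hi]
        exact n2
      · rw [show (i + 2) % 6 = 3 by omega, hi]
        exact n7
      · rw [show (i + 2) % 6 = 4 by omega, hi]
        exact n11
      · rw [show (i + 2) % 6 = 5 by omega, hi]
        exact n14
      · rw [show (i + 2) % 6 = 0 by omega, hi]
        exact Ne.symm n4
      · rw [show (i + 2) % 6 = 1 by omega, hi]
        exact Ne.symm n9
    · intro i
      unfold Pub_c6
      split_ifs
      · exact hb0
      · exact hb1'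
      · exact hb2
      · exact hb3
      · exact hb4'
      · exact hb5
    · intro i hi
      rw [Nat.even_iff] at hi
      have hi' : i % 6 = 0 ∨ i % 6 = 2 ∨ i % 6 = 4 := by omega
      unfold Pub_c6
      rcases hi' with hi' | hi' | hi'
      · rw [show (i + 1) % 6 = 1 by omega, hi']
        show nb o a = nb o (T o)
        rw [t0]
      · rw [show (i + 1) % 6 = 3 by omega, hi']
        show nb (nb (nb o a) b) 5 = nb (nb (nb o a) b) (T (nb (nb o a) b))
        rw [t2]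
      · rw [show (i + 1) % 6 = 5 by omega, hi']
        show nb o 5 = nb (nb (nb o b) 5) (T (nb (nb o b) 5))
        rw [t4, nb_comm o b 5, nb_opp _ hb1 hb6]
    · intro i hi
      rw [Nat.even_iff] at hi
      have hi' : i % 6 = 1 ∨ i % 6 = 3 ∨ i % 6 = 5 := by omega
      unfold Pub_c6
      rcases hi' with hi' | hi' | hi'
      · rw [show (i + 1) % 6 = 2 by omega, hi']
        show nb (nb o a) b = nb (nb o a) (trit T o a b (nb o a))
        rw [f1]
      · rw [show (i + 1) % 6 = 4 by omega, hi']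
        show nb (nb o b) 5 = nb (nb (nb (nb o a) b) 5) (trit T o a b (nb (nb (nb o a) b) 5))
        rw [f3, nb_comm o a b, nb_comm (nb o b) a 5, nb_opp _ ha1 ha6]
      · rw [show (i + 1) % 6 = 0 by omega, hi']
        show o = nb (nb o 5) (trit T o a b (nb o 5))
        rw [f5]
        exact (nb_opp o (d := 5) (by norm_num) (by norm_num)).symm
    · intro y hy
      have y0 : y ≠ o := hy 0
      have y1 : y ≠ nb o a := hy 1
      have y2 : y ≠ nb (nb o a) b := hy 2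
      have y3 : y ≠ nb (nb (nb o a) b) 5 := hy 3
      have y4 : y ≠ nb (nb o b) 5 := hy 4
      have y5 : y ≠ nb o 5 := hy 5
      unfold trit
      rw [if_neg y0, if_neg y5, if_neg y1, if_neg y2, if_neg y4, if_neg y3]
  obtain ⟨hC, hA, hS⟩ := key
  · refine ⟨_, hC, hA, hS, u, v, hu1, hu2, hu3, ?_⟩
    ext x
    show (∃ i, pt (Pub_c6 o (nb o a) (nb (nb o a) b) (nb (nb (nb o a) b) 5) (nb (nb o b) 5) (nb o 5) i) = x)
      ↔ ((x.1 = u.1 ∨ x.1 = v.1) ∧ (x.2.1 = u.2.1 ∨ x.2.1 = v.2.1) ∧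
        (x.2.2 = u.2.2 ∨ x.2.2 = v.2.2)) ∧ ¬ (x = u ∨ x = v)
    rw [← huv x]
    constructor
    · rintro ⟨i, rfl⟩
      unfold Pub_c6
      split_ifs
      · exact Or.inl rfl
      · exact Or.inr (Or.inl rfl)
      · exact Or.inr (Or.inr (Or.inl rfl))
      · exact Or.inr (Or.inr (Or.inr (Or.inl rfl)))
      · exact Or.inr (Or.inr (Or.inr (Or.inr (Or.inl rfl))))
      · exact Or.inr (Or.inr (Or.inr (Or.inr (Or.inr rfl))))
    · rintro (rfl | rfl | rfl | rfl | rfl | rfl)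
      · exact ⟨0, rfl⟩
      · exact ⟨1, rfl⟩
      · exact ⟨2, rfl⟩
      · exact ⟨3, rfl⟩
      · exact ⟨4, rfl⟩
      · exact ⟨5, rfl⟩

theorem joined_of_conn (h : Til J m n T) (hC : Conn T T') : JoinedFT (Box m n J) (tau T) (tau T') := by
  induction hC with
  | refl => exact Relation.ReflTransGen.refl
  | tail h1 h2 ih =>
    refine Relation.ReflTransGen.tail ih ?_
    have h3 := til_conn h h1
    refine ⟨config_tau h3, config_tau (til_move h3 h2), ?_⟩
    cases h2 with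
    | flip c d e hf => exact Or.inl (swap_flip h3 hf)
    | trit o a b hf => exact Or.inr (trit_trit h3 hf)

theorem ftConn_of (H : ∀ T T' : Cell → ℕ, Til J m n T → Til J m n T' → Conn T T') :
    FTConn (Box m n J) := by
  intro τ τ' hτ hτ'
  obtain ⟨T, hT, rfl⟩ := exists_til hτ
  obtain ⟨T', hT', rfl⟩ := exists_til hτ'
  exact joined_of_conn hT (H T T' hT hT')

end Pool.Agent.FT3D
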