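import Pool.Agent.FT3D.PubDefs
import Pool.Agent.Dimer3D.Transfer

/-!
# Permutations of the axes
-/

namespace Pool.Agent.FT3D

open Pool.Agent.Dimer3D

/-- the vertices of the cube with the antipodal pair `a`, `b` -/
private def Pub2_cube (a b : ℤ × ℤ × ℤ) : Set (ℤ × ℤ × ℤ) :=
  {x | (x.1 = a.1 ∨ x.1 = b.1) ∧ (x.2.1 = a.2.1 ∨ x.2.1 = b.2.1) ∧ (x.2.2 = a.2.2 ∨ x.2.2 = b.2.2)}

/-- `a`, `b` are antipodal vertices of a unit cube -/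
private def Pub2_anti (a b : ℤ × ℤ × ℤ) : Prop :=
  |a.1 - b.1| = 1 ∧ |a.2.1 - b.2.1| = 1 ∧ |a.2.2 - b.2.2| = 1

private theorem Pub2_trit_image {A B : Set (ℤ × ℤ × ℤ)} {f : ℤ × ℤ × ℤ → ℤ × ℤ × ℤ}
    (hf : Function.Injective f) (hadj : ∀ x y, Adj3 (f x) (f y) ↔ Adj3 x y) (hB : f '' A = B)
    (hanti : ∀ a b, Pub2_anti a b → Pub2_anti (f a) (f b))
    (hcube : ∀ a b, f '' Pub2_cube a b = Pub2_cube (f a) (f b))
    {τ τ' : Set (Sym2 (ℤ × ℤ × ℤ))} (h : IsTrit A τ τ') :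
    IsTrit B (Sym2.map f '' τ) (Sym2.map f '' τ') := by
  obtain ⟨c, hc, halt, rfl, a, b, h1, h2, h3, h4⟩ := h
  have hmap : ∀ x y, s(f x, f y) ∈ Sym2.map f '' τ ↔ s(x, y) ∈ τ := by
    intro x y
    rw [← Sym2.map_mk, (Sym2.map.injective hf).mem_set_image]
  obtain ⟨h5, h6, h7⟩ := hanti a b ⟨h1, h2, h3⟩
  refine ⟨fun i => f (c i), ⟨hc.three_le, ?_, ?_, ?_, ?_⟩, ?_, ?_, f a, f b, h5, h6, h7, ?_⟩
  · intro i; simp only [hc.periodic i]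
  · intro i hi i' hi' h; exact hc.distinct i hi i' hi' (hf h)
  · intro i; rw [← hB]; exact ⟨c i, hc.mem i, rfl⟩
  · intro i; exact (hadj _ _).2 (hc.adj i)
  · intro i
    simp only [hmap]
    exact halt i
  · rw [Set.image_symmDiff (Sym2.map.injective hf)]
    congr 1
    ext e
    constructor
    · rintro ⟨e0, ⟨i, rfl⟩, rfl⟩
      exact ⟨i, by rw [Sym2.map_mk]⟩
    · rintro ⟨i, rfl⟩
      exact ⟨s(c i, c (i + 1)), ⟨i, rfl⟩, by rw [Sym2.map_mk]⟩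
  · show Set.range (f ∘ c) = Pub2_cube (f a) (f b) \ {f a, f b}
    rw [Set.range_comp, h4, ← hcube, ← Set.image_pair, ← Set.image_sdiff hf]
    rfl

private theorem Pub2_joined {A B : Set (ℤ × ℤ × ℤ)} {f : ℤ × ℤ × ℤ → ℤ × ℤ × ℤ}
    (hf : Function.Injective f) (hadj : ∀ x y, Adj3 (f x) (f y) ↔ Adj3 x y) (hB : f '' A = B)
    (hanti : ∀ a b, Pub2_anti a b → Pub2_anti (f a) (f b))
    (hcube : ∀ a b, f '' Pub2_cube a b = Pub2_cube (f a) (f b))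
    {τ τ' : Set (Sym2 (ℤ × ℤ × ℤ))} (h : JoinedFT A τ τ') :
    JoinedFT B (Sym2.map f '' τ) (Sym2.map f '' τ') := by
  unfold JoinedFT at h ⊢
  induction h with
  | refl => exact Relation.ReflTransGen.refl
  | tail _ hbc ih =>
    obtain ⟨h4, h5, h6⟩ := hbc
    refine ih.tail ⟨config_image hf hadj hB h4, config_image hf hadj hB h5, ?_⟩
    rcases h6 with h6 | h6
    · exact Or.inl (swap_image hf hadj hB h6)
    · exact Or.inr (Pub2_trit_image hf hadj hB hanti hcube h6)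

private theorem Pub2_main {A B : Set (ℤ × ℤ × ℤ)} {f : ℤ × ℤ × ℤ → ℤ × ℤ × ℤ}
    (hf : Function.Injective f) (hadj : ∀ x y, Adj3 (f x) (f y) ↔ Adj3 x y) (hB : f '' A = B)
    (hanti : ∀ a b, Pub2_anti a b → Pub2_anti (f a) (f b))
    (hcube : ∀ a b, f '' Pub2_cube a b = Pub2_cube (f a) (f b)) (h : FTConn A) : FTConn B := by
  intro τ τ' h1 h2
  obtain ⟨c1, e1⟩ := config_pullback hf hadj hB h1
  obtain ⟨c2, e2⟩ := config_pullback hf hadj hB h2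
  rw [← e1, ← e2]
  exact Pub2_joined hf hadj hB hanti hcube (h _ _ c1 c2)

/-- exchange of the first two axes -/
theorem ftConn_swap {j m n : ℕ} (h : FTConn (Box m j n)) : FTConn (Box j m n) := by
  refine Pub2_main (f := fun x => (x.2.1, x.1, x.2.2)) ?_ ?_ ?_ ?_ ?_ h
  · rintro ⟨x, y, z⟩ ⟨x', y', z'⟩ h1
    simp only [Prod.mk.injEq] at h1 ⊢
    exact ⟨h1.2.1, h1.1, h1.2.2⟩
  · rintro ⟨x, y, z⟩ ⟨x', y', z'⟩
    simp only [Adj3]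
    tauto
  · ext ⟨x, y, z⟩
    constructor
    · rintro ⟨⟨x', y', z'⟩, ⟨h1, h2, h3⟩, h4⟩
      rw [← h4]
      exact ⟨h2, h1, h3⟩
    · rintro ⟨h1, h2, h3⟩
      exact ⟨(y, x, z), ⟨h2, h1, h3⟩, rfl⟩
  · rintro a b ⟨h1, h2, h3⟩
    exact ⟨h2, h1, h3⟩
  · intro a b
    ext ⟨x, y, z⟩
    constructor
    · rintro ⟨⟨x', y', z'⟩, ⟨h1, h2, h3⟩, h4⟩
      rw [← h4]
      exact ⟨h2, h1, h3⟩
    · rintro ⟨h1, h2, h3⟩
      exact ⟨(y, x, z), ⟨h2, h1, h3⟩, rfl⟩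

/-- cyclic permutation of the axes -/
theorem ftConn_rot {j m n : ℕ} (h : FTConn (Box m n j)) : FTConn (Box j m n) := by
  refine Pub2_main (f := fun x => (x.2.2, x.1, x.2.1)) ?_ ?_ ?_ ?_ ?_ h
  · rintro ⟨x, y, z⟩ ⟨x', y', z'⟩ h1
    simp only [Prod.mk.injEq] at h1 ⊢
    exact ⟨h1.2.1, h1.2.2, h1.1⟩
  · rintro ⟨x, y, z⟩ ⟨x', y', z'⟩
    simp only [Adj3]
    tauto
  · ext ⟨x, y, z⟩
    constructor
    · rintro ⟨⟨x', y', z'⟩, ⟨h1, h2, h3⟩, h4⟩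
      rw [← h4]
      exact ⟨h3, h1, h2⟩
    · rintro ⟨h1, h2, h3⟩
      exact ⟨(y, z, x), ⟨h2, h3, h1⟩, rfl⟩
  · rintro a b ⟨h1, h2, h3⟩
    exact ⟨h3, h1, h2⟩
  · intro a b
    ext ⟨x, y, z⟩
    constructor
    · rintro ⟨⟨x', y', z'⟩, ⟨h1, h2, h3⟩, h4⟩
      rw [← h4]
      exact ⟨h3, h1, h2⟩
    · rintro ⟨h1, h2, h3⟩
      exact ⟨(y, z, x), ⟨h2, h3, h1⟩, rfl⟩

end Pool.Agent.FT3D
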