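import Pool.Agent.FT3D.SoundF

/-!
# Soundness of the checker
-/

namespace Pool.Agent.FT3D

variable {gi gj : ℤ} {P : Par} {m n : ℤ} {T : Cell → ℕ} {K : List (ℕ × ℕ)} {s : ℤ}

theorem chk_sound (hJ : P.J < 8) (hO : P.ori = 0 ∨ P.ori = 1) (hS : Sit P m n T s gi gj) :
    ∀ (t : Tr) (K : List (ℕ × ℕ)), Agree gi gj T K → chk P K t = true → Concl P m n T s gi gj := by
  intro t
  induction t with
  | no =>
    intro K _ h
    exact absurd h (by simp [chk])
  | con u p =>
    intro K hA h
    exact (chkCon_sound ⟨hJ, hO, hS, hA⟩ h).elim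
  | red ms ce =>
    intro K hA h
    exact chkRed_sound ⟨hJ, hO, hS, hA⟩ h
  | br c t1 t2 t3 t4 t5 t6 i1 i2 i3 i4 i5 i6 =>
    intro K hA h
    simp only [chk, Bool.and_eq_true, Bool.or_eq_true] at h
    obtain ⟨⟨⟨⟨⟨⟨hok, h1⟩, h2⟩, h3⟩, h4⟩, h5⟩, h6⟩ := h
    simp only [okB, Bool.and_eq_true, Nat.beq_eq, Nat.ble_eq, Nat.blt_eq] at hok
    obtain ⟨⟨⟨⟨⟨⟨k1, k2⟩, k3⟩, k4⟩, k5⟩, k6⟩, k7⟩ := hok
    have hcol := colK_sound hJ hS.til hA hS.hi hS.hj k1
    have hb : Bx P.J m n (cellOf gi gj c) := by
      rw [cellOf_code]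
      exact ⟨hcol.1, hcol.2.1, hcol.2.2.1, hcol.2.2.2, by positivity, by dsimp only; exact_mod_cast k7⟩
    obtain ⟨r1, r6⟩ := hS.til.rng _ hb
    have hmem := hS.til.mem _ hb
    have hinv := hS.til.inv _ hb
    have hz := hb.2.2.2.2
    rw [cellOf_code] at hz
    dsimp only at hz
    -- the branch of the right direction
    have main : ∀ d, 1 ≤ d → d ≤ 6 → T (cellOf gi gj c) = d →
        imp P K c d = false ∧ Agree gi gj T ((c, d) :: (nbc c d, opp d) :: K) := by
      intro d d1 d6 hd
      rw [hd] at hmem hinv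
      have hm5 : d = 5 → c % 8 + 1 < P.J := by
        rintro rfl
        have := hmem.2.2.2.2.2
        simp only [nb, dZ, cellOf] at this
        norm_num at this
        omega
      have hm6 : d = 6 → 1 ≤ c % 8 := by
        rintro rfl
        have := hmem.2.2.2.2.1
        simp only [nb, dZ, cellOf] at this
        norm_num at this
        omega
      have hn : cellOf gi gj (nbc c d) = nb (cellOf gi gj c) d := by
        apply cellOf_nbc c d ⟨d1, d6⟩ <;> omega
      rw [← hn] at hinv
      constructor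
      · by_contra himp
        rw [Bool.not_eq_false] at himp
        simp only [imp, Bool.or_eq_true, Bool.and_eq_true, Nat.beq_eq, Nat.ble_eq,
          Bool.not_eq_true'] at himp
        rcases himp with (⟨q1, q2⟩ | ⟨q1, q2⟩) | ⟨q1, q2⟩
        · have := hm5 q1
          omega
        · have := hm6 q1
          omega
        · have e1 : get K (nbc c d) ≠ 0 := by
            intro h0
            rw [h0] at q1
            exact absurd q1 (by decide)
          have e2 := hA _ e1
          rw [hinv, ← opc_eq ⟨d1, d6⟩] at e2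
          rw [← e2] at q2
          have : Nat.beq (opc d) (opc d) = true := by rw [Nat.beq_eq]
          rw [this] at q2
          exact absurd q2 (by decide)
      · intro c' hc'
        simp only [get_cons] at hc' ⊢
        by_cases e1 : c = c'
        · rw [if_pos e1, ← e1, hd]
        rw [if_neg e1] at hc' ⊢
        by_cases e2 : nbc c d = c'
        · rw [if_pos e2, ← e2, hinv]
        rw [if_neg e2] at hc' ⊢
        exact hA c' hc'
    have hd : T (cellOf gi gj c) = 1 ∨ T (cellOf gi gj c) = 2 ∨ T (cellOf gi gj c) = 3 ∨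
        T (cellOf gi gj c) = 4 ∨ T (cellOf gi gj c) = 5 ∨ T (cellOf gi gj c) = 6 := by omega
    rcases hd with hd | hd | hd | hd | hd | hd
    · obtain ⟨m1, m2⟩ := main 1 (by norm_num) (by norm_num) hd
      rcases h1 with h1 | h1
      · rw [m1] at h1; exact absurd h1 (by decide)
      · exact i1 _ m2 h1
    · obtain ⟨m1, m2⟩ := main 2 (by norm_num) (by norm_num) hd
      rcases h2 with h1 | h1
      · rw [m1] at h1; exact absurd h1 (by decide)
      · exact i2 _ m2 h1
    · obtain ⟨m1, m2⟩ := main 3 (by norm_num) (by norm_num) hd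
      rcases h3 with h1 | h1
      · rw [m1] at h1; exact absurd h1 (by decide)
      · exact i3 _ m2 h1
    · obtain ⟨m1, m2⟩ := main 4 (by norm_num) (by norm_num) hd
      rcases h4 with h1 | h1
      · rw [m1] at h1; exact absurd h1 (by decide)
      · exact i4 _ m2 h1
    · obtain ⟨m1, m2⟩ := main 5 (by norm_num) (by norm_num) hd
      rcases h5 with h1 | h1
      · rw [m1] at h1; exact absurd h1 (by decide)
      · exact i5 _ m2 h1
    · obtain ⟨m1, m2⟩ := main 6 (by norm_num) (by norm_num) hd
      rcases h6 with h1 | h1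
      · rw [m1] at h1; exact absurd h1 (by decide)
      · exact i6 _ m2 h1

/-- soundness of the checker -/
theorem sound (P : Par) (hJ : P.J < 8) (ho : P.ori = 0 ∨ P.ori = 1) (t : Tr) (h : chk P [] t = true)
    {m n : ℤ} {T : Cell → ℕ} {s gi gj : ℤ} (hS : Sit P m n T s gi gj) : Concl P m n T s gi gj :=
  chk_sound hJ ho hS t [] agree_nil h

end Pool.Agent.FT3D
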