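import Pool.Agent.FT3D.Check

/-!
# Three levels: a decision tree (found by a computer search)
-/

namespace Pool.Agent.FT3D

def p5 : Tr :=
  .br 952 (.br 953 (.red [.f 952 1 5] []) (.con 136 [4]) (.con 136 [2]) (.con 136 [4]) (.con 136
  [2]) .no) (.br 953 (.con 119 [3]) (.red [.f 824 1 5] []) (.con 119 [3]) (.con 119 [3]) (.con 119
  [3]) .no) (.br 1080 (.br 1081 (.red [.f 1080 1 5] []) (.con 151 [3]) (.con 136 [1]) (.con 151
  [3]) (.con 136 [1]) .no) .no (.red [.f 952 3 1] [(136, 136, [])]) (.br 1081 (.con 136 [4, 1])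
  (.br 954 (.con 119 [1, 1]) (.con 119 [3]) (.con 120 [1]) (.br 1082 (.con 136 [1]) .no (.br 961
  (.red [.f 953 1 3] [(136, 136, [])]) (.br 962 .no (.red [.f 833 1 5] []) (.con 120 [3]) .no .no
  .no) (.br 962 .no (.con 121 [4]) (.red [.f 961 3 5] []) .no .no .no) .no (.red [.t 1081 2 3]
  [(136, 136, [])]) .no) (.con 135 [1]) .no .no) .no .no) (.con 136 [1]) (.red [.f 1072 3 5] [])
  (.con 136 [1]) .no) (.br 1082 (.con 136 [1]) (.con 136 [4]) (.br 1088 (.br 1089 (.red [.f 1088 1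
  5] []) (.con 153 [2, 4]) (.con 153 [2]) .no .no .no) .no (.br 1089 (.con 136 [3, 1]) (.red [.t
  960 4 1] [(136, 136, [])]) (.red [.f 1088 3 5] []) .no .no .no) .no (.red [.f 1080 5 3, .f 952 3
  1] [(136, 136, [])]) .no) (.con 136 [1]) .no .no) .no) (.br 953 (.br 954 (.con 136 [2]) (.con
  119 [3]) (.br 1082 (.con 151 [3]) .no (.red [.f 954 3 1] [(136, 136, [])]) (.br 1080 (.con 136
  [1]) .no (.br 960 .no (.br 961 (.con 121 [4]) (.red [.f 832 1 5] []) (.con 121 [4]) .no .no .no)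
  (.br 961 (.red [.f 953 1 3] [(136, 136, [])]) (.con 120 [3]) (.red [.f 960 3 5] []) .no .no .no)
  .no (.red [.t 1080 3 2] [(136, 136, [])]) .no) (.con 135 [1]) .no .no) .no .no) (.con 135 [2])
  .no .no) (.con 136 [4, 2]) (.con 136 [2]) (.red [.f 944 3 5] []) (.con 136 [2]) .no) (.br 954
  (.con 136 [2]) (.con 119 [3]) (.br 1082 (.br 1081 (.red [.f 1081 1 5] []) .no (.con 136 [1])
  (.con 151 [3]) .no (.con 136 [1])) .no (.red [.f 954 3 1] [(136, 136, [])]) (.br 1081 (.con 119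
  [1, 1]) .no (.con 119 [1, 1]) (.red [.f 1073 3 5] []) .no (.con 119 [1, 1])) .no (.br 1080 (.con
  136 [1]) .no (.br 960 .no (.br 961 (.con 121 [4]) (.red [.f 832 1 5] []) (.con 121 [4]) .no .no
  .no) (.br 961 (.red [.t 961 1 4] [(136, 136, [])]) (.con 120 [3]) (.red [.f 960 3 5] []) .no .no
  .no) .no (.red [.f 952 5 3, .f 952 3 1] [(136, 136, [])]) .no) (.con 119 [1, 1]) .no .no)) (.con
  136 [2]) .no .no) .no

theorem p5_ok : chk ⟨3, 0, 0, false, -5⟩ [] p5 = true := by decide +kernel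

end Pool.Agent.FT3D
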