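import Pool.Agent.FT3D.Check

/-!
# Three levels: a decision tree (found by a computer search)
-/

namespace Pool.Agent.FT3D

def p7 : Tr :=
  .br 952 (.br 953 (.red [.f 952 1 5] []) (.con 136 [4]) (.con 136 [2]) (.con 136 [4]) (.con 136
  [2]) .no) (.br 954 (.con 136 [2]) (.con 136 [2]) (.br 953 (.br 1082 (.br 1080 (.con 136 [1]) .no
  (.br 960 .no (.red [.f 824 1 3, .f 952 3 1] [(120, 119, [3]), (136, 136, [])]) (.br 961 (.red
  [.f 953 1 3] [(136, 136, [])]) (.con 119 [3, 3]) (.red [.f 960 3 5] []) .no .no .no) .no (.red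
  [.t 1080 3 2] [(136, 136, [])]) .no) (.con 136 [1]) .no .no) .no (.red [.f 954 3 1] [(136, 136,
  [])]) (.br 1080 (.con 136 [1]) .no (.br 960 .no (.red [.f 824 1 3, .f 952 3 1] [(120, 119, [3]),
  (136, 136, [])]) (.br 961 (.red [.f 953 1 3] [(136, 136, [])]) (.con 119 [3, 3]) (.red [.f 960 3
  5] []) .no .no .no) .no (.red [.t 1080 3 2] [(136, 136, [])]) .no) (.con 135 [1]) .no .no) .no
  .no) (.red [.f 824 1 5] []) (.con 136 [2]) (.br 1082 (.br 1080 (.con 136 [1]) .no (.br 1081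
  (.red [.f 1081 1 5] []) .no (.con 136 [1]) (.br 960 .no (.red [.f 824 1 3, .f 952 3 1] [(120,
  119, [3]), (136, 136, [])]) (.br 961 (.red [.f 945 3 1, .f 953 1 3] [(135, 119, [1]), (136, 136,
  [])]) (.con 119 [3, 3]) (.red [.f 960 3 5] []) .no .no .no) .no (.red [.f 945 3 1, .t 1080 3 2]
  [(135, 119, [1]), (136, 136, [])]) .no) .no .no) (.con 136 [1]) (.con 136 [1]) .no) .no (.red
  [.f 954 3 1] [(136, 136, [])]) (.br 1081 (.con 119 [1, 1]) .no (.con 119 [1, 1]) (.red [.f 1073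
  3 5] []) .no (.con 119 [1, 1])) .no (.br 1080 (.con 136 [1]) .no (.br 960 .no (.red [.f 824 1 3,
  .f 952 3 1] [(120, 119, [3]), (136, 136, [])]) (.br 961 (.red [.t 961 1 4] [(136, 136, [])])
  (.con 119 [3, 3]) (.red [.f 960 3 5] []) .no .no .no) .no (.br 1089 (.br 1090 (.red [.f 1089 1
  5] []) .no (.con 119 [3, 3, 1, 1]) .no .no .no) .no (.br 1090 (.br 825 .no (.br 826 .no (.red
  [.f 697 1 5] []) (.con 103 [3]) (.con 103 [3]) .no .no) (.red [.t 824 1 3, .f 952 3 1] [(120,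
  104, [1]), (136, 136, [])]) (.red [.f 817 3 1, .f 824 1 5, .f 952 5 3, .f 952 3 1] [(119, 120,
  [4]), (136, 136, [])]) (.br 946 (.red [.t 945 3 1, .t 1080 3 2] [(135, 119, [1]), (136, 136,
  [])]) (.red [.t 945 3 2, .f 824 1 5, .f 952 5 3, .f 952 3 1] [(119, 118, [3]), (136, 136, [])])
  .no (.br 944 (.br 1073 (.br 1074 (.red [.f 1073 1 5] []) .no .no (.br 1096 (.br 1098 (.con 104
  [1, 3, 1, 3]) (.br 1217 (.br 1216 (.red [.f 1216 1 5] []) .no .no (.br 1209 (.red [.f 1209 1 3,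
  .t 1217 4 2, .f 954 3 1] [(136, 136, []), (152, 136, [1]), (168, 136, [1, 1])]) .no .no .no
  (.red [.f 1081 5 1, .f 1082 1 3, .f 954 3 1] [(136, 136, []), (152, 136, [1])]) .no) .no .no)
  .no (.red [.f 1089 3 1, .f 1089 1 5, .f 1081 5 3, .f 954 3 1] [(136, 136, []), (153, 137, [1])])
  (.red [.t 1217 4 2, .f 954 3 1] [(136, 136, []), (152, 136, [1])]) .no (.red [.t 1096 1 4, .f
  1089 1 5, .f 1081 5 3, .f 954 3 1] [(136, 136, []), (153, 137, [1])])) (.con 104 [1, 3, 1, 3])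
  .no .no .no) (.red [.t 1096 2 4, .t 961 1 4] [(136, 136, []), (137, 104, [1, 3, 1])]) (.br 1098
  (.con 104 [1, 3, 1, 3]) (.br 968 .no (.br 969 .no (.red [.f 840 1 5] []) (.con 104 [1, 3, 3])
  .no .no .no) (.br 969 .no (.br 1217 (.br 1216 (.red [.f 1216 1 5] []) .no (.con 169 [2, 2]) (.br
  1209 (.red [.f 1209 1 3, .t 1217 4 2, .f 954 3 1] [(136, 136, []), (152, 136, [1]), (168, 136,
  [1, 1])]) .no .no .no (.red [.f 1081 5 1, .f 1082 1 3, .f 954 3 1] [(136, 136, []), (152, 136,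
  [1])]) .no) .no .no) .no (.red [.f 1089 3 1, .f 1089 1 5, .f 1081 5 3, .f 954 3 1] [(136, 136,
  []), (153, 137, [1])]) (.red [.t 1217 4 2, .f 954 3 1] [(136, 136, []), (152, 136, [1])]) .no
  (.br 840 .no (.br 842 .no (.con 106 [4]) (.br 978 (.red [.f 968 3 1, .f 970 1 3, .t 1096 2 4, .t
  961 1 4] [(136, 136, []), (137, 104, [1, 3, 1])]) .no (.br 977 (.con 139 [2, 4, 2]) (.red [.f
  841 1 3, .f 968 3 1, .t 1096 2 4, .t 961 1 4, .t 976 1 4] [(122, 106, [1]), (136, 136, []),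
  (137, 104, [1, 3, 1])]) (.red [.f 977 3 5] []) .no .no .no) .no .no (.red [.t 841 1 3, .f 968 3
  1, .t 1096 2 4, .t 961 1 4, .t 976 1 4] [(122, 106, [1]), (136, 136, []), (137, 104, [1, 3,
  1])])) (.con 106 [4, 1]) .no .no) (.red [.f 840 3 1, .f 840 1 5, .f 960 5 3, .f 961 3 1, .t 961
  1 4] [(122, 106, [1]), (136, 136, []), (137, 104, [1, 3, 1])]) (.red [.t 840 4 1, .f 824 1 3, .f
  952 3 1] [(120, 104, [1]), (121, 105, [1]), (136, 136, [])]) .no .no)) (.red [.f 968 3 5] [])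
  .no .no .no) .no (.red [.f 960 5 3, .f 961 3 1, .t 961 1 4] [(136, 136, []), (137, 104, [1, 3,
  1])]) .no) (.con 104 [1, 3, 1, 3]) .no .no .no) .no .no .no) .no .no) .no .no (.br 1074 (.con
  134 [1]) .no .no (.red [.f 1065 3 5] []) .no .no) (.red [.f 1073 5 3, .f 945 3 1, .t 1080 3 2]
  [(135, 119, [1]), (136, 136, [])]) .no) (.red [.f 816 1 3, .f 944 3 5, .f 952 5 3, .f 952 3 1]
  [(119, 118, [3]), (136, 136, [])]) .no (.br 1096 (.br 1098 (.con 104 [1, 3, 1, 3]) (.br 1217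
  (.br 1216 (.red [.f 1216 1 5] []) .no .no (.br 1209 (.red [.f 1209 1 3, .t 1217 4 2, .f 954 3 1]
  [(136, 136, []), (152, 136, [1]), (168, 136, [1, 1])]) .no .no (.br 1210 (.con 119 [1, 1, 1])
  .no .no (.red [.f 1201 3 5] []) .no .no) (.red [.f 1081 5 1, .f 1082 1 3, .f 954 3 1] [(136,
  136, []), (152, 136, [1])]) .no) .no .no) .no (.red [.f 1089 3 1, .f 1089 1 5, .f 1081 5 3, .f
  954 3 1] [(136, 136, []), (153, 137, [1])]) (.red [.t 1217 4 2, .f 954 3 1] [(136, 136, []),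
  (152, 136, [1])]) .no (.red [.t 1096 1 4, .f 1089 1 5, .f 1081 5 3, .f 954 3 1] [(136, 136, []),
  (153, 137, [1])])) (.con 104 [1, 3, 1, 3]) .no .no .no) (.red [.t 1096 2 4, .t 961 1 4] [(136,
  136, []), (137, 104, [1, 3, 1])]) (.br 1098 (.con 104 [1, 3, 1, 3]) (.br 968 .no (.br 969 .no
  (.red [.f 840 1 5] []) (.con 104 [1, 3, 3]) .no .no .no) (.br 969 .no (.br 1217 (.br 1216 (.red
  [.f 1216 1 5] []) .no (.con 169 [2, 2]) (.br 1209 (.red [.f 1209 1 3, .t 1217 4 2, .f 954 3 1]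
  [(136, 136, []), (152, 136, [1]), (168, 136, [1, 1])]) .no .no (.br 1210 (.con 119 [1, 1, 1])
  .no .no (.red [.f 1201 3 5] []) .no .no) (.red [.f 1081 5 1, .f 1082 1 3, .f 954 3 1] [(136,
  136, []), (152, 136, [1])]) .no) .no .no) .no (.red [.f 1089 3 1, .f 1089 1 5, .f 1081 5 3, .f
  954 3 1] [(136, 136, []), (153, 137, [1])]) (.red [.t 1217 4 2, .f 954 3 1] [(136, 136, []),
  (152, 136, [1])]) .no (.br 840 .no (.br 842 .no (.con 106 [4]) (.br 978 (.red [.f 968 3 1, .f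
  970 1 3, .t 1096 2 4, .t 961 1 4] [(136, 136, []), (137, 104, [1, 3, 1])]) .no (.br 977 (.con
  139 [2, 4, 2]) (.red [.f 841 1 3, .f 968 3 1, .t 1096 2 4, .t 961 1 4, .t 976 1 4] [(122, 106,
  [1]), (136, 136, []), (137, 104, [1, 3, 1])]) (.red [.f 977 3 5] []) .no .no .no) .no .no (.red
  [.t 841 1 3, .f 968 3 1, .t 1096 2 4, .t 961 1 4, .t 976 1 4] [(122, 106, [1]), (136, 136, []),
  (137, 104, [1, 3, 1])])) (.con 106 [4, 1]) .no .no) (.red [.f 840 3 1, .f 840 1 5, .f 960 5 3,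
  .f 961 3 1, .t 961 1 4] [(122, 106, [1]), (136, 136, []), (137, 104, [1, 3, 1])]) (.red [.t 840
  4 1, .f 824 1 3, .f 952 3 1] [(120, 104, [1]), (121, 105, [1]), (136, 136, [])]) .no .no)) (.red
  [.f 968 3 5] []) .no .no .no) .no (.red [.f 960 5 3, .f 961 3 1, .t 961 1 4] [(136, 136, []),
  (137, 104, [1, 3, 1])]) .no) (.con 104 [1, 3, 1, 3]) .no .no .no) .no .no .no) .no .no) .no .no)
  .no) .no (.red [.f 1089 3 5] []) .no .no .no) .no (.red [.f 1081 5 3, .f 954 3 1] [(136, 136,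
  [])]) .no) .no) (.con 119 [1, 1]) .no .no)) .no .no) (.con 136 [2]) .no (.con 136 [2])) (.br
  1080 (.br 1082 (.con 136 [1]) (.con 136 [1]) (.br 1081 (.red [.f 1080 1 5] []) (.br 1088 (.red
  [.f 1080 1 3, .f 952 3 1] [(136, 136, []), (152, 136, [1])]) .no (.br 1089 (.con 136 [3, 1])
  (.red [.f 953 1 3] [(136, 136, [])]) (.red [.f 1088 3 5] []) .no .no .no) .no (.red [.t 952 3 1]
  [(136, 136, [])]) .no) (.con 136 [1]) (.br 1088 (.red [.f 1080 1 3, .f 952 3 1] [(136, 136, []),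
  (152, 136, [1])]) .no (.br 1089 (.con 136 [3, 1]) (.br 953 .no (.br 954 .no (.red [.f 825 1 5]
  []) (.red [.f 954 3 1] [(136, 136, [])]) (.con 136 [2, 4]) .no .no) .no (.red [.f 945 3 1, .f
  953 1 3] [(135, 136, [4]), (136, 136, [])]) (.red [.t 1089 2 4] [(136, 136, [])]) .no) (.red [.f
  1088 3 5] []) .no .no .no) .no (.br 953 .no (.br 954 .no (.red [.f 825 1 5] []) (.red [.f 954 3
  1] [(136, 136, [])]) (.con 136 [2, 4]) .no .no) (.red [.f 952 3 5] []) (.red [.f 945 3 1, .t 952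
  3 1] [(135, 136, [4]), (136, 136, [])]) (.br 961 .no (.br 962 .no (.red [.f 833 1 5] []) (.con
  136 [2, 3]) .no .no .no) (.br 962 .no (.br 833 .no (.br 832 .no (.red [.f 704 1 5] []) (.con 105
  [4]) (.con 105 [4]) .no .no) (.red [.f 833 3 1, .f 833 1 5, .f 953 5 3, .f 954 3 1] [(121, 120,
  [3]), (136, 136, [])]) (.red [.t 833 4 1, .f 954 3 1] [(120, 104, [1]), (136, 136, [])]) .no
  (.br 968 (.red [.t 968 1 4, .t 1089 2 4] [(136, 136, []), (137, 121, [1])]) (.red [.t 968 2 4,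
  .f 833 1 5, .f 953 5 3, .f 954 3 1] [(121, 104, [3, 1]), (136, 136, [])]) (.br 970 (.br 1072
  (.red [.f 1072 1 3, .f 1072 3 5, .f 1080 5 3, .f 952 3 1] [(136, 136, []), (151, 135, [1])])
  (.br 945 .no (.br 946 (.con 134 [2, 3]) (.red [.f 817 1 5] []) .no (.br 1074 (.br 1209 (.br 1210
  (.red [.f 1209 1 5] []) .no (.br 1217 (.red [.f 1209 1 3, .t 1208 2 3, .f 952 3 1] [(136, 136,
  []), (152, 136, [1]), (168, 136, [1, 1])]) .no (.br 1216 (.con 121 [1, 1, 1]) .no (.red [.f 1216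
  3 5] []) .no .no .no) .no .no (.red [.f 1088 5 1, .f 1080 1 3, .f 952 3 1] [(136, 136, []),
  (152, 136, [1])])) .no .no .no) .no (.red [.t 1208 2 3, .f 952 3 1] [(136, 136, []), (152, 136,
  [1])]) (.red [.f 1073 3 1, .f 1080 1 5, .f 1080 5 3, .f 952 3 1] [(136, 136, []), (151, 135,
  [1])]) (.red [.t 1073 3 1, .f 1080 1 5, .f 1080 5 3, .f 952 3 1] [(136, 136, []), (151, 135,
  [1])]) .no) .no .no (.br 1096 (.br 1097 (.red [.f 1096 1 5] []) .no (.con 138 [1]) .no .no .no)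
  .no (.br 1097 (.br 1209 (.br 1210 (.red [.f 1209 1 5] []) .no (.br 1217 (.red [.f 1209 1 3, .t
  1208 2 3, .f 952 3 1] [(136, 136, []), (152, 136, [1]), (168, 136, [1, 1])]) .no .no .no .no
  (.red [.f 1088 5 1, .f 1080 1 3, .f 952 3 1] [(136, 136, []), (152, 136, [1])])) (.con 167 [2,
  2]) .no .no) .no (.red [.t 1208 2 3, .f 952 3 1] [(136, 136, []), (152, 136, [1])]) (.red [.f
  1073 3 1, .f 1080 1 5, .f 1080 5 3, .f 952 3 1] [(136, 136, []), (151, 135, [1])]) (.br 818 .no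
  (.br 816 .no (.con 102 [3]) (.con 102 [3, 1]) (.br 936 (.red [.f 936 1 3, .f 938 3 1, .t 1073 3
  2, .t 952 3 1] [(135, 102, [3, 1, 1]), (136, 136, [])]) .no .no (.br 937 (.con 133 [3, 2, 3])
  (.red [.f 809 1 3, .f 937 3 5, .f 945 5 3, .f 945 3 1, .t 952 3 1] [(118, 117, [3]), (135, 102,
  [3, 1, 1]), (136, 136, [])]) .no (.red [.f 928 3 5] []) .no .no) (.red [.t 816 4 1, .f 937 3 5,
  .f 945 5 3, .f 945 3 1, .t 952 3 1] [(118, 119, [4]), (135, 102, [3, 1, 1]), (136, 136, [])])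
  .no) .no .no) (.red [.t 817 1 3, .f 826 1 3, .f 954 3 1] [(119, 103, [1]), (120, 104, [1]),
  (136, 136, [])]) (.red [.f 810 3 1, .f 817 1 5, .f 945 5 3, .f 945 3 1, .t 952 3 1] [(118, 119,
  [4]), (135, 118, [3, 1]), (136, 136, [])]) .no .no) .no) .no (.red [.f 1096 3 5] []) .no .no
  .no) .no (.red [.f 1088 5 3, .f 961 3 1, .t 1089 2 4] [(136, 136, []), (137, 121, [1])]) .no)
  .no .no) .no .no) .no (.br 946 (.con 134 [2]) (.con 134 [2]) .no (.red [.f 937 3 5] []) .no .no)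
  (.red [.f 945 5 3, .f 945 3 1, .t 952 3 1] [(135, 134, [3]), (136, 136, [])]) .no) .no (.br 1074
  (.br 1209 (.br 1210 (.red [.f 1209 1 5] []) .no (.br 1217 (.red [.f 1209 1 3, .t 1208 2 3, .f
  952 3 1] [(136, 136, []), (152, 136, [1]), (168, 136, [1, 1])]) .no (.br 1216 (.con 121 [1, 1,
  1]) .no (.red [.f 1216 3 5] []) .no .no .no) .no .no (.red [.f 1088 5 1, .f 1080 1 3, .f 952 3
  1] [(136, 136, []), (152, 136, [1])])) .no .no .no) .no (.red [.t 1208 2 3, .f 952 3 1] [(136,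
  136, []), (152, 136, [1])]) (.red [.f 1073 3 1, .f 1080 1 5, .f 1080 5 3, .f 952 3 1] [(136,
  136, []), (151, 135, [1])]) (.red [.t 1073 3 1, .f 1080 1 5, .f 1080 5 3, .f 952 3 1] [(136,
  136, []), (151, 135, [1])]) .no) (.red [.t 1073 3 2, .t 952 3 1] [(135, 134, [3]), (136, 136,
  [])]) .no (.br 1096 (.br 1097 (.red [.f 1096 1 5] []) .no (.con 138 [1]) .no .no .no) .no (.br
  1097 (.br 1209 (.br 1210 (.red [.f 1209 1 5] []) .no (.br 1217 (.red [.f 1209 1 3, .t 1208 2 3,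
  .f 952 3 1] [(136, 136, []), (152, 136, [1]), (168, 136, [1, 1])]) .no .no .no .no (.red [.f
  1088 5 1, .f 1080 1 3, .f 952 3 1] [(136, 136, []), (152, 136, [1])])) (.con 167 [2, 2]) .no
  .no) .no (.red [.t 1208 2 3, .f 952 3 1] [(136, 136, []), (152, 136, [1])]) (.red [.f 1073 3 1,
  .f 1080 1 5, .f 1080 5 3, .f 952 3 1] [(136, 136, []), (151, 135, [1])]) (.br 1224 (.br 1226
  (.con 170 [2, 2]) .no (.br 1106 .no (.red [.f 968 3 1, .t 968 1 4, .f 970 1 3, .t 1089 2 4]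
  [(136, 136, []), (137, 121, [1])]) (.br 1105 (.red [.f 968 3 1, .t 968 1 4, .t 1089 2 4, .f 1097
  1 3, .t 1104 2 4] [(136, 136, []), (137, 121, [1]), (154, 138, [1])]) (.con 139 [4]) (.red [.f
  1105 3 5] []) .no .no .no) .no .no (.red [.f 968 3 1, .t 968 1 4, .t 1089 2 4, .t 1225 2 3, .t
  1104 2 4] [(136, 136, []), (137, 121, [1]), (154, 138, [1])])) (.con 170 [2, 2]) .no .no) .no
  (.red [.f 1096 3 1, .f 1096 1 5, .f 1088 5 3, .f 961 3 1, .t 1089 2 4] [(136, 136, []), (137,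
  121, [1]), (154, 138, [1])]) (.red [.t 1224 4 2, .f 961 3 1, .t 1089 2 4] [(136, 136, []), (137,
  121, [1]), (153, 121, [1, 1])]) .no .no) .no) .no (.red [.f 1096 3 5] []) .no .no .no) .no (.red
  [.f 1088 5 3, .f 961 3 1, .t 1089 2 4] [(136, 136, []), (137, 121, [1])]) .no) .no .no) .no .no)
  (.con 121 [3, 1]) (.con 122 [1]) .no .no .no) .no .no .no)) (.red [.f 961 3 5] []) .no .no .no)
  .no (.red [.f 953 5 3, .f 954 3 1] [(136, 136, [])]) .no) .no) .no) .no .no) (.con 136 [1]) .no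
  (.con 136 [1])) .no (.red [.f 952 3 1] [(136, 136, [])]) (.br 1081 (.con 136 [4, 1]) (.br 1082
  (.con 136 [1]) (.con 136 [1]) (.br 954 .no (.br 962 .no (.red [.f 826 1 3, .f 954 3 1] [(120,
  119, [3]), (136, 136, [])]) (.br 961 (.red [.f 953 1 3] [(136, 136, [])]) (.con 119 [3, 3])
  (.red [.f 961 3 5] []) .no .no .no) .no .no (.red [.t 1081 2 3] [(136, 136, [])])) (.red [.f 954
  3 1] [(136, 136, [])]) (.br 961 (.red [.f 953 1 3] [(136, 136, [])]) (.br 962 .no (.red [.f 833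
  1 5] []) (.con 136 [2, 3]) .no .no .no) (.br 962 .no (.br 1089 (.br 1088 (.red [.f 1088 1 5] [])
  .no (.con 121 [1, 1]) .no .no .no) .no (.red [.f 961 3 1, .f 953 1 3] [(136, 136, []), (137,
  121, [1])]) .no .no (.red [.t 952 3 1] [(136, 136, [])])) (.red [.f 961 3 5] []) .no .no .no)
  .no (.red [.t 1081 2 3] [(136, 136, [])]) .no) .no .no) (.con 135 [1]) .no .no) (.con 136 [1])
  (.red [.f 1072 3 5] []) (.con 136 [1]) .no) (.br 1082 (.con 136 [1]) (.con 136 [4]) (.br 1088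
  (.br 1089 (.red [.f 1088 1 5] []) (.red [.t 960 4 1] [(136, 136, [])]) (.br 961 .no (.br 962 .no
  (.red [.f 833 1 5] []) (.con 136 [2, 3]) (.red [.f 954 3 1] [(136, 136, [])]) .no .no) (.red [.f
  961 3 1, .t 960 4 1] [(136, 136, []), (137, 136, [3])]) (.red [.f 952 3 5] []) (.br 953 .no (.br
  954 .no (.red [.f 825 1 5] []) .no (.con 136 [2, 4]) .no .no) .no (.br 954 .no (.br 825 .no (.br
  824 .no (.red [.f 696 1 5] []) (.con 103 [3]) (.con 103 [3]) .no .no) (.red [.t 825 3 1, .f 954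
  3 1] [(120, 104, [1]), (136, 136, [])]) (.red [.f 817 3 1, .f 825 1 5, .f 953 5 3, .f 954 3 1]
  [(119, 120, [4]), (136, 136, [])]) .no (.br 944 (.red [.t 944 1 3, .t 1081 2 3] [(135, 119,
  [1]), (136, 136, [])]) (.red [.t 944 2 3, .f 825 1 5, .f 953 5 3, .f 954 3 1] [(119, 118, [3]),
  (136, 136, [])]) .no (.br 946 (.br 1072 (.br 1073 (.red [.f 1072 1 5] []) .no .no (.con 134 [1])
  .no .no) .no .no (.br 1073 (.br 1096 (.red [.f 1088 1 3, .f 1088 3 5, .f 1080 5 3, .f 952 3 1]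
  [(136, 136, []), (153, 137, [1])]) (.br 969 .no (.br 970 (.con 138 [2, 4]) (.red [.f 841 1 5]
  []) (.br 1098 (.br 1217 (.br 1218 (.red [.f 1217 1 5] []) .no .no (.br 1209 (.red [.f 1209 1 3,
  .t 1216 2 4, .f 952 3 1] [(136, 136, []), (152, 136, [1]), (168, 136, [1, 1])]) .no .no .no .no
  (.red [.f 1080 5 1, .f 1080 1 3, .f 952 3 1] [(136, 136, []), (152, 136, [1])])) .no .no) .no
  (.red [.f 1089 3 1, .f 1088 1 5, .f 1080 5 3, .f 952 3 1] [(136, 136, []), (153, 137, [1])])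
  (.red [.t 1216 2 4, .f 952 3 1] [(136, 136, []), (152, 136, [1])]) (.red [.t 1097 4 1, .f 1088 1
  5, .f 1080 5 3, .f 952 3 1] [(136, 136, []), (153, 137, [1])]) .no) .no (.br 1217 (.br 1218
  (.red [.f 1217 1 5] []) .no (.con 169 [2, 2]) (.br 1209 (.red [.f 1209 1 3, .t 1216 2 4, .f 952
  3 1] [(136, 136, []), (152, 136, [1]), (168, 136, [1, 1])]) .no .no .no .no (.red [.f 1080 5 1,
  .f 1080 1 3, .f 952 3 1] [(136, 136, []), (152, 136, [1])])) .no .no) .no (.red [.f 1089 3 1, .f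
  1088 1 5, .f 1080 5 3, .f 952 3 1] [(136, 136, []), (153, 137, [1])]) (.red [.t 1216 2 4, .f 952
  3 1] [(136, 136, []), (152, 136, [1])]) (.br 842 .no (.br 840 .no (.con 106 [4]) (.br 976 (.red
  [.f 968 1 3, .f 970 3 1, .t 1097 4 2, .t 960 4 1] [(136, 136, []), (137, 104, [1, 3, 1])]) .no
  (.br 977 (.con 139 [2, 4, 2]) (.red [.f 841 1 3, .f 969 3 5, .f 961 5 3, .f 961 3 1, .t 960 4 1]
  [(122, 106, [1]), (136, 136, []), (137, 104, [1, 3, 1])]) (.red [.f 976 3 5] []) .no .no .no)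
  .no (.red [.t 840 3 1, .f 969 3 5, .f 961 5 3, .f 961 3 1, .t 960 4 1] [(122, 106, [1]), (136,
  136, []), (137, 104, [1, 3, 1])]) .no) (.con 106 [4, 1]) .no .no) (.red [.f 842 3 1, .f 841 1 5,
  .f 961 5 3, .f 961 3 1, .t 960 4 1] [(122, 106, [1]), (136, 136, []), (137, 104, [1, 3, 1])])
  (.red [.t 841 1 4, .f 826 1 3, .f 954 3 1] [(120, 104, [1]), (121, 105, [1]), (136, 136, [])])
  .no .no) .no) .no .no .no) .no .no .no) (.br 970 (.con 138 [2]) (.con 104 [1, 3, 3]) (.red [.f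
  969 3 5] []) .no .no .no) .no (.red [.f 961 5 3, .f 961 3 1, .t 960 4 1] [(136, 136, []), (137,
  104, [1, 3, 1])]) .no) (.br 1098 (.con 104 [1, 3, 1, 3]) (.red [.t 1097 4 2, .t 960 4 1] [(136,
  136, []), (137, 104, [1, 3, 1])]) (.con 104 [1, 3, 1, 3]) .no .no .no) .no .no .no) .no .no
  (.red [.f 1064 3 5] []) .no .no) (.red [.f 1072 5 3, .f 945 3 1, .t 1081 2 3] [(135, 119, [1]),
  (136, 136, [])]) .no) (.red [.f 818 1 3, .f 945 3 5, .f 953 5 3, .f 954 3 1] [(119, 118, [3]),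
  (136, 136, [])]) .no (.br 1096 (.red [.f 1088 1 3, .f 1088 3 5, .f 1080 5 3, .f 952 3 1] [(136,
  136, []), (153, 137, [1])]) (.br 969 .no (.br 970 (.con 138 [2, 4]) (.red [.f 841 1 5] []) (.br
  1098 (.br 1217 (.br 1218 (.red [.f 1217 1 5] []) .no .no (.br 1209 (.red [.f 1209 1 3, .t 1216 2
  4, .f 952 3 1] [(136, 136, []), (152, 136, [1]), (168, 136, [1, 1])]) .no .no (.br 1208 (.con
  119 [1, 1, 1]) .no .no (.red [.f 1200 3 5] []) .no .no) .no (.red [.f 1080 5 1, .f 1080 1 3, .f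
  952 3 1] [(136, 136, []), (152, 136, [1])])) .no .no) .no (.red [.f 1089 3 1, .f 1088 1 5, .f
  1080 5 3, .f 952 3 1] [(136, 136, []), (153, 137, [1])]) (.red [.t 1216 2 4, .f 952 3 1] [(136,
  136, []), (152, 136, [1])]) (.red [.t 1097 4 1, .f 1088 1 5, .f 1080 5 3, .f 952 3 1] [(136,
  136, []), (153, 137, [1])]) .no) .no (.br 1217 (.br 1218 (.red [.f 1217 1 5] []) .no (.con 169
  [2, 2]) (.br 1209 (.red [.f 1209 1 3, .t 1216 2 4, .f 952 3 1] [(136, 136, []), (152, 136, [1]),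
  (168, 136, [1, 1])]) .no .no (.br 1208 (.con 119 [1, 1, 1]) .no .no (.red [.f 1200 3 5] []) .no
  .no) .no (.red [.f 1080 5 1, .f 1080 1 3, .f 952 3 1] [(136, 136, []), (152, 136, [1])])) .no
  .no) .no (.red [.f 1089 3 1, .f 1088 1 5, .f 1080 5 3, .f 952 3 1] [(136, 136, []), (153, 137,
  [1])]) (.red [.t 1216 2 4, .f 952 3 1] [(136, 136, []), (152, 136, [1])]) (.br 842 .no (.br 840
  .no (.con 106 [4]) (.br 976 (.red [.f 968 1 3, .f 970 3 1, .t 1097 4 2, .t 960 4 1] [(136, 136,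
  []), (137, 104, [1, 3, 1])]) .no (.br 977 (.con 139 [2, 4, 2]) (.red [.f 841 1 3, .f 969 3 5, .f
  961 5 3, .f 961 3 1, .t 960 4 1] [(122, 106, [1]), (136, 136, []), (137, 104, [1, 3, 1])]) (.red
  [.f 976 3 5] []) .no .no .no) .no (.red [.t 840 3 1, .f 969 3 5, .f 961 5 3, .f 961 3 1, .t 960
  4 1] [(122, 106, [1]), (136, 136, []), (137, 104, [1, 3, 1])]) .no) (.con 106 [4, 1]) .no .no)
  (.red [.f 842 3 1, .f 841 1 5, .f 961 5 3, .f 961 3 1, .t 960 4 1] [(122, 106, [1]), (136, 136,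
  []), (137, 104, [1, 3, 1])]) (.red [.t 841 1 4, .f 826 1 3, .f 954 3 1] [(120, 104, [1]), (121,
  105, [1]), (136, 136, [])]) .no .no) .no) .no .no .no) .no .no .no) (.br 970 (.con 138 [2])
  (.con 104 [1, 3, 3]) (.red [.f 969 3 5] []) .no .no .no) .no (.red [.f 961 5 3, .f 961 3 1, .t
  960 4 1] [(136, 136, []), (137, 104, [1, 3, 1])]) .no) (.br 1098 (.con 104 [1, 3, 1, 3]) (.red
  [.t 1097 4 2, .t 960 4 1] [(136, 136, []), (137, 104, [1, 3, 1])]) (.con 104 [1, 3, 1, 3]) .no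
  .no .no) .no .no .no) .no .no) .no .no)) .no (.red [.f 945 3 5] []) .no .no) (.red [.f 953 5 3,
  .f 954 3 1] [(136, 136, [])]) .no) .no) .no .no .no) .no (.br 1089 (.con 136 [3, 1]) (.red [.t
  960 4 1] [(136, 136, [])]) (.red [.f 1088 3 5] []) .no .no .no) .no (.red [.f 1080 5 3, .f 952 3
  1] [(136, 136, [])]) .no) (.con 136 [1]) .no .no) .no) (.br 953 (.br 954 (.con 136 [2]) (.con
  136 [2]) (.br 1082 (.br 1080 (.con 136 [1]) .no (.br 1090 (.red [.f 1082 1 3, .f 954 3 1] [(136,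
  136, []), (152, 136, [1])]) .no (.br 1089 (.con 136 [3, 1]) (.red [.f 953 1 3] [(136, 136, [])])
  (.red [.f 1089 3 5] []) .no .no .no) .no .no (.red [.t 953 1 3] [(136, 136, [])])) (.con 136
  [1]) .no .no) .no (.red [.f 954 3 1] [(136, 136, [])]) (.br 1080 (.con 136 [1]) .no (.br 960 .no
  (.br 961 (.red [.f 953 1 3] [(136, 136, [])]) (.red [.f 832 1 5] []) (.br 1089 (.br 1090 (.red
  [.f 1089 1 5] []) .no (.con 121 [1, 1]) .no .no .no) .no (.red [.f 961 3 1, .f 953 1 3] [(136,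
  136, []), (137, 121, [1])]) .no (.red [.t 953 1 3] [(136, 136, [])]) .no) .no .no .no) (.br 961
  (.red [.f 953 1 3] [(136, 136, [])]) (.con 136 [2, 3]) (.red [.f 960 3 5] []) .no .no .no) .no
  (.red [.t 1080 3 2] [(136, 136, [])]) .no) (.con 135 [1]) .no .no) .no .no) (.con 135 [2]) .no
  .no) (.con 136 [4, 2]) (.con 136 [2]) (.red [.f 944 3 5] []) (.con 136 [2]) .no) (.br 954 (.con
  136 [2]) (.con 136 [2]) (.br 1082 (.br 1080 (.con 136 [1]) .no (.br 1081 (.red [.f 1081 1 5] [])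
  .no (.con 136 [1]) (.br 960 .no (.br 961 (.red [.t 1088 4 2] [(136, 136, [])]) (.red [.f 832 1
  5] []) (.br 1089 (.br 1090 (.red [.f 1089 1 5] []) .no (.con 121 [1, 1]) .no .no .no) .no (.red
  [.f 961 3 1, .t 1088 4 2] [(136, 136, []), (137, 121, [1])]) .no (.br 833 .no (.br 834 .no (.red
  [.f 705 1 5] []) (.con 105 [4]) (.con 105 [4]) .no .no) (.red [.f 833 3 1, .f 832 1 5, .f 952 5
  3, .f 952 3 1] [(121, 120, [3]), (136, 136, [])]) (.red [.t 832 1 4, .f 952 3 1] [(120, 104,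
  [1]), (136, 136, [])]) (.br 970 (.red [.t 969 4 1, .t 1088 4 2] [(136, 136, []), (137, 121,
  [1])]) (.red [.t 969 4 2, .f 832 1 5, .f 952 5 3, .f 952 3 1] [(121, 104, [3, 1]), (136, 136,
  [])]) (.br 968 (.br 1072 (.br 1209 (.br 1208 (.red [.f 1208 1 5] []) .no (.br 1217 (.red [.f
  1209 1 3, .t 1209 3 2, .f 954 3 1] [(136, 136, []), (152, 136, [1]), (168, 136, [1, 1])]) .no
  (.br 1218 (.con 121 [1, 1, 1]) .no (.red [.f 1217 3 5] []) .no .no .no) .no (.red [.f 1089 5 1,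
  .f 1082 1 3, .f 954 3 1] [(136, 136, []), (152, 136, [1])]) .no) .no .no .no) .no (.red [.t 1209
  3 2, .f 954 3 1] [(136, 136, []), (152, 136, [1])]) (.red [.f 1073 3 1, .f 1081 1 5, .f 1081 5
  3, .f 954 3 1] [(136, 136, []), (151, 135, [1])]) .no (.red [.t 1072 1 3, .f 1081 1 5, .f 1081 5
  3, .f 954 3 1] [(136, 136, []), (151, 135, [1])])) (.red [.t 1072 2 3, .t 953 1 3] [(135, 134,
  [3]), (136, 136, [])]) .no (.br 1074 (.red [.f 1074 1 3, .f 1073 3 5, .f 1081 5 3, .f 954 3 1]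
  [(136, 136, []), (151, 135, [1])]) (.br 944 .no (.br 945 .no (.red [.f 816 1 5] []) .no (.con
  134 [2]) .no .no) .no (.br 945 .no (.br 1097 (.br 1098 (.red [.f 1097 1 5] []) .no (.br 1209
  (.br 1208 (.red [.f 1208 1 5] []) .no (.br 1217 (.red [.f 1209 1 3, .t 1209 3 2, .f 954 3 1]
  [(136, 136, []), (152, 136, [1]), (168, 136, [1, 1])]) .no .no .no (.red [.f 1089 5 1, .f 1082 1
  3, .f 954 3 1] [(136, 136, []), (152, 136, [1])]) .no) (.con 167 [2, 2]) .no .no) .no (.red [.t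
  1209 3 2, .f 954 3 1] [(136, 136, []), (152, 136, [1])]) (.red [.f 1073 3 1, .f 1081 1 5, .f
  1081 5 3, .f 954 3 1] [(136, 136, []), (151, 135, [1])]) .no (.br 816 .no (.br 818 .no (.con 102
  [3]) (.con 102 [3, 1]) (.br 938 (.red [.f 936 3 1, .f 938 1 3, .t 1072 2 3, .t 953 1 3] [(135,
  102, [3, 1, 1]), (136, 136, [])]) .no .no (.br 937 (.con 133 [3, 2, 3]) (.red [.f 809 1 3, .f
  936 3 1, .t 1072 2 3, .t 936 1 3, .t 953 1 3] [(118, 117, [3]), (135, 102, [3, 1, 1]), (136,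
  136, [])]) .no (.red [.f 929 3 5] []) .no .no) .no (.red [.t 817 1 4, .f 936 3 1, .t 1072 2 3,
  .t 936 1 3, .t 953 1 3] [(118, 119, [4]), (135, 102, [3, 1, 1]), (136, 136, [])])) .no .no)
  (.red [.t 816 3 1, .f 824 1 3, .f 952 3 1] [(119, 103, [1]), (120, 104, [1]), (136, 136, [])])
  (.red [.f 808 3 1, .f 816 1 5, .f 944 5 3, .f 945 3 1, .t 953 1 3] [(118, 119, [4]), (135, 118,
  [3, 1]), (136, 136, [])]) .no .no)) .no .no .no) .no (.br 1098 (.con 138 [1]) .no (.red [.f 1097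
  3 5] []) .no .no .no) .no (.red [.f 1089 5 3, .f 961 3 1, .t 1088 4 2] [(136, 136, []), (137,
  121, [1])]) .no) .no (.red [.f 936 3 5] []) .no .no) (.red [.f 944 5 3, .f 945 3 1, .t 953 1 3]
  [(135, 134, [3]), (136, 136, [])]) .no) .no (.br 1097 (.br 1098 (.red [.f 1097 1 5] []) .no (.br
  1209 (.br 1208 (.red [.f 1208 1 5] []) .no (.br 1217 (.red [.f 1209 1 3, .t 1209 3 2, .f 954 3
  1] [(136, 136, []), (152, 136, [1]), (168, 136, [1, 1])]) .no .no .no (.red [.f 1089 5 1, .f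
  1082 1 3, .f 954 3 1] [(136, 136, []), (152, 136, [1])]) .no) (.con 167 [2, 2]) .no .no) .no
  (.red [.t 1209 3 2, .f 954 3 1] [(136, 136, []), (152, 136, [1])]) (.red [.f 1073 3 1, .f 1081 1
  5, .f 1081 5 3, .f 954 3 1] [(136, 136, []), (151, 135, [1])]) .no (.br 1226 (.br 1224 (.con 170
  [2, 2]) .no (.br 1104 .no (.red [.f 968 1 3, .f 970 3 1, .t 969 4 1, .t 1088 4 2] [(136, 136,
  []), (137, 121, [1])]) (.br 1105 (.red [.f 970 3 1, .t 969 4 1, .t 1088 4 2, .f 1097 1 3, .t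
  1105 4 2] [(136, 136, []), (137, 121, [1]), (154, 138, [1])]) (.con 139 [4]) (.red [.f 1104 3 5]
  []) .no .no .no) .no (.red [.f 970 3 1, .t 969 4 1, .t 1088 4 2, .t 1224 3 2, .t 1105 4 2]
  [(136, 136, []), (137, 121, [1]), (154, 138, [1])]) .no) (.con 170 [2, 2]) .no .no) .no (.red
  [.f 1098 3 1, .f 1097 1 5, .f 1089 5 3, .f 961 3 1, .t 1088 4 2] [(136, 136, []), (137, 121,
  [1]), (154, 138, [1])]) (.red [.t 1225 2 4, .f 961 3 1, .t 1088 4 2] [(136, 136, []), (137, 121,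
  [1]), (153, 121, [1, 1])]) .no .no)) .no .no .no) .no (.br 1098 (.con 138 [1]) .no (.red [.f
  1097 3 5] []) .no .no .no) .no (.red [.f 1089 5 3, .f 961 3 1, .t 1088 4 2] [(136, 136, []),
  (137, 121, [1])]) .no) .no .no) .no .no) (.con 121 [3, 1]) (.con 122 [1]) .no .no .no) .no .no
  .no) .no) .no) .no .no .no) (.br 961 (.red [.t 1088 4 2] [(136, 136, [])]) (.con 136 [2, 3])
  (.red [.f 960 3 5] []) .no .no .no) .no (.red [.f 952 5 3, .f 952 3 1] [(136, 136, [])]) .no)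
  .no .no) (.con 136 [1]) (.con 136 [1]) .no) .no (.red [.f 954 3 1] [(136, 136, [])]) (.br 1081
  (.con 136 [4, 1]) .no (.con 136 [1]) (.red [.f 1073 3 5] []) .no (.con 136 [1])) .no (.br 1080
  (.con 136 [1]) .no (.br 960 .no (.br 961 (.red [.t 961 1 4] [(136, 136, [])]) (.red [.f 832 1 5]
  []) (.br 1089 (.br 1090 (.red [.f 1089 1 5] []) .no (.con 121 [1, 1]) .no .no .no) .no (.red [.f
  961 3 1, .t 961 1 4] [(136, 136, []), (137, 121, [1])]) .no (.red [.f 1081 5 3, .f 954 3 1]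
  [(136, 136, [])]) .no) .no .no .no) (.br 961 (.red [.t 961 1 4] [(136, 136, [])]) (.con 136 [2,
  3]) (.red [.f 960 3 5] []) .no .no .no) .no (.red [.f 952 5 3, .f 952 3 1] [(136, 136, [])])
  .no) (.con 136 [1]) .no .no)) (.con 136 [2]) .no .no) .no

theorem p7_ok : chk ⟨3, 0, 0, false, -7⟩ [] p7 = true := by decide +kernel

end Pool.Agent.FT3D
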