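import Pool.Agent.FT3D.Check

/-!
# Three levels: a decision tree (found by a computer search)
-/

namespace Pool.Agent.FT3D

def p9 : Tr :=
  .br 952 (.br 953 (.red [.f 952 1 5] []) (.con 136 [4]) (.con 136 [2]) (.con 136 [4]) (.con 136
  [2]) .no) (.br 954 (.con 136 [2]) (.con 136 [2]) (.br 953 (.br 1082 (.br 1080 (.con 136 [1]) .no
  (.br 960 .no (.red [.f 824 1 3, .f 952 3 1] [(120, 136, [2]), (136, 136, [])]) (.br 961 (.red
  [.f 953 1 3] [(136, 136, [])]) (.con 136 [2, 3]) (.red [.f 960 3 5] []) .no .no .no) .no (.red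
  [.t 1080 3 2] [(136, 136, [])]) .no) (.con 136 [1]) .no .no) .no (.red [.f 954 3 1] [(136, 136,
  [])]) (.br 1080 (.con 136 [1]) .no (.br 960 .no (.red [.f 824 1 3, .f 952 3 1] [(120, 136, [2]),
  (136, 136, [])]) (.br 961 (.red [.f 953 1 3] [(136, 136, [])]) (.con 136 [2, 3]) (.red [.f 960 3
  5] []) .no .no .no) .no (.red [.t 1080 3 2] [(136, 136, [])]) .no) (.con 136 [1]) .no .no) .no
  .no) (.red [.f 824 1 5] []) (.con 136 [2]) (.br 1082 (.br 1080 (.con 136 [1]) .no (.br 1081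
  (.red [.f 1081 1 5] []) .no (.con 136 [1]) (.br 960 .no (.red [.f 824 1 3, .f 952 3 1] [(120,
  136, [2]), (136, 136, [])]) (.br 961 (.red [.f 945 3 1, .f 953 1 3] [(135, 136, [4]), (136, 136,
  [])]) (.con 136 [2, 3]) (.red [.f 960 3 5] []) .no .no .no) .no (.red [.f 945 3 1, .t 1080 3 2]
  [(135, 136, [4]), (136, 136, [])]) .no) .no .no) (.con 136 [1]) (.con 136 [1]) .no) .no (.red
  [.f 954 3 1] [(136, 136, [])]) (.br 1081 (.con 136 [4, 1]) .no (.con 136 [1]) (.red [.f 1073 3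
  5] []) .no (.con 136 [1])) .no (.br 1080 (.con 136 [1]) .no (.br 960 .no (.red [.f 824 1 3, .f
  952 3 1] [(120, 136, [2]), (136, 136, [])]) (.br 961 (.red [.t 961 1 4] [(136, 136, [])]) (.con
  136 [2, 3]) (.red [.f 960 3 5] []) .no .no .no) .no (.br 1089 (.br 1090 (.red [.f 1089 1 5] [])
  .no (.con 136 [3, 1]) .no .no .no) .no (.br 1090 (.br 825 .no (.br 826 .no (.red [.f 697 1 5]
  []) (.con 136 [2, 2]) (.br 946 (.red [.t 945 3 1, .t 1080 3 2] [(135, 136, [4]), (136, 136,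
  [])]) .no .no (.br 944 (.br 1074 (.br 1073 (.red [.f 1073 1 5] []) .no .no (.con 136 [4, 1, 4])
  .no .no) .no .no (.red [.f 938 3 1, .t 945 3 1, .t 1080 3 2] [(134, 136, [4, 4]), (135, 136,
  [4]), (136, 136, [])]) .no (.red [.f 1073 5 3, .f 945 3 1, .t 1080 3 2] [(135, 136, [4]), (136,
  136, [])])) (.red [.f 816 1 3, .f 944 3 5, .f 952 5 3, .f 952 3 1] [(119, 118, [3]), (136, 136,
  [])]) .no (.br 1096 (.br 1098 (.con 136 [3, 3]) (.br 1217 (.br 1216 (.red [.f 1216 1 5] []) .no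
  .no (.br 1209 (.red [.f 1209 1 3, .t 1217 4 2, .f 954 3 1] [(136, 136, []), (152, 136, [1]),
  (168, 136, [1, 1])]) .no .no (.br 1210 (.con 136 [1, 4, 1]) .no .no (.red [.f 1201 3 5] []) .no
  .no) (.red [.f 1081 5 1, .f 1082 1 3, .f 954 3 1] [(136, 136, []), (152, 136, [1])]) .no) .no
  .no) .no (.red [.f 1089 3 1, .f 1089 1 5, .f 1081 5 3, .f 954 3 1] [(136, 136, []), (153, 137,
  [1])]) (.red [.t 1217 4 2, .f 954 3 1] [(136, 136, []), (152, 136, [1])]) .no (.red [.t 1096 1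
  4, .f 1089 1 5, .f 1081 5 3, .f 954 3 1] [(136, 136, []), (153, 137, [1])])) (.con 136 [3, 3])
  .no .no .no) (.red [.t 1096 2 4, .t 961 1 4] [(136, 136, []), (137, 136, [3])]) (.br 1098 (.con
  136 [3, 3]) (.br 968 .no (.br 969 .no (.red [.f 840 1 5] []) (.con 136 [3, 2, 3]) .no .no .no)
  (.red [.f 968 3 1, .t 1096 2 4, .t 961 1 4] [(136, 136, []), (137, 136, [3]), (138, 136, [3,
  3])]) .no (.red [.f 960 5 3, .f 961 3 1, .t 961 1 4] [(136, 136, []), (137, 136, [3])]) .no)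
  (.con 136 [3, 3]) .no .no .no) .no .no .no) .no .no) .no .no) .no .no) (.red [.t 824 1 3, .f 952
  3 1] [(120, 136, [2]), (136, 136, [])]) (.red [.f 817 3 1, .f 824 1 5, .f 952 5 3, .f 952 3 1]
  [(119, 120, [4]), (136, 136, [])]) (.br 946 (.red [.t 945 3 1, .t 1080 3 2] [(135, 136, [4]),
  (136, 136, [])]) (.red [.t 945 3 2, .f 824 1 5, .f 952 5 3, .f 952 3 1] [(119, 118, [3]), (136,
  136, [])]) .no (.br 944 (.br 1074 (.br 1073 (.red [.f 1073 1 5] []) .no .no (.con 136 [4, 1, 4])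
  .no .no) .no .no (.red [.f 938 3 1, .t 945 3 1, .t 1080 3 2] [(134, 136, [4, 4]), (135, 136,
  [4]), (136, 136, [])]) .no (.red [.f 1073 5 3, .f 945 3 1, .t 1080 3 2] [(135, 136, [4]), (136,
  136, [])])) (.red [.f 816 1 3, .f 944 3 5, .f 952 5 3, .f 952 3 1] [(119, 118, [3]), (136, 136,
  [])]) .no (.br 1096 (.br 1098 (.con 136 [3, 3]) (.br 1217 (.br 1216 (.red [.f 1216 1 5] []) .no
  .no (.br 1209 (.red [.f 1209 1 3, .t 1217 4 2, .f 954 3 1] [(136, 136, []), (152, 136, [1]),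
  (168, 136, [1, 1])]) .no .no (.br 1210 (.con 136 [1, 4, 1]) .no .no (.red [.f 1201 3 5] []) .no
  .no) (.red [.f 1081 5 1, .f 1082 1 3, .f 954 3 1] [(136, 136, []), (152, 136, [1])]) .no) .no
  .no) .no (.red [.f 1089 3 1, .f 1089 1 5, .f 1081 5 3, .f 954 3 1] [(136, 136, []), (153, 137,
  [1])]) (.red [.t 1217 4 2, .f 954 3 1] [(136, 136, []), (152, 136, [1])]) .no (.red [.t 1096 1
  4, .f 1089 1 5, .f 1081 5 3, .f 954 3 1] [(136, 136, []), (153, 137, [1])])) (.con 136 [3, 3])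
  .no .no .no) (.red [.t 1096 2 4, .t 961 1 4] [(136, 136, []), (137, 136, [3])]) (.br 1098 (.con
  136 [3, 3]) (.br 968 .no (.br 969 .no (.red [.f 840 1 5] []) (.con 136 [3, 2, 3]) .no .no .no)
  (.red [.f 968 3 1, .t 1096 2 4, .t 961 1 4] [(136, 136, []), (137, 136, [3]), (138, 136, [3,
  3])]) .no (.red [.f 960 5 3, .f 961 3 1, .t 961 1 4] [(136, 136, []), (137, 136, [3])]) .no)
  (.con 136 [3, 3]) .no .no .no) .no .no .no) .no .no) .no .no) .no) .no (.red [.f 1089 3 5] [])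
  .no .no .no) .no (.red [.f 1081 5 3, .f 954 3 1] [(136, 136, [])]) .no) .no) (.con 136 [1]) .no
  .no)) .no .no) (.con 136 [2]) .no (.con 136 [2])) (.br 1080 (.br 1082 (.con 136 [1]) (.con 136
  [1]) (.br 1081 (.red [.f 1080 1 5] []) (.br 1088 (.red [.f 1080 1 3, .f 952 3 1] [(136, 136,
  []), (152, 136, [1])]) .no (.br 1089 (.con 136 [3, 1]) (.red [.f 953 1 3] [(136, 136, [])])
  (.red [.f 1088 3 5] []) .no .no .no) .no (.red [.t 952 3 1] [(136, 136, [])]) .no) (.con 136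
  [1]) (.br 1088 (.red [.f 1080 1 3, .f 952 3 1] [(136, 136, []), (152, 136, [1])]) .no (.br 1089
  (.con 136 [3, 1]) (.br 953 .no (.br 954 .no (.red [.f 825 1 5] []) (.red [.f 954 3 1] [(136,
  136, [])]) (.con 136 [2, 4]) .no .no) .no (.red [.f 945 3 1, .f 953 1 3] [(135, 136, [4]), (136,
  136, [])]) (.red [.t 1089 2 4] [(136, 136, [])]) .no) (.red [.f 1088 3 5] []) .no .no .no) .no
  (.br 953 .no (.br 954 .no (.red [.f 825 1 5] []) (.red [.f 954 3 1] [(136, 136, [])]) (.con 136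
  [2, 4]) .no .no) (.red [.f 952 3 5] []) (.red [.f 945 3 1, .t 952 3 1] [(135, 136, [4]), (136,
  136, [])]) (.br 961 .no (.br 962 .no (.red [.f 833 1 5] []) (.con 136 [2, 3]) .no .no .no) (.br
  962 .no (.br 833 .no (.br 832 .no (.red [.f 704 1 5] []) (.br 968 (.red [.t 968 1 4, .t 1089 2
  4] [(136, 136, []), (137, 136, [3])]) .no (.br 970 (.br 1096 (.br 1097 (.red [.f 1096 1 5] [])
  .no (.con 136 [3, 3, 1]) .no .no .no) .no (.red [.f 968 3 1, .t 968 1 4, .t 1089 2 4] [(136,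
  136, []), (137, 136, [3]), (138, 136, [3, 3])]) .no (.red [.f 1088 5 3, .f 961 3 1, .t 1089 2 4]
  [(136, 136, []), (137, 136, [3])]) .no) (.con 136 [3, 3]) (.con 136 [3, 3]) .no .no .no) .no .no
  .no) (.con 136 [2, 2]) .no .no) (.red [.f 833 3 1, .f 833 1 5, .f 953 5 3, .f 954 3 1] [(121,
  120, [3]), (136, 136, [])]) (.red [.t 833 4 1, .f 954 3 1] [(120, 136, [2]), (136, 136, [])])
  .no (.br 968 (.red [.t 968 1 4, .t 1089 2 4] [(136, 136, []), (137, 136, [3])]) (.red [.t 968 2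
  4, .f 833 1 5, .f 953 5 3, .f 954 3 1] [(121, 104, [3, 1]), (136, 136, [])]) (.br 970 (.br 1096
  (.br 1097 (.red [.f 1096 1 5] []) .no (.con 136 [3, 3, 1]) .no .no .no) .no (.red [.f 968 3 1,
  .t 968 1 4, .t 1089 2 4] [(136, 136, []), (137, 136, [3]), (138, 136, [3, 3])]) .no (.red [.f
  1088 5 3, .f 961 3 1, .t 1089 2 4] [(136, 136, []), (137, 136, [3])]) .no) (.con 136 [3, 3])
  (.con 136 [3, 3]) .no .no .no) .no .no .no)) (.red [.f 961 3 5] []) .no .no .no) .no (.red [.f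
  953 5 3, .f 954 3 1] [(136, 136, [])]) .no) .no) .no) .no .no) (.con 136 [1]) .no (.con 136
  [1])) .no (.red [.f 952 3 1] [(136, 136, [])]) (.br 1081 (.con 136 [4, 1]) (.br 1082 (.con 136
  [1]) (.con 136 [1]) (.br 954 .no (.br 962 .no (.red [.f 826 1 3, .f 954 3 1] [(120, 136, [2]),
  (136, 136, [])]) (.br 961 (.red [.f 953 1 3] [(136, 136, [])]) (.con 136 [2, 3]) (.red [.f 961 3
  5] []) .no .no .no) .no .no (.red [.t 1081 2 3] [(136, 136, [])])) (.red [.f 954 3 1] [(136,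
  136, [])]) (.br 961 (.red [.f 953 1 3] [(136, 136, [])]) (.br 962 .no (.red [.f 833 1 5] [])
  (.con 136 [2, 3]) .no .no .no) (.br 962 .no (.br 1089 (.br 1088 (.red [.f 1088 1 5] []) .no
  (.con 136 [3, 1]) .no .no .no) .no (.red [.f 961 3 1, .f 953 1 3] [(136, 136, []), (137, 136,
  [3])]) .no .no (.red [.t 952 3 1] [(136, 136, [])])) (.red [.f 961 3 5] []) .no .no .no) .no
  (.red [.t 1081 2 3] [(136, 136, [])]) .no) .no .no) (.con 136 [1]) .no .no) (.con 136 [1]) (.red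
  [.f 1072 3 5] []) (.con 136 [1]) .no) (.br 1082 (.con 136 [1]) (.con 136 [4]) (.br 1088 (.br
  1089 (.red [.f 1088 1 5] []) (.red [.t 960 4 1] [(136, 136, [])]) (.br 961 .no (.br 962 .no
  (.red [.f 833 1 5] []) (.con 136 [2, 3]) (.red [.f 954 3 1] [(136, 136, [])]) .no .no) (.red [.f
  961 3 1, .t 960 4 1] [(136, 136, []), (137, 136, [3])]) (.red [.f 952 3 5] []) (.br 953 .no (.br
  954 .no (.red [.f 825 1 5] []) .no (.con 136 [2, 4]) .no .no) .no (.br 954 .no (.br 825 .no (.br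
  824 .no (.red [.f 696 1 5] []) (.con 136 [2, 2]) (.br 944 (.red [.t 944 1 3, .t 1081 2 3] [(135,
  136, [4]), (136, 136, [])]) .no .no (.br 946 (.br 1072 (.br 1073 (.red [.f 1072 1 5] []) .no .no
  (.con 136 [4, 1, 4]) .no .no) .no .no (.red [.f 936 3 1, .t 944 1 3, .t 1081 2 3] [(134, 136,
  [4, 4]), (135, 136, [4]), (136, 136, [])]) (.red [.f 1072 5 3, .f 945 3 1, .t 1081 2 3] [(135,
  136, [4]), (136, 136, [])]) .no) (.red [.f 818 1 3, .f 945 3 5, .f 953 5 3, .f 954 3 1] [(119,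
  118, [3]), (136, 136, [])]) .no (.br 1096 (.red [.f 1088 1 3, .f 1088 3 5, .f 1080 5 3, .f 952 3
  1] [(136, 136, []), (153, 137, [1])]) (.br 969 .no (.br 970 (.red [.t 1097 4 2, .t 960 4 1]
  [(136, 136, []), (137, 136, [3])]) (.red [.f 841 1 5] []) (.br 1098 (.br 1217 (.br 1218 (.red
  [.f 1217 1 5] []) .no .no (.br 1209 (.red [.f 1209 1 3, .t 1216 2 4, .f 952 3 1] [(136, 136,
  []), (152, 136, [1]), (168, 136, [1, 1])]) .no .no (.br 1208 (.con 136 [1, 4, 1]) .no .no (.red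
  [.f 1200 3 5] []) .no .no) .no (.red [.f 1080 5 1, .f 1080 1 3, .f 952 3 1] [(136, 136, []),
  (152, 136, [1])])) .no .no) .no (.red [.f 1089 3 1, .f 1088 1 5, .f 1080 5 3, .f 952 3 1] [(136,
  136, []), (153, 137, [1])]) (.red [.t 1216 2 4, .f 952 3 1] [(136, 136, []), (152, 136, [1])])
  (.red [.t 1097 4 1, .f 1088 1 5, .f 1080 5 3, .f 952 3 1] [(136, 136, []), (153, 137, [1])])
  .no) .no (.red [.f 970 3 1, .t 1097 4 2, .t 960 4 1] [(136, 136, []), (137, 136, [3]), (138,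
  136, [3, 3])]) .no .no .no) .no .no .no) (.br 970 (.red [.t 1097 4 2, .t 960 4 1] [(136, 136,
  []), (137, 136, [3])]) (.con 136 [3, 2, 3]) (.red [.f 969 3 5] []) .no .no .no) .no (.red [.f
  961 5 3, .f 961 3 1, .t 960 4 1] [(136, 136, []), (137, 136, [3])]) .no) (.br 1098 (.con 136 [3,
  3]) (.red [.t 1097 4 2, .t 960 4 1] [(136, 136, []), (137, 136, [3])]) (.con 136 [3, 3]) .no .no
  .no) .no .no .no) .no .no) .no .no) .no .no) (.red [.t 825 3 1, .f 954 3 1] [(120, 136, [2]),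
  (136, 136, [])]) (.red [.f 817 3 1, .f 825 1 5, .f 953 5 3, .f 954 3 1] [(119, 120, [4]), (136,
  136, [])]) .no (.br 944 (.red [.t 944 1 3, .t 1081 2 3] [(135, 136, [4]), (136, 136, [])]) (.red
  [.t 944 2 3, .f 825 1 5, .f 953 5 3, .f 954 3 1] [(119, 118, [3]), (136, 136, [])]) .no (.br 946
  (.br 1072 (.br 1073 (.red [.f 1072 1 5] []) .no .no (.con 136 [4, 1, 4]) .no .no) .no .no (.red
  [.f 936 3 1, .t 944 1 3, .t 1081 2 3] [(134, 136, [4, 4]), (135, 136, [4]), (136, 136, [])])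
  (.red [.f 1072 5 3, .f 945 3 1, .t 1081 2 3] [(135, 136, [4]), (136, 136, [])]) .no) (.red [.f
  818 1 3, .f 945 3 5, .f 953 5 3, .f 954 3 1] [(119, 118, [3]), (136, 136, [])]) .no (.br 1096
  (.red [.f 1088 1 3, .f 1088 3 5, .f 1080 5 3, .f 952 3 1] [(136, 136, []), (153, 137, [1])])
  (.br 969 .no (.br 970 (.red [.t 1097 4 2, .t 960 4 1] [(136, 136, []), (137, 136, [3])]) (.red
  [.f 841 1 5] []) (.br 1098 (.br 1217 (.br 1218 (.red [.f 1217 1 5] []) .no .no (.br 1209 (.red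
  [.f 1209 1 3, .t 1216 2 4, .f 952 3 1] [(136, 136, []), (152, 136, [1]), (168, 136, [1, 1])])
  .no .no (.br 1208 (.con 136 [1, 4, 1]) .no .no (.red [.f 1200 3 5] []) .no .no) .no (.red [.f
  1080 5 1, .f 1080 1 3, .f 952 3 1] [(136, 136, []), (152, 136, [1])])) .no .no) .no (.red [.f
  1089 3 1, .f 1088 1 5, .f 1080 5 3, .f 952 3 1] [(136, 136, []), (153, 137, [1])]) (.red [.t
  1216 2 4, .f 952 3 1] [(136, 136, []), (152, 136, [1])]) (.red [.t 1097 4 1, .f 1088 1 5, .f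
  1080 5 3, .f 952 3 1] [(136, 136, []), (153, 137, [1])]) .no) .no (.red [.f 970 3 1, .t 1097 4
  2, .t 960 4 1] [(136, 136, []), (137, 136, [3]), (138, 136, [3, 3])]) .no .no .no) .no .no .no)
  (.br 970 (.red [.t 1097 4 2, .t 960 4 1] [(136, 136, []), (137, 136, [3])]) (.con 136 [3, 2, 3])
  (.red [.f 969 3 5] []) .no .no .no) .no (.red [.f 961 5 3, .f 961 3 1, .t 960 4 1] [(136, 136,
  []), (137, 136, [3])]) .no) (.br 1098 (.con 136 [3, 3]) (.red [.t 1097 4 2, .t 960 4 1] [(136,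
  136, []), (137, 136, [3])]) (.con 136 [3, 3]) .no .no .no) .no .no .no) .no .no) .no .no)) .no
  (.red [.f 945 3 5] []) .no .no) (.red [.f 953 5 3, .f 954 3 1] [(136, 136, [])]) .no) .no) .no
  .no .no) .no (.br 1089 (.con 136 [3, 1]) (.red [.t 960 4 1] [(136, 136, [])]) (.red [.f 1088 3
  5] []) .no .no .no) .no (.red [.f 1080 5 3, .f 952 3 1] [(136, 136, [])]) .no) (.con 136 [1])
  .no .no) .no) (.br 953 (.br 954 (.con 136 [2]) (.con 136 [2]) (.br 1082 (.br 1080 (.con 136 [1])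
  .no (.br 1090 (.red [.f 1082 1 3, .f 954 3 1] [(136, 136, []), (152, 136, [1])]) .no (.br 1089
  (.con 136 [3, 1]) (.red [.f 953 1 3] [(136, 136, [])]) (.red [.f 1089 3 5] []) .no .no .no) .no
  .no (.red [.t 953 1 3] [(136, 136, [])])) (.con 136 [1]) .no .no) .no (.red [.f 954 3 1] [(136,
  136, [])]) (.br 1080 (.con 136 [1]) .no (.br 960 .no (.br 961 (.red [.f 953 1 3] [(136, 136,
  [])]) (.red [.f 832 1 5] []) (.br 1089 (.br 1090 (.red [.f 1089 1 5] []) .no (.con 136 [3, 1])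
  .no .no .no) .no (.red [.f 961 3 1, .f 953 1 3] [(136, 136, []), (137, 136, [3])]) .no (.red [.t
  953 1 3] [(136, 136, [])]) .no) .no .no .no) (.br 961 (.red [.f 953 1 3] [(136, 136, [])]) (.con
  136 [2, 3]) (.red [.f 960 3 5] []) .no .no .no) .no (.red [.t 1080 3 2] [(136, 136, [])]) .no)
  (.con 136 [1]) .no .no) .no .no) (.con 136 [2]) .no .no) (.con 136 [4, 2]) (.con 136 [2]) (.red
  [.f 944 3 5] []) (.con 136 [2]) .no) (.br 954 (.con 136 [2]) (.con 136 [2]) (.br 1082 (.br 1080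
  (.con 136 [1]) .no (.br 1081 (.red [.f 1081 1 5] []) .no (.con 136 [1]) (.br 960 .no (.br 961
  (.red [.t 1088 4 2] [(136, 136, [])]) (.red [.f 832 1 5] []) (.br 1089 (.br 1090 (.red [.f 1089
  1 5] []) .no (.con 136 [3, 1]) .no .no .no) .no (.red [.f 961 3 1, .t 1088 4 2] [(136, 136, []),
  (137, 136, [3])]) .no (.br 833 .no (.br 834 .no (.red [.f 705 1 5] []) (.br 970 (.red [.t 969 4
  1, .t 1088 4 2] [(136, 136, []), (137, 136, [3])]) .no (.br 968 (.br 1098 (.br 1097 (.red [.f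
  1097 1 5] []) .no (.con 136 [3, 3, 1]) .no .no .no) .no (.red [.f 970 3 1, .t 969 4 1, .t 1088 4
  2] [(136, 136, []), (137, 136, [3]), (138, 136, [3, 3])]) .no .no (.red [.f 1089 5 3, .f 961 3
  1, .t 1088 4 2] [(136, 136, []), (137, 136, [3])])) (.con 136 [3, 3]) (.con 136 [3, 3]) .no .no
  .no) .no .no .no) (.con 136 [2, 2]) .no .no) (.red [.f 833 3 1, .f 832 1 5, .f 952 5 3, .f 952 3
  1] [(121, 120, [3]), (136, 136, [])]) (.red [.t 832 1 4, .f 952 3 1] [(120, 136, [2]), (136,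
  136, [])]) (.br 970 (.red [.t 969 4 1, .t 1088 4 2] [(136, 136, []), (137, 136, [3])]) (.red [.t
  969 4 2, .f 832 1 5, .f 952 5 3, .f 952 3 1] [(121, 104, [3, 1]), (136, 136, [])]) (.br 968 (.br
  1098 (.br 1097 (.red [.f 1097 1 5] []) .no (.con 136 [3, 3, 1]) .no .no .no) .no (.red [.f 970 3
  1, .t 969 4 1, .t 1088 4 2] [(136, 136, []), (137, 136, [3]), (138, 136, [3, 3])]) .no .no (.red
  [.f 1089 5 3, .f 961 3 1, .t 1088 4 2] [(136, 136, []), (137, 136, [3])])) (.con 136 [3, 3])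
  (.con 136 [3, 3]) .no .no .no) .no .no .no) .no) .no) .no .no .no) (.br 961 (.red [.t 1088 4 2]
  [(136, 136, [])]) (.con 136 [2, 3]) (.red [.f 960 3 5] []) .no .no .no) .no (.red [.f 952 5 3,
  .f 952 3 1] [(136, 136, [])]) .no) .no .no) (.con 136 [1]) (.con 136 [1]) .no) .no (.red [.f 954
  3 1] [(136, 136, [])]) (.br 1081 (.con 136 [4, 1]) .no (.con 136 [1]) (.red [.f 1073 3 5] [])
  .no (.con 136 [1])) .no (.br 1080 (.con 136 [1]) .no (.br 960 .no (.br 961 (.red [.t 961 1 4]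
  [(136, 136, [])]) (.red [.f 832 1 5] []) (.br 1089 (.br 1090 (.red [.f 1089 1 5] []) .no (.con
  136 [3, 1]) .no .no .no) .no (.red [.f 961 3 1, .t 961 1 4] [(136, 136, []), (137, 136, [3])])
  .no (.red [.f 1081 5 3, .f 954 3 1] [(136, 136, [])]) .no) .no .no .no) (.br 961 (.red [.t 961 1
  4] [(136, 136, [])]) (.con 136 [2, 3]) (.red [.f 960 3 5] []) .no .no .no) .no (.red [.f 952 5
  3, .f 952 3 1] [(136, 136, [])]) .no) (.con 136 [1]) .no .no)) (.con 136 [2]) .no .no) .no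

theorem p9_ok : chk ⟨3, 0, 0, true, -9⟩ [] p9 = true := by decide +kernel

end Pool.Agent.FT3D
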