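import Pool.Agent.FT3D.Check

/-!
# Three levels: a decision tree (found by a computer search)
-/

namespace Pool.Agent.FT3D

def q4 : Tr :=
  .br 952 (.br 960 (.red [.f 952 1 3] [(136, 136, [])]) (.br 961 (.con 120 [3]) (.red [.f 832 1 5]
  []) (.con 120 [3]) (.con 120 [3]) (.con 120 [3]) .no) (.br 961 (.con 121 [1]) (.con 121 [1])
  (.red [.f 960 3 5] []) (.con 121 [1]) (.con 121 [1]) .no) .no (.br 962 (.br 1088 (.br 1089 (.red
  [.f 1088 1 5] []) .no (.con 137 [1]) (.con 152 [2]) .no .no) .no (.br 1089 (.con 153 [2]) .no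
  (.red [.f 1088 3 5] []) (.con 152 [2]) .no .no) .no (.red [.f 960 5 1, .f 952 1 3] [(136, 136,
  [])]) .no) (.con 120 [3]) (.con 121 [1]) (.con 136 [2]) .no .no) .no) (.br 953 (.con 120 [4])
  (.red [.f 824 1 5] []) (.con 120 [4]) (.con 120 [4]) (.con 120 [4]) .no) (.br 953 (.con 136 [2])
  (.con 136 [2]) (.red [.f 952 3 5] []) (.con 136 [2]) (.con 136 [2]) .no) (.br 953 (.con 119 [1])
  (.con 119 [1]) (.con 119 [1]) (.red [.f 944 3 5] []) (.con 119 [1]) .no) (.br 954 (.br 962 (.red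
  [.f 954 1 3] [(136, 136, [])]) (.br 961 (.con 120 [3]) (.red [.f 833 1 5] []) (.con 120 [3]) .no
  .no (.con 120 [3])) (.br 961 (.con 121 [1]) (.con 121 [1]) (.red [.f 961 3 5] []) .no .no (.con
  121 [1])) .no .no (.br 960 (.br 1080 (.br 1081 (.red [.f 1080 1 5] []) .no (.con 152 [2]) (.con
  135 [1]) .no .no) .no .no (.br 1081 (.con 151 [2]) .no (.con 151 [2]) (.red [.f 1072 3 5] [])
  .no .no) (.red [.f 952 5 1, .f 952 1 3] [(136, 136, [])]) .no) (.con 120 [3]) (.con 121 [1]) .no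
  .no .no)) (.con 120 [4]) (.con 136 [2]) (.con 119 [1]) .no .no) .no

theorem q4_ok : chk ⟨3, 1, 0, false, -4⟩ [] q4 = true := by decide +kernel

end Pool.Agent.FT3D
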