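import Pool.Agent.FT3D.Check

/-!
# Three levels: a decision tree (found by a computer search)
-/

namespace Pool.Agent.FT3D

def q6 : Tr :=
  .br 952 (.br 960 (.red [.f 952 1 3] [(136, 136, [])]) (.br 961 (.con 136 [2, 3]) (.red [.f 832 1
  5] []) (.con 136 [2, 3]) (.br 962 (.br 954 (.con 135 [3]) (.br 1081 (.br 1082 (.red [.f 1081 1
  5] []) .no .no (.br 1089 (.red [.f 1081 1 3, .f 953 3 1] [(136, 136, []), (152, 136, [1])]) .no
  (.br 1088 (.con 137 [1]) .no (.red [.f 1088 3 5] []) .no .no .no) .no .no (.red [.t 952 1 3]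
  [(136, 136, [])])) .no .no) .no (.red [.f 953 3 1] [(136, 136, [])]) (.br 1082 (.con 135 [1])
  .no .no (.red [.f 1073 3 5] []) .no .no) (.red [.t 961 4 1] [(136, 136, [])]) .no) .no (.br 1081
  (.br 1082 (.red [.f 1081 1 5] []) .no .no (.br 1089 (.red [.f 1081 1 3, .f 953 3 1] [(136, 136,
  []), (152, 136, [1])]) .no (.br 1088 (.con 137 [1]) .no (.red [.f 1088 3 5] []) .no .no .no) .no
  .no (.red [.t 952 1 3] [(136, 136, [])])) .no .no) .no (.red [.f 953 3 1] [(136, 136, [])]) (.br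
  1082 (.con 135 [1]) .no .no (.red [.f 1073 3 5] []) .no .no) (.red [.t 961 4 1] [(136, 136,
  [])]) .no) .no .no) (.con 120 [3]) (.con 120 [3, 1]) (.con 136 [2, 3]) .no .no) (.con 136 [2,
  3]) .no) (.br 962 (.br 961 (.con 136 [3]) (.br 953 (.red [.f 952 1 5] []) (.br 954 (.con 135 [2,
  3]) (.red [.f 825 1 5] []) .no (.br 1081 (.br 1082 (.red [.f 1081 1 5] []) .no .no (.br 1089
  (.red [.f 825 1 3, .f 1081 1 3, .f 953 3 1] [(120, 119, [3]), (136, 136, []), (152, 136, [1])])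
  .no (.br 1088 (.con 137 [1]) .no (.red [.f 1088 3 5] []) .no .no .no) .no .no (.red [.f 825 1 3,
  .t 952 1 3] [(120, 119, [3]), (136, 136, [])])) .no .no) .no (.red [.f 825 1 3, .f 953 3 1]
  [(120, 119, [3]), (136, 136, [])]) (.br 1082 (.con 135 [1]) .no .no (.red [.f 1073 3 5] []) .no
  .no) (.red [.f 825 1 3, .t 961 4 1] [(120, 119, [3]), (136, 136, [])]) .no) .no .no) .no (.br
  954 (.con 135 [2]) (.con 135 [2]) .no (.red [.f 945 3 5] []) .no .no) (.br 1081 (.br 1082 (.red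
  [.f 1081 1 5] []) .no .no (.br 1089 (.red [.f 1081 1 3, .t 1089 4 2] [(136, 136, []), (152, 136,
  [1])]) .no (.br 1088 (.con 137 [1]) .no (.red [.f 1088 3 5] []) .no .no .no) .no .no (.br 832
  .no (.con 105 [4]) (.red [.f 832 3 1, .f 832 1 5, .f 960 5 1, .f 952 1 3] [(121, 105, [1]),
  (136, 136, [])]) (.br 834 .no (.con 105 [4]) (.br 969 (.red [.t 968 4 1, .f 952 1 3, .f 824 3 1,
  .f 832 1 5, .f 960 5 3, .f 961 3 1] [(120, 104, [1]), (136, 136, [])]) (.red [.f 833 1 3, .f 960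
  3 5, .f 960 5 1, .f 952 1 3] [(121, 105, [1]), (136, 136, [])]) (.br 970 (.con 122 [1]) .no
  (.red [.f 969 3 5] []) .no .no .no) .no (.red [.t 833 1 3, .f 960 3 5, .f 960 5 1, .f 952 1 3]
  [(121, 105, [1]), (136, 136, [])]) .no) (.con 104 [1]) .no .no) .no .no)) .no .no) .no (.red [.t
  1089 4 2] [(136, 136, [])]) (.br 1082 (.con 135 [1]) .no .no (.red [.f 1073 3 5] []) .no .no)
  (.red [.f 953 5 1, .f 954 1 3] [(136, 136, [])]) .no) .no) (.red [.f 960 3 5] []) (.br 954 (.con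
  135 [3]) (.br 1081 (.br 1082 (.red [.f 1081 1 5] []) .no .no (.br 1089 (.red [.f 1081 1 3, .f
  953 3 1] [(136, 136, []), (152, 136, [1])]) .no (.br 1088 (.con 137 [1]) .no (.red [.f 1088 3 5]
  []) .no .no .no) .no .no (.red [.t 952 1 3] [(136, 136, [])])) .no .no) .no (.red [.f 953 3 1]
  [(136, 136, [])]) (.br 1082 (.con 135 [1]) .no .no (.red [.f 1073 3 5] []) .no .no) (.red [.t
  961 4 1] [(136, 136, [])]) .no) .no (.br 1081 (.br 1082 (.red [.f 1081 1 5] []) .no .no (.br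
  1089 (.red [.f 1081 1 3, .f 953 3 1] [(136, 136, []), (152, 136, [1])]) .no (.br 1088 (.con 137
  [1]) .no (.red [.f 1088 3 5] []) .no .no .no) .no .no (.red [.t 952 1 3] [(136, 136, [])])) .no
  .no) .no (.red [.f 953 3 1] [(136, 136, [])]) (.br 1082 (.con 135 [1]) .no .no (.red [.f 1073 3
  5] []) .no .no) (.red [.t 961 4 1] [(136, 136, [])]) .no) .no .no) .no .no) (.con 136 [3]) (.con
  136 [3]) (.con 136 [3]) .no (.con 136 [3])) .no (.br 962 (.br 1088 (.br 1089 (.red [.f 1088 1 5]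
  []) .no (.con 137 [1]) (.red [.t 1080 2 3] [(136, 136, [])]) .no .no) .no (.br 1089 (.br 1081
  (.red [.f 1081 1 3, .t 1080 2 3] [(136, 136, []), (152, 136, [1])]) (.red [.f 952 1 5] []) .no
  (.br 1082 (.con 135 [1]) (.con 135 [1]) .no (.red [.f 1073 3 5] []) .no .no) (.br 953 .no (.br
  954 .no (.red [.f 825 1 5] []) .no (.br 824 .no (.con 103 [3]) (.red [.t 824 3 1, .t 961 4 1]
  [(120, 104, [1]), (136, 136, [])]) (.br 826 .no (.con 103 [3]) (.br 945 (.red [.t 945 1 3, .f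
  954 1 3, .f 826 3 1, .f 825 1 5, .f 945 5 3, .f 945 3 1] [(120, 104, [1]), (136, 136, [])])
  (.red [.f 817 1 3, .f 945 3 5, .f 953 5 1, .f 954 1 3] [(119, 103, [1]), (136, 136, [])]) .no
  (.br 944 (.br 1073 (.br 1074 (.red [.f 1073 1 5] []) .no .no (.con 118 [1, 1]) .no .no) .no .no
  (.red [.f 937 3 1, .f 944 1 3, .t 945 1 3, .f 954 1 3] [(134, 118, [1]), (136, 136, [])]) (.red
  [.f 944 1 3, .f 1073 5 3, .f 946 3 1, .f 954 1 3] [(136, 136, [])]) .no) .no .no (.red [.f 936 3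
  5] []) .no .no) .no (.red [.t 824 4 1, .f 945 3 5, .f 953 5 1, .f 954 1 3] [(119, 103, [1]),
  (136, 136, [])])) (.con 119 [2]) .no .no) .no .no) .no .no) .no (.br 954 .no (.con 135 [2]) .no
  (.red [.f 945 3 5] []) .no .no) (.red [.f 953 5 1, .f 954 1 3] [(136, 136, [])]) .no) .no) .no
  (.red [.f 1088 3 5] []) (.red [.t 1080 2 3] [(136, 136, [])]) .no .no) .no (.red [.f 960 5 1, .f
  952 1 3] [(136, 136, [])]) .no) (.con 136 [2, 3]) (.con 136 [3]) (.con 136 [2]) .no .no) .no)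
  (.br 953 (.con 136 [2, 4]) (.red [.f 824 1 5] []) (.br 954 (.br 962 (.red [.f 954 1 3] [(136,
  136, [])]) (.br 960 (.br 1080 (.br 1081 (.red [.f 1080 1 5] []) .no (.red [.f 953 3 1] [(136,
  136, [])]) (.con 135 [1]) .no .no) .no .no (.br 1081 (.br 1089 (.red [.f 1081 1 3, .f 953 3 1]
  [(136, 136, []), (152, 136, [1])]) .no (.br 1090 (.con 137 [1]) .no (.red [.f 1089 3 5] []) .no
  .no .no) .no (.red [.t 953 3 1] [(136, 136, [])]) .no) .no (.red [.f 953 3 1] [(136, 136, [])])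
  (.red [.f 1072 3 5] []) .no .no) (.red [.t 960 1 4] [(136, 136, [])]) .no) (.con 120 [3]) (.con
  120 [3, 1]) .no .no .no) (.br 960 (.br 1080 (.br 1081 (.red [.f 1080 1 5] []) .no (.red [.f 953
  3 1] [(136, 136, [])]) (.con 135 [1]) .no .no) .no .no (.br 1081 (.br 1089 (.red [.f 1081 1 3,
  .f 953 3 1] [(136, 136, []), (152, 136, [1])]) .no (.br 1090 (.con 137 [1]) .no (.red [.f 1089 3
  5] []) .no .no .no) .no (.red [.t 953 3 1] [(136, 136, [])]) .no) .no (.red [.f 953 3 1] [(136,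
  136, [])]) (.red [.f 1072 3 5] []) .no .no) (.red [.t 960 1 4] [(136, 136, [])]) .no) (.con 120
  [3, 1]) (.con 121 [1]) .no .no .no) .no .no .no) (.con 120 [4]) (.con 136 [2, 4]) (.con 120 [4,
  1]) .no .no) (.con 136 [2, 4]) (.con 136 [2, 4]) .no) (.br 953 (.con 136 [2]) (.con 136 [2])
  (.red [.f 952 3 5] []) (.con 136 [2]) (.con 136 [2]) .no) (.br 954 (.br 953 (.con 136 [4]) (.br
  962 (.red [.f 954 1 3] [(136, 136, [])]) (.br 961 (.con 119 [3, 3]) (.red [.f 833 1 5] []) (.con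
  119 [3, 3]) .no .no (.con 119 [3, 3])) (.br 960 (.br 961 (.con 119 [3, 3, 1]) (.br 1080 (.br
  1081 (.red [.f 1080 1 5] []) .no (.red [.f 825 1 3, .f 953 3 1] [(120, 119, [3]), (136, 136,
  [])]) (.con 135 [1]) .no .no) .no .no (.br 1081 (.br 1089 (.red [.f 825 1 3, .f 1081 1 3, .f 953
  3 1] [(120, 119, [3]), (136, 136, []), (152, 136, [1])]) .no (.br 1090 (.con 137 [1]) .no (.red
  [.f 1089 3 5] []) .no .no .no) .no (.red [.f 825 1 3, .t 953 3 1] [(120, 119, [3]), (136, 136,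
  [])]) .no) .no (.red [.f 825 1 3, .f 953 3 1] [(120, 119, [3]), (136, 136, [])]) (.red [.f 1072
  3 5] []) .no .no) (.red [.f 825 1 3, .t 960 1 4] [(120, 119, [3]), (136, 136, [])]) .no) (.red
  [.f 961 3 5] []) .no .no .no) (.con 136 [3]) (.con 136 [3]) .no (.con 119 [3, 3, 1]) .no) .no
  .no (.br 960 (.br 1089 (.br 1090 (.red [.f 1089 1 5] []) .no (.br 1081 (.red [.f 1081 1 3, .t
  1081 3 2] [(136, 136, []), (152, 136, [1])]) .no .no (.br 1080 (.con 135 [1]) .no .no (.red [.f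
  1072 3 5] []) .no .no) .no (.br 824 .no (.con 103 [3]) (.br 826 .no (.con 103 [3]) (.con 104
  [1]) (.br 945 (.red [.t 944 3 1, .f 952 1 3, .f 824 3 1, .f 824 1 5, .f 944 5 3, .f 945 3 1]
  [(120, 104, [1]), (136, 136, [])]) (.red [.f 817 1 3, .f 944 3 5, .f 952 5 1, .f 952 1 3] [(119,
  103, [1]), (136, 136, [])]) .no (.br 946 (.br 1073 (.br 1072 (.red [.f 1072 1 5] []) .no .no
  (.con 118 [1, 1]) .no .no) .no .no (.red [.f 937 3 1, .t 944 3 1, .f 946 1 3, .f 952 1 3] [(134,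
  118, [1]), (136, 136, [])]) .no (.red [.f 946 1 3, .f 1072 5 3, .f 944 3 1, .f 952 1 3] [(136,
  136, [])])) .no .no (.red [.f 937 3 5] []) .no .no) (.red [.t 825 1 4, .f 944 3 5, .f 952 5 1,
  .f 952 1 3] [(119, 103, [1]), (136, 136, [])]) .no) .no .no) (.red [.f 816 3 1, .f 824 1 5, .f
  952 5 1, .f 952 1 3] [(119, 103, [1]), (136, 136, [])]) .no .no)) .no .no .no) .no (.br 1090
  (.con 137 [1]) .no (.red [.f 1089 3 5] []) .no .no .no) (.red [.t 1081 3 2] [(136, 136, [])])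
  (.red [.f 961 5 1, .f 954 1 3] [(136, 136, [])]) .no) (.con 119 [3, 3]) (.con 119 [3, 3, 1]) .no
  .no .no)) (.br 962 (.red [.f 954 1 3] [(136, 136, [])]) (.br 960 (.br 1080 (.br 1081 (.red [.f
  1080 1 5] []) .no (.red [.f 953 3 1] [(136, 136, [])]) (.con 135 [1]) .no .no) .no .no (.br 1081
  (.br 1089 (.red [.f 1081 1 3, .f 953 3 1] [(136, 136, []), (152, 136, [1])]) .no (.br 1090 (.con
  137 [1]) .no (.red [.f 1089 3 5] []) .no .no .no) .no (.red [.t 953 3 1] [(136, 136, [])]) .no)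
  .no (.red [.f 953 3 1] [(136, 136, [])]) (.red [.f 1072 3 5] []) .no .no) (.red [.t 960 1 4]
  [(136, 136, [])]) .no) (.con 120 [3]) (.con 120 [3, 1]) .no .no .no) (.br 960 (.br 1080 (.br
  1081 (.red [.f 1080 1 5] []) .no (.red [.f 953 3 1] [(136, 136, [])]) (.con 135 [1]) .no .no)
  .no .no (.br 1081 (.br 1089 (.red [.f 1081 1 3, .f 953 3 1] [(136, 136, []), (152, 136, [1])])
  .no (.br 1090 (.con 137 [1]) .no (.red [.f 1089 3 5] []) .no .no .no) .no (.red [.t 953 3 1]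
  [(136, 136, [])]) .no) .no (.red [.f 953 3 1] [(136, 136, [])]) (.red [.f 1072 3 5] []) .no .no)
  (.red [.t 960 1 4] [(136, 136, [])]) .no) (.con 120 [3, 1]) (.con 121 [1]) .no .no .no) .no .no
  .no) (.red [.f 944 3 5] []) .no .no) (.con 136 [4]) (.con 136 [4]) (.con 136 [4]) .no (.con 136
  [4])) (.br 954 (.br 962 (.red [.f 954 1 3] [(136, 136, [])]) (.br 961 (.con 136 [2, 3]) (.red
  [.f 833 1 5] []) (.con 136 [2, 3]) .no .no (.con 136 [2, 3])) (.br 960 (.br 961 (.con 136 [3])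
  (.br 1080 (.br 1081 (.red [.f 1080 1 5] []) .no (.red [.t 1088 2 4] [(136, 136, [])]) (.con 135
  [1]) .no .no) .no .no (.br 1081 (.br 1089 (.red [.f 1081 1 3, .t 1088 2 4] [(136, 136, []),
  (152, 136, [1])]) .no (.br 1090 (.con 137 [1]) .no (.red [.f 1089 3 5] []) .no .no .no) .no (.br
  832 .no (.con 105 [4]) (.br 834 .no (.con 105 [4]) (.con 121 [2]) (.br 969 (.red [.t 969 1 4, .f
  954 1 3, .f 826 3 1, .f 833 1 5, .f 961 5 3, .f 961 3 1] [(120, 104, [1]), (136, 136, [])])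
  (.red [.f 833 1 3, .f 961 3 5, .f 961 5 1, .f 954 1 3] [(121, 105, [1]), (136, 136, [])]) (.br
  968 (.con 122 [1]) .no (.red [.f 968 3 5] []) .no .no .no) .no .no (.red [.t 832 3 1, .f 961 3
  5, .f 961 5 1, .f 954 1 3] [(121, 105, [1]), (136, 136, [])])) .no .no) (.red [.t 832 4 1, .t
  953 3 1] [(120, 104, [1]), (136, 136, [])]) .no .no) .no) .no (.red [.t 1088 2 4] [(136, 136,
  [])]) (.red [.f 1072 3 5] []) .no .no) (.red [.f 952 5 1, .f 952 1 3] [(136, 136, [])]) .no)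
  (.red [.f 961 3 5] []) .no .no .no) (.con 136 [3]) (.con 136 [3]) .no (.con 136 [3]) .no) .no
  .no (.br 960 (.br 1080 (.br 1081 (.red [.f 1080 1 5] []) .no (.red [.t 1081 3 2] [(136, 136,
  [])]) (.con 135 [1]) .no .no) .no .no (.br 1081 (.br 1089 (.red [.f 1081 1 3, .t 1081 3 2]
  [(136, 136, []), (152, 136, [1])]) .no (.br 1090 (.con 137 [1]) .no (.red [.f 1089 3 5] []) .no
  .no .no) .no (.red [.f 961 5 1, .f 954 1 3] [(136, 136, [])]) .no) .no (.red [.t 1081 3 2]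
  [(136, 136, [])]) (.red [.f 1072 3 5] []) .no .no) (.red [.f 952 5 1, .f 952 1 3] [(136, 136,
  [])]) .no) (.con 136 [2, 3]) (.con 136 [3]) .no .no .no)) (.con 136 [2, 4]) (.con 136 [2]) (.con
  136 [4]) .no .no) .no

theorem q6_ok : chk ⟨3, 1, 0, false, -6⟩ [] q6 = true := by decide +kernel

end Pool.Agent.FT3D
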