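import Pool.Agent.FT3D.Check

/-!
# Three levels: a decision tree (found by a computer search)
-/

namespace Pool.Agent.FT3D

def q8 : Tr :=
  .br 952 (.br 960 (.red [.f 952 1 3] [(136, 136, [])]) (.br 961 (.con 136 [2, 3]) (.red [.f 832 1
  5] []) (.con 136 [2, 3]) (.br 962 (.br 954 (.red [.f 954 1 3] [(136, 136, [])]) (.br 1081 (.br
  1082 (.red [.f 1081 1 5] []) .no .no (.br 1089 (.red [.f 1081 1 3, .f 953 3 1] [(136, 136, []),
  (152, 136, [1])]) .no (.br 1088 (.con 120 [3, 1, 1]) .no (.red [.f 1088 3 5] []) .no .no .no)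
  .no .no (.red [.t 952 1 3] [(136, 136, [])])) .no .no) .no (.red [.f 953 3 1] [(136, 136, [])])
  (.br 1082 (.con 136 [4, 1]) .no .no (.red [.f 1073 3 5] []) .no .no) (.red [.t 961 4 1] [(136,
  136, [])]) .no) .no (.br 1082 (.br 1081 (.red [.f 1081 1 5] []) .no (.red [.f 953 3 1] [(136,
  136, [])]) (.con 119 [1, 1]) .no .no) .no .no (.red [.f 946 3 1, .f 954 1 3] [(135, 119, [1]),
  (136, 136, [])]) .no (.red [.t 961 4 1] [(136, 136, [])])) .no .no) (.con 120 [3]) (.con 120 [3,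
  1]) (.con 136 [2, 3]) .no .no) (.con 136 [2, 3]) .no) (.br 962 (.br 961 (.con 136 [3]) (.br 1088
  (.br 1089 (.red [.f 1088 1 5] []) .no (.con 121 [1, 1]) (.br 953 .no (.red [.f 825 1 3, .f 953 3
  1] [(120, 121, [4]), (136, 136, [])]) .no (.br 954 (.red [.f 954 1 3] [(136, 136, [])]) (.con
  136 [2, 4]) .no (.red [.f 945 3 5] []) .no .no) (.red [.t 1089 4 2] [(136, 136, [])]) .no) .no
  .no) .no (.red [.f 960 3 1, .f 952 1 3] [(136, 136, []), (137, 121, [1])]) .no (.br 953 (.red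
  [.f 952 1 5] []) (.red [.f 825 1 3, .t 952 1 3] [(120, 121, [4]), (136, 136, [])]) .no (.br 954
  (.red [.f 954 1 3] [(136, 136, [])]) (.con 136 [2, 4]) .no (.red [.f 945 3 5] []) .no .no) (.br
  1081 (.br 1082 (.red [.f 1081 1 5] []) .no .no (.br 832 .no (.br 834 .no (.con 105 [4]) (.con
  121 [2, 4]) (.red [.t 833 1 4, .t 952 1 3] [(120, 121, [4]), (136, 136, [])]) .no .no) (.red [.f
  832 3 1, .f 832 1 5, .f 960 5 1, .f 952 1 3] [(121, 105, [1]), (136, 136, [])]) (.br 825 .no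
  (.br 826 .no (.red [.f 697 1 5] []) (.red [.t 833 1 4, .t 952 1 3] [(120, 104, [1]), (136, 136,
  [])]) (.con 136 [2, 2, 4]) .no .no) .no (.br 826 .no (.br 834 .no (.red [.f 698 1 3, .t 833 1 4,
  .t 952 1 3] [(104, 103, [3]), (120, 103, [3, 1]), (136, 136, [])]) (.br 969 (.red [.t 968 4 1,
  .f 952 1 3] [(136, 136, []), (137, 121, [1])]) (.red [.f 833 1 3, .f 960 3 5, .f 960 5 1, .f 952
  1 3] [(121, 105, [1]), (136, 136, [])]) (.br 970 (.con 122 [1]) .no (.red [.f 969 3 5] []) .no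
  .no .no) .no (.red [.t 833 1 3, .f 960 3 5, .f 960 5 1, .f 952 1 3] [(121, 105, [1]), (136, 136,
  [])]) .no) .no .no .no) (.red [.t 833 1 4, .t 952 1 3] [(120, 104, [1]), (136, 136, [])]) (.red
  [.f 817 3 5] []) .no .no) (.red [.f 825 5 1, .f 825 1 3, .t 952 1 3] [(120, 121, [4]), (136,
  136, [])]) .no) .no .no) .no .no) .no .no (.br 1082 (.con 136 [4, 1]) .no .no (.red [.f 1073 3
  5] []) .no .no) (.red [.f 953 5 1, .f 954 1 3] [(136, 136, [])]) .no) .no) .no) (.red [.f 960 3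
  5] []) (.br 1088 (.br 1089 (.red [.f 1088 1 5] []) .no (.con 121 [1, 1]) (.red [.f 953 3 1]
  [(136, 136, [])]) .no .no) .no (.red [.f 960 3 1, .f 952 1 3] [(136, 136, []), (137, 121, [1])])
  .no (.red [.t 952 1 3] [(136, 136, [])]) .no) .no .no) (.con 136 [3]) (.con 136 [3]) (.con 136
  [3]) .no (.con 136 [3])) .no (.br 962 (.br 1088 (.br 1089 (.red [.f 1088 1 5] []) .no (.con 136
  [3, 1]) (.red [.t 1080 2 3] [(136, 136, [])]) .no .no) .no (.br 1089 (.br 1081 (.red [.f 1081 1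
  3, .t 1080 2 3] [(136, 136, []), (152, 136, [1])]) (.red [.f 952 1 5] []) .no (.br 1082 (.con
  136 [4, 1]) (.red [.f 954 1 3] [(136, 136, [])]) .no (.red [.f 1073 3 5] []) .no .no) (.br 953
  .no (.br 954 .no (.red [.f 825 1 5] []) .no (.br 824 .no (.br 826 .no (.con 103 [3]) (.br 832
  .no (.red [.f 696 1 3, .t 824 3 1, .t 961 4 1] [(104, 103, [3]), (120, 103, [3, 1]), (136, 136,
  [])]) (.br 833 .no (.con 103 [3, 3]) (.red [.f 832 3 5] []) .no .no .no) .no (.red [.f 832 5 1,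
  .f 825 1 3, .t 961 4 1] [(120, 103, [3, 1]), (136, 136, [])]) .no) (.con 119 [2, 3]) .no .no)
  (.red [.t 824 3 1, .t 961 4 1] [(120, 119, [3]), (136, 136, [])]) (.br 826 .no (.con 119 [2, 3])
  (.br 945 (.red [.t 945 1 3, .f 954 1 3] [(135, 119, [1]), (136, 136, [])]) (.red [.f 817 1 3, .f
  945 3 5, .f 953 5 1, .f 954 1 3] [(119, 103, [1]), (136, 136, [])]) .no (.br 944 (.br 1073 (.br
  1074 (.red [.f 1073 1 5] []) .no .no (.con 118 [1, 1]) .no .no) .no .no (.red [.f 937 3 1, .t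
  945 1 3, .f 954 1 3] [(134, 118, [1]), (135, 119, [1]), (136, 136, [])]) (.red [.f 1073 5 3, .f
  946 3 1, .f 954 1 3] [(135, 119, [1]), (136, 136, [])]) .no) .no .no (.red [.f 936 3 5] []) .no
  .no) .no (.red [.t 824 4 1, .f 945 3 5, .f 953 5 1, .f 954 1 3] [(119, 103, [1]), (136, 136,
  [])])) (.con 119 [2]) .no .no) .no .no) .no .no) .no (.br 954 .no (.con 136 [2, 4]) .no (.red
  [.f 945 3 5] []) .no .no) (.red [.f 953 5 1, .f 954 1 3] [(136, 136, [])]) .no) .no) .no (.red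
  [.f 1088 3 5] []) (.red [.t 1080 2 3] [(136, 136, [])]) .no .no) .no (.red [.f 960 5 1, .f 952 1
  3] [(136, 136, [])]) .no) (.con 136 [2, 3]) (.con 136 [3]) (.con 136 [2]) .no .no) .no) (.br 953
  (.con 136 [2, 4]) (.red [.f 824 1 5] []) (.br 954 (.br 962 (.red [.f 954 1 3] [(136, 136, [])])
  (.br 960 (.br 1080 (.br 1081 (.red [.f 1080 1 5] []) .no (.red [.f 953 3 1] [(136, 136, [])])
  (.con 136 [4, 1]) .no .no) .no .no (.br 1081 (.br 1089 (.red [.f 1081 1 3, .f 953 3 1] [(136,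
  136, []), (152, 136, [1])]) .no (.br 1090 (.con 120 [3, 1, 1]) .no (.red [.f 1089 3 5] []) .no
  .no .no) .no (.red [.t 953 3 1] [(136, 136, [])]) .no) .no (.red [.f 953 3 1] [(136, 136, [])])
  (.red [.f 1072 3 5] []) .no .no) (.red [.t 960 1 4] [(136, 136, [])]) .no) (.con 120 [3]) (.con
  120 [3, 1]) .no .no .no) (.br 960 (.br 1090 (.br 1089 (.red [.f 1089 1 5] []) .no (.con 121 [1,
  1]) (.red [.f 953 3 1] [(136, 136, [])]) .no .no) .no (.red [.f 962 3 1, .f 954 1 3] [(136, 136,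
  []), (137, 121, [1])]) .no .no (.red [.t 953 3 1] [(136, 136, [])])) (.con 120 [3, 1]) (.con 121
  [1]) .no .no .no) .no .no .no) (.con 120 [4]) (.con 136 [2, 4]) (.con 120 [4, 1]) .no .no) (.con
  136 [2, 4]) (.con 136 [2, 4]) .no) (.br 953 (.con 136 [2]) (.con 136 [2]) (.red [.f 952 3 5] [])
  (.con 136 [2]) (.con 136 [2]) .no) (.br 954 (.br 953 (.con 136 [4]) (.br 962 (.red [.f 954 1 3]
  [(136, 136, [])]) (.br 961 (.con 119 [3, 3]) (.red [.f 833 1 5] []) (.con 119 [3, 3]) .no .no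
  (.con 119 [3, 3])) (.br 960 (.br 961 (.con 119 [3, 3, 1]) (.br 1080 (.br 1081 (.red [.f 1080 1
  5] []) .no (.red [.f 825 1 3, .f 953 3 1] [(120, 119, [3]), (136, 136, [])]) (.con 119 [1, 1])
  .no .no) .no .no (.red [.f 944 3 1, .f 952 1 3] [(135, 119, [1]), (136, 136, [])]) (.red [.f 825
  1 3, .t 960 1 4] [(120, 119, [3]), (136, 136, [])]) .no) (.red [.f 961 3 5] []) .no .no .no)
  (.con 136 [3]) (.con 136 [3]) .no (.con 119 [3, 3, 1]) .no) .no .no (.br 960 (.br 1080 (.br 1081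
  (.red [.f 1080 1 5] []) .no (.red [.t 1081 3 2] [(136, 136, [])]) (.con 119 [1, 1]) .no .no) .no
  .no (.red [.f 944 3 1, .f 952 1 3] [(135, 119, [1]), (136, 136, [])]) (.br 1089 (.br 1090 (.red
  [.f 1089 1 5] []) .no (.br 824 .no (.br 826 .no (.con 103 [3]) (.red [.t 825 1 3, .t 960 1 4]
  [(120, 103, [3, 1]), (136, 136, [])]) (.con 119 [2, 3]) .no .no) (.br 826 .no (.br 834 .no (.red
  [.f 698 1 3, .t 825 1 3, .t 960 1 4] [(104, 103, [3]), (120, 103, [3, 1]), (136, 136, [])]) (.br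
  833 .no (.con 103 [3, 3]) (.red [.f 833 3 5] []) .no .no .no) .no .no (.red [.f 833 5 1, .f 825
  1 3, .t 960 1 4] [(120, 103, [3, 1]), (136, 136, [])])) (.red [.t 825 1 3, .t 960 1 4] [(120,
  104, [1]), (136, 136, [])]) (.br 945 (.red [.t 944 3 1, .f 952 1 3] [(135, 119, [1]), (136, 136,
  [])]) (.red [.f 817 1 3, .f 944 3 5, .f 952 5 1, .f 952 1 3] [(119, 103, [1]), (136, 136, [])])
  .no (.br 946 (.br 1073 (.br 1072 (.red [.f 1072 1 5] []) .no .no (.con 118 [1, 1]) .no .no) .no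
  .no (.red [.f 937 3 1, .t 944 3 1, .f 952 1 3] [(134, 118, [1]), (135, 119, [1]), (136, 136,
  [])]) .no (.red [.f 1072 5 3, .f 944 3 1, .f 952 1 3] [(135, 119, [1]), (136, 136, [])])) .no
  .no (.red [.f 937 3 5] []) .no .no) (.red [.t 825 1 4, .f 944 3 5, .f 952 5 1, .f 952 1 3]
  [(119, 103, [1]), (136, 136, [])]) .no) .no .no) (.red [.f 816 3 1, .f 824 1 5, .f 952 5 1, .f
  952 1 3] [(119, 103, [1]), (136, 136, [])]) .no .no) .no .no .no) .no (.br 1090 (.con 119 [3, 3,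
  1, 1]) .no (.red [.f 1089 3 5] []) .no .no .no) .no (.red [.f 961 5 1, .f 954 1 3] [(136, 136,
  [])]) .no) .no) (.con 119 [3, 3]) (.con 119 [3, 3, 1]) .no .no .no)) (.br 962 (.red [.f 954 1 3]
  [(136, 136, [])]) (.br 960 (.br 1080 (.br 1081 (.red [.f 1080 1 5] []) .no (.red [.f 953 3 1]
  [(136, 136, [])]) (.con 119 [1, 1]) .no .no) .no .no (.red [.f 944 3 1, .f 952 1 3] [(135, 119,
  [1]), (136, 136, [])]) (.red [.t 960 1 4] [(136, 136, [])]) .no) (.con 120 [3]) (.con 120 [3,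
  1]) .no .no .no) (.br 960 (.br 1080 (.br 1081 (.red [.f 1080 1 5] []) .no (.red [.f 953 3 1]
  [(136, 136, [])]) (.con 119 [1, 1]) .no .no) .no .no (.red [.f 944 3 1, .f 952 1 3] [(135, 119,
  [1]), (136, 136, [])]) (.red [.t 960 1 4] [(136, 136, [])]) .no) (.con 120 [3, 1]) (.con 121
  [1]) .no .no .no) .no .no .no) (.red [.f 944 3 5] []) .no .no) (.con 136 [4]) (.con 136 [4])
  (.con 136 [4]) .no (.con 136 [4])) (.br 954 (.br 962 (.red [.f 954 1 3] [(136, 136, [])]) (.br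
  961 (.con 136 [2, 3]) (.red [.f 833 1 5] []) (.con 136 [2, 3]) .no .no (.con 136 [2, 3])) (.br
  960 (.br 961 (.con 136 [3]) (.br 1080 (.br 1081 (.red [.f 1080 1 5] []) .no (.red [.t 1088 2 4]
  [(136, 136, [])]) (.con 136 [4, 1]) .no .no) .no .no (.br 1081 (.br 1089 (.red [.f 1081 1 3, .t
  1088 2 4] [(136, 136, []), (152, 136, [1])]) .no (.br 1090 (.con 121 [1, 1]) .no (.red [.f 1089
  3 5] []) .no .no .no) .no (.br 832 .no (.br 834 .no (.con 105 [4]) (.con 121 [2, 4]) (.br 824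
  .no (.red [.f 696 1 3, .t 832 4 1, .t 953 3 1] [(104, 105, [4]), (120, 121, [4]), (136, 136,
  [])]) .no (.br 825 .no (.con 105 [4, 4]) .no (.red [.f 816 3 5] []) .no .no) (.red [.f 824 5 1,
  .f 825 1 3, .t 953 3 1] [(120, 121, [4]), (136, 136, [])]) .no) .no .no) (.br 834 .no (.con 121
  [2, 4]) (.con 121 [2]) (.br 969 (.red [.t 969 1 4, .f 954 1 3] [(136, 136, []), (137, 121,
  [1])]) (.red [.f 833 1 3, .f 961 3 5, .f 961 5 1, .f 954 1 3] [(121, 105, [1]), (136, 136, [])])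
  (.br 968 (.con 122 [1]) .no (.red [.f 968 3 5] []) .no .no .no) .no .no (.red [.t 832 3 1, .f
  961 3 5, .f 961 5 1, .f 954 1 3] [(121, 105, [1]), (136, 136, [])])) .no .no) (.red [.t 832 4 1,
  .t 953 3 1] [(120, 121, [4]), (136, 136, [])]) .no .no) .no) .no (.red [.t 1088 2 4] [(136, 136,
  [])]) (.red [.f 1072 3 5] []) .no .no) (.red [.f 952 5 1, .f 952 1 3] [(136, 136, [])]) .no)
  (.red [.f 961 3 5] []) .no .no .no) (.con 136 [3]) (.con 136 [3]) .no (.con 136 [3]) .no) .no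
  .no (.br 960 (.br 1080 (.br 1081 (.red [.f 1080 1 5] []) .no (.red [.t 1081 3 2] [(136, 136,
  [])]) (.con 136 [4, 1]) .no .no) .no .no (.br 1081 (.br 1089 (.red [.f 1081 1 3, .t 1081 3 2]
  [(136, 136, []), (152, 136, [1])]) .no (.br 1090 (.con 136 [3, 1]) .no (.red [.f 1089 3 5] [])
  .no .no .no) .no (.red [.f 961 5 1, .f 954 1 3] [(136, 136, [])]) .no) .no (.red [.t 1081 3 2]
  [(136, 136, [])]) (.red [.f 1072 3 5] []) .no .no) (.red [.f 952 5 1, .f 952 1 3] [(136, 136,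
  [])]) .no) (.con 136 [2, 3]) (.con 136 [3]) .no .no .no)) (.con 136 [2, 4]) (.con 136 [2]) (.con
  136 [4]) .no .no) .no

theorem q8_ok : chk ⟨3, 1, 0, false, -8⟩ [] q8 = true := by decide +kernel

end Pool.Agent.FT3D
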