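import Pool.Agent.FT3D.Glob
import Pool.Agent.FT3D.Flat
import Pool.Agent.FT3D.Sound
import Pool.Agent.FT3D.Tree_p9
import Pool.Agent.FT3D.Tree_q9
import Pool.Agent.FT3D.Tree_q4
import Pool.Agent.FT3D.Tree_p5
import Pool.Agent.FT3D.Tree_q6
import Pool.Agent.FT3D.Tree_p7
import Pool.Agent.FT3D.Tree_q8
import Pool.Agent.FT3D.Pub
import Pool.Agent.FT3D.Pub2

/-!
# Three levels: flips and trits connect all dimer configurations
-/

namespace Pool.Agent.FT3D

open Pool.Agent.Dimer3D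

theorem conn_three {m n : ℤ} (hn : Even n) {T T' : Cell → ℕ} (hT : Til 3 m n T) (hT' : Til 3 m n T') :
    Conn T T' := by
  have l9 : LL ⟨3, 0, 0, true, -9⟩ := fun _ _ _ _ _ _ h => sound _ (by norm_num) (Or.inl rfl) _ p9_ok h
  have l9' : LL ⟨3, 1, 0, true, -9⟩ := fun _ _ _ _ _ _ h => sound _ (by norm_num) (Or.inr rfl) _ q9_ok h
  have l4 : LL ⟨3, 1, 0, false, -4⟩ := fun _ _ _ _ _ _ h => sound _ (by norm_num) (Or.inr rfl) _ q4_ok h
  have l5 : LL ⟨3, 0, 0, false, -5⟩ := fun _ _ _ _ _ _ h => sound _ (by norm_num) (Or.inl rfl) _ p5_ok h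
  have l6 : LL ⟨3, 1, 0, false, -6⟩ := fun _ _ _ _ _ _ h => sound _ (by norm_num) (Or.inr rfl) _ q6_ok h
  have l7 : LL ⟨3, 0, 0, false, -7⟩ := fun _ _ _ _ _ _ h => sound _ (by norm_num) (Or.inl rfl) _ p7_ok h
  have l8 : LL ⟨3, 1, 0, false, -8⟩ := fun _ _ _ _ _ _ h => sound _ (by norm_num) (Or.inr rfl) _ q8_ok h
  have key : ∀ T : Cell → ℕ, Til 3 m n T → Conn T (brick 3 m n) := by
    intro T hT
    obtain ⟨T1, a1, a2, a3⟩ := stepA l9 l9' hn hT
    obtain ⟨T2, b1, b2, b3⟩ := stepB l9 l9' l4 l5 l6 l7 l8 hn a1 a3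
    exact conn_trans a2 (conn_trans b2 (flat_conn hn b1 b3))
  exact conn_trans (key T hT) (conn_symm hT' (key T' hT'))

theorem ftConn_three {m n : ℕ} (h : Even m ∨ Even n) : FTConn (Box m n 3) := by
  have base : ∀ m n : ℕ, Even n → FTConn (Box m n 3) := fun m n hn =>
    ftConn_of fun T T' hT hT' => conn_three ((Int.even_coe_nat n).2 hn) hT hT'
  rcases h with h | h
  · exact ftConn_swap (base n m h)
  · exact base m n h

theorem ftConn_side_three {j m n : ℕ} (h3 : j = 3 ∨ m = 3 ∨ n = 3) (h : Even j ∨ Even m ∨ Even n) :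
    FTConn (Box j m n) := by
  have n3 : ¬ Even 3 := by decide
  rcases h3 with rfl | rfl | rfl
  · exact ftConn_rot (ftConn_three (by tauto))
  · exact ftConn_swap (ftConn_rot (ftConn_three (by tauto)))
  · exact ftConn_three (by tauto)

end Pool.Agent.FT3D
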