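import Pool.Agent.FT3D.Defs

/-!
# Flips and trits of tilings
-/

namespace Pool.Agent.FT3D

variable {J : ℕ} {m n : ℤ} {T T' : Cell → ℕ}

theorem opp_opp {d : ℕ} (h1 : 1 ≤ d) (h6 : d ≤ 6) : opp (opp d) = d := by
  interval_cases d <;> rfl

theorem opp_rng {d : ℕ} (h1 : 1 ≤ d) (h6 : d ≤ 6) : 1 ≤ opp d ∧ opp d ≤ 6 ∧ opp d ≠ d := by
  interval_cases d <;> decide

theorem nb_opp (c : Cell) {d : ℕ} (h1 : 1 ≤ d) (h6 : d ≤ 6) : nb (nb c d) (opp d) = c := by
  obtain ⟨x, y, z⟩ := c
  interval_cases d <;> simp [nb, dX, dY, dZ, opp]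

theorem nb_comm (c : Cell) (d e : ℕ) : nb (nb c d) e = nb (nb c e) d := by
  obtain ⟨x, y, z⟩ := c
  simp only [nb, Prod.mk.injEq]
  refine ⟨by ring, by ring, by ring⟩

theorem bx_of_ne (hT : Til J m n T) {c : Cell} (h : T c ≠ 0) : Bx J m n c := by
  by_contra h'
  exact h (hT.out c h')

/-- the four cells of a flip are distinct -/
theorem flip_distinct (c : Cell) {d e : ℕ} (h : perp d e) :
    nb c d ≠ c ∧ nb c e ≠ c ∧ nb (nb c d) e ≠ c ∧ nb c d ≠ nb c e ∧ nb (nb c d) e ≠ nb c d ∧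
      nb (nb c d) e ≠ nb c e := by
  obtain ⟨x, y, z⟩ := c
  obtain ⟨h1, h2, h3, h4, h5⟩ := h
  interval_cases d <;> interval_cases e <;> first
    | (exfalso; exact h5 rfl)
    | simp [nb, dX, dY, dZ]

/-- the values of a trit -/
theorem Moves_tv (T : Cell → ℕ) {a b : ℕ} (o : Cell) (h : perp a b) (ha : a ≤ 4) (hb : b ≤ 4) :
    trit T o a b o = 5 ∧
    trit T o a b (nb o 5) = 6 ∧ trit T o a b (nb o a) = b ∧ trit T o a b (nb (nb o a) b) = opp b ∧
    trit T o a b (nb (nb o b) 5) = a ∧ trit T o a b (nb (nb (nb o a) b) 5) = opp a := by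
  obtain ⟨x, y, z⟩ := o
  obtain ⟨h1, h2, h3, h4, h5⟩ := h
  interval_cases a <;> interval_cases b <;> first
    | (exfalso; exact h5 rfl)
    | simp [trit, nb, dX, dY, dZ, opp]

/-- the values of a flip -/
theorem Moves_fv (T : Cell → ℕ) {d e : ℕ} (c : Cell) (h : perp d e) :
    flip T c d e c = e ∧ flip T c d e (nb c d) = e ∧ flip T c d e (nb c e) = opp e ∧
      flip T c d e (nb (nb c d) e) = opp e := by
  obtain ⟨h1, h2, h3, h4, h5, h6⟩ := flip_distinct c h
  unfold flip
  refine ⟨if_pos rfl, ?_, ?_, ?_⟩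
  · rw [if_neg h1, if_pos rfl]
  · rw [if_neg h2, if_neg h4.symm, if_pos rfl]
  · rw [if_neg h3, if_neg h5, if_neg h6, if_pos rfl]

/-- the cells of a flip -/
def MovesF (c : Cell) (d e : ℕ) (x : Cell) : Prop := x = c ∨ x = nb c d ∨ x = nb c e ∨ x = nb (nb c d) e

/-- the cells of a trit -/
def MovesT (o : Cell) (a b : ℕ) (x : Cell) : Prop :=
  x = o ∨ x = nb o 5 ∨ x = nb o a ∨ x = nb (nb o a) b ∨ x = nb (nb o b) 5 ∨ x = nb (nb (nb o a) b) 5

theorem Moves_foff {c : Cell} {d e : ℕ} {x : Cell} (h : ¬ MovesF c d e x) : flip T c d e x = T x := by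
  unfold MovesF at h
  push Not at h
  unfold flip
  rw [if_neg h.1, if_neg h.2.1, if_neg h.2.2.1, if_neg h.2.2.2]

theorem Moves_toff {o : Cell} {a b : ℕ} {x : Cell} (h : ¬ MovesT o a b x) : trit T o a b x = T x := by
  unfold MovesT at h
  push Not at h
  unfold trit
  rw [if_neg h.1, if_neg h.2.1, if_neg h.2.2.1, if_neg h.2.2.2.1, if_neg h.2.2.2.2.1, if_neg h.2.2.2.2.2]

/-- replacing the dimers inside of a set of cells -/
theorem Moves_til (hT : Til J m n T) {P : Cell → Prop} (hP : ∀ x, P x → Bx J m n x)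
    (hp : ∀ x, P x → P (nb x (T x))) (h1 : ∀ x, P x → 1 ≤ T' x ∧ T' x ≤ 6)
    (h2 : ∀ x, P x → P (nb x (T' x)) ∧ T' (nb x (T' x)) = opp (T' x))
    (h3 : ∀ x, ¬ P x → T' x = T x) : Til J m n T' where
  out c hc := by rw [h3 c fun h => hc (hP c h)]; exact hT.out c hc
  rng c hc := by
    by_cases h : P c
    · exact h1 c h
    · rw [h3 c h]
      exact hT.rng c hc
  mem c hc := by
    by_cases h : P c
    · exact hP _ (h2 c h).1
    · rw [h3 c h]
      exact hT.mem c hc
  inv c hc := by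
    by_cases h : P c
    · exact (h2 c h).2
    · rw [h3 c h]
      have h4 : ¬ P (nb c (T c)) := by
        intro h4
        have h5 := hp _ h4
        rw [hT.inv c hc, nb_opp c (hT.rng c hc).1 (hT.rng c hc).2] at h5
        exact h h5
      rw [h3 _ h4]
      exact hT.inv c hc

/-- the values of a tiling at the cells of a flip -/
theorem Moves_f (hT : Til J m n T) {c : Cell} {d e : ℕ} (h : CanFlip T c d e) :
    T c = d ∧ T (nb c d) = opp d ∧ T (nb c e) = d ∧ T (nb (nb c d) e) = opp d ∧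
      (∀ x, MovesF c d e x → Bx J m n x) := by
  obtain ⟨hp, h1, h2⟩ := h
  have hd : 1 ≤ d ∧ d ≤ 6 := ⟨hp.1, hp.2.1⟩
  have b1 : Bx J m n c := bx_of_ne hT (by rw [h1]; omega)
  have b3 : Bx J m n (nb c e) := bx_of_ne hT (by rw [h2]; omega)
  have b2 : Bx J m n (nb c d) := by
    have := hT.mem c b1
    rwa [h1] at this
  have b4 : Bx J m n (nb (nb c d) e) := by
    have := hT.mem _ b3
    rwa [h2, nb_comm] at this
  have v2 : T (nb c d) = opp d := by
    have := hT.inv c b1
    rwa [h1] at this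
  have v4 : T (nb (nb c d) e) = opp d := by
    have := hT.inv _ b3
    rwa [h2, nb_comm] at this
  refine ⟨h1, v2, h2, v4, ?_⟩
  rintro x (rfl | rfl | rfl | rfl)
  · exact b1
  · exact b2
  · exact b3
  · exact b4

/-- the values of a tiling at the cells of a trit -/
theorem Moves_t (hT : Til J m n T) {o : Cell} {a b : ℕ} (h : CanTrit T o a b) :
    T o = a ∧ T (nb o 5) = b ∧ T (nb o a) = opp a ∧ T (nb (nb o a) b) = 5 ∧ T (nb (nb o b) 5) = opp b ∧
      T (nb (nb (nb o a) b) 5) = 6 ∧ (∀ x, MovesT o a b x → Bx J m n x) := by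
  obtain ⟨hp, ha, hb, h1, h2, h3⟩ := h
  have ha' := hp.1
  have hb' := hp.2.2.1
  have b1 : Bx J m n o := bx_of_ne hT (by rw [h1]; omega)
  have b2 : Bx J m n (nb o 5) := bx_of_ne hT (by rw [h2]; omega)
  have b3 : Bx J m n (nb (nb o a) b) := bx_of_ne hT (by rw [h3]; omega)
  have b4 : Bx J m n (nb o a) := by
    have := hT.mem _ b1
    rwa [h1] at this
  have b5 : Bx J m n (nb (nb o b) 5) := by
    have := hT.mem _ b2
    rwa [h2, nb_comm] at this
  have b6 : Bx J m n (nb (nb (nb o a) b) 5) := by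
    have := hT.mem _ b3
    rwa [h3] at this
  have v4 : T (nb o a) = opp a := by
    have := hT.inv _ b1
    rwa [h1] at this
  have v5 : T (nb (nb o b) 5) = opp b := by
    have := hT.inv _ b2
    rwa [h2, nb_comm] at this
  have v6 : T (nb (nb (nb o a) b) 5) = 6 := by
    have := hT.inv _ b3
    rwa [h3] at this
  refine ⟨h1, h2, v4, h3, v5, v6, ?_⟩
  rintro x (rfl | rfl | rfl | rfl | rfl | rfl)
  · exact b1
  · exact b2
  · exact b4
  · exact b3
  · exact b5
  · exact b6

theorem til_flip (hT : Til J m n T) {c : Cell} {d e : ℕ} (h : CanFlip T c d e) :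
    Til J m n (flip T c d e) := by
  obtain ⟨v1, v2, v3, v4, hB⟩ := Moves_f hT h
  obtain ⟨w1, w2, w3, w4⟩ := Moves_fv T c h.1
  have hd1 := h.1.1
  have hd6 := h.1.2.1
  have he1 := h.1.2.2.1
  have he6 := h.1.2.2.2.1
  have hd := opp_rng hd1 hd6
  have he := opp_rng he1 he6
  refine Moves_til hT (P := MovesF c d e) hB ?_ ?_ ?_ fun x hx => Moves_foff hx
  · rintro x (rfl | rfl | rfl | rfl)
    · rw [v1]
      exact Or.inr (Or.inl rfl)
    · rw [v2, nb_opp _ hd1 hd6]
      exact Or.inl rfl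
    · rw [v3, nb_comm]
      exact Or.inr (Or.inr (Or.inr rfl))
    · rw [v4, nb_comm c d e, nb_opp _ hd1 hd6]
      exact Or.inr (Or.inr (Or.inl rfl))
  · rintro x (rfl | rfl | rfl | rfl)
    · rw [w1]
      exact ⟨he1, he6⟩
    · rw [w2]
      exact ⟨he1, he6⟩
    · rw [w3]
      exact ⟨he.1, he.2.1⟩
    · rw [w4]
      exact ⟨he.1, he.2.1⟩
  · rintro x (rfl | rfl | rfl | rfl)
    · rw [w1]
      exact ⟨Or.inr (Or.inr (Or.inl rfl)), w3⟩
    · rw [w2]
      exact ⟨Or.inr (Or.inr (Or.inr rfl)), w4⟩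
    · rw [w3, nb_opp _ he1 he6, opp_opp he1 he6]
      exact ⟨Or.inl rfl, w1⟩
    · rw [w4, nb_opp _ he1 he6, opp_opp he1 he6]
      exact ⟨Or.inr (Or.inl rfl), w2⟩

theorem til_trit (hT : Til J m n T) {o : Cell} {a b : ℕ} (h : CanTrit T o a b) :
    Til J m n (trit T o a b) := by
  obtain ⟨v1, v2, v3, v4, v5, v6, hB⟩ := Moves_t hT h
  obtain ⟨w1, w2, w3, w4, w5, w6⟩ := Moves_tv T o h.1 h.2.1 h.2.2.1
  have ha1 := h.1.1
  have ha6 := h.1.2.1
  have hb1 := h.1.2.2.1
  have hb6 := h.1.2.2.2.1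
  have ha := opp_rng ha1 ha6
  have hb := opp_rng hb1 hb6
  have n5 : ∀ c : Cell, nb (nb c 5) 6 = c := fun c => nb_opp c (d := 5) (by norm_num) (by norm_num)
  refine Moves_til hT (P := MovesT o a b) hB ?_ ?_ ?_ fun x hx => Moves_toff hx
  · rintro x (rfl | rfl | rfl | rfl | rfl | rfl)
    · rw [v1]
      exact Or.inr (Or.inr (Or.inl rfl))
    · rw [v2, nb_comm]
      exact Or.inr (Or.inr (Or.inr (Or.inr (Or.inl rfl))))
    · rw [v3, nb_opp _ ha1 ha6]
      exact Or.inl rfl
    · rw [v4]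
      exact Or.inr (Or.inr (Or.inr (Or.inr (Or.inr rfl))))
    · rw [v5, nb_comm o b 5, nb_opp _ hb1 hb6]
      exact Or.inr (Or.inl rfl)
    · rw [v6, n5]
      exact Or.inr (Or.inr (Or.inr (Or.inl rfl)))
  · rintro x (rfl | rfl | rfl | rfl | rfl | rfl)
    · rw [w1]
      norm_num
    · rw [w2]
      norm_num
    · rw [w3]
      exact ⟨hb1, hb6⟩
    · rw [w4]
      exact ⟨hb.1, hb.2.1⟩
    · rw [w5]
      exact ⟨ha1, ha6⟩
    · rw [w6]
      exact ⟨ha.1, ha.2.1⟩
  · rintro x (rfl | rfl | rfl | rfl | rfl | rfl)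
    · rw [w1]
      exact ⟨Or.inr (Or.inl rfl), w2⟩
    · rw [w2, n5]
      exact ⟨Or.inl rfl, w1⟩
    · rw [w3]
      exact ⟨Or.inr (Or.inr (Or.inr (Or.inl rfl))), w4⟩
    · rw [w4, nb_opp _ hb1 hb6, opp_opp hb1 hb6]
      exact ⟨Or.inr (Or.inr (Or.inl rfl)), w3⟩
    · have e1 : nb (nb (nb o b) 5) a = nb (nb (nb o a) b) 5 := by
        rw [nb_comm (nb o b) 5 a, nb_comm o b a]
      rw [w5, e1]
      exact ⟨Or.inr (Or.inr (Or.inr (Or.inr (Or.inr rfl)))), w6⟩
    · have e1 : nb (nb (nb o a) b) 5 = nb (nb (nb o b) 5) a := by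
        rw [nb_comm (nb o b) 5 a, nb_comm o b a]
      rw [w6, e1, nb_opp _ ha1 ha6, opp_opp ha1 ha6]
      exact ⟨Or.inr (Or.inr (Or.inr (Or.inr (Or.inl rfl)))), w5⟩

theorem til_move (hT : Til J m n T) (h : Move T T') : Til J m n T' := by
  cases h with
  | flip c d e h => exact til_flip hT h
  | trit o a b h => exact til_trit hT h

theorem til_conn (hT : Til J m n T) (h : Conn T T') : Til J m n T' := by
  unfold Conn at h
  induction h with
  | refl => exact hT
  | tail _ h ih => exact til_move ih h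

theorem Moves_perp {d e : ℕ} (h : perp d e) : perp e d :=
  ⟨h.2.2.1, h.2.2.2.1, h.1, h.2.1, h.2.2.2.2.symm⟩

theorem Moves_perp' {a b : ℕ} (h : perp a b) (ha : a ≤ 4) (hb : b ≤ 4) :
    perp (opp b) (opp a) ∧ opp b ≤ 4 ∧ opp a ≤ 4 := by
  obtain ⟨h1, h2, h3, h4, h5⟩ := h
  unfold perp
  interval_cases a <;> interval_cases b <;> first
    | (exfalso; exact h5 rfl)
    | decide

/-- a flip is undone by a flip, a trit by a trit -/
theorem move_symm (hT : Til J m n T) (h : Move T T') : Move T' T := by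
  cases h with
  | flip c d e h =>
    obtain ⟨v1, v2, v3, v4, -⟩ := Moves_f hT h
    obtain ⟨w1, w2, w3, w4⟩ := Moves_fv T c h.1
    have hc : CanFlip (flip T c d e) c e d := ⟨Moves_perp h.1, w1, w2⟩
    have h1 : flip (flip T c d e) c e d = T := by
      obtain ⟨z1, z2, z3, z4⟩ := Moves_fv (flip T c d e) c (Moves_perp h.1)
      funext x
      by_cases hx : MovesF c d e x
      · rcases hx with rfl | rfl | rfl | rfl
        · rw [z1, v1]
        · rw [z3, v2]
        · rw [z2, v3]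
        · rw [nb_comm c d e, z4, nb_comm c e d, v4]
      · have hx' : ¬ MovesF c e d x := by
          intro h'
          apply hx
          rcases h' with h' | h' | h' | h'
          · exact Or.inl h'
          · exact Or.inr (Or.inr (Or.inl h'))
          · exact Or.inr (Or.inl h')
          · rw [nb_comm] at h'
            exact Or.inr (Or.inr (Or.inr h'))
        rw [Moves_foff hx', Moves_foff hx]
    have h2 := Move.flip c e d hc
    rwa [h1] at h2
  | trit o a b h =>
    obtain ⟨v1, v2, v3, v4, v5, v6, -⟩ := Moves_t hT h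
    obtain ⟨w1, w2, w3, w4, w5, w6⟩ := Moves_tv T o h.1 h.2.1 h.2.2.1
    obtain ⟨hp, hb4, ha4⟩ := Moves_perp' h.1 h.2.1 h.2.2.1
    have ha1 := h.1.1
    have ha6 := h.1.2.1
    have hb1 := h.1.2.2.1
    have hb6 := h.1.2.2.2.1
    -- the new corner and its neighbours
    have e1 : nb (nb (nb o a) b) (opp b) = nb o a := nb_opp _ hb1 hb6
    have e2 : nb (nb (nb (nb o a) b) (opp b)) (opp a) = o := by rw [e1, nb_opp _ ha1 ha6]
    have e3 : nb (nb (nb o a) b) (opp a) = nb o b := by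
      rw [nb_comm o a b, nb_opp _ ha1 ha6]
    have hc : CanTrit (trit T o a b) (nb (nb o a) b) (opp b) (opp a) :=
      ⟨hp, hb4, ha4, w4, w6, by rw [e2]; exact w1⟩
    have h1 : trit (trit T o a b) (nb (nb o a) b) (opp b) (opp a) = T := by
      obtain ⟨z1, z2, z3, z4, z5, z6⟩ := Moves_tv (trit T o a b) (nb (nb o a) b) hp hb4 ha4
      rw [e2, opp_opp ha1 ha6] at z4
      rw [e3] at z5
      rw [e2, opp_opp hb1 hb6] at z6
      rw [e1] at z3
      funext x
      by_cases hx : MovesT o a b x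
      · rcases hx with rfl | rfl | rfl | rfl | rfl | rfl
        · rw [z4, v1]
        · rw [z6, v2]
        · rw [z3, v3]
        · rw [z1, v4]
        · rw [z5, v5]
        · rw [z2, v6]
      · have hx' : ¬ MovesT (nb (nb o a) b) (opp b) (opp a) x := by
          intro h'
          apply hx
          unfold MovesT at h'
          rw [e2, e3, e1] at h'
          rcases h' with h' | h' | h' | h' | h' | h'
          · exact Or.inr (Or.inr (Or.inr (Or.inl h')))
          · exact Or.inr (Or.inr (Or.inr (Or.inr (Or.inr h'))))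
          · exact Or.inr (Or.inr (Or.inl h'))
          · exact Or.inl h'
          · exact Or.inr (Or.inr (Or.inr (Or.inr (Or.inl h'))))
          · exact Or.inr (Or.inl h')
        rw [Moves_toff hx', Moves_toff hx]
    have h2 := Move.trit _ _ _ hc
    rwa [h1] at h2

theorem conn_symm (hT : Til J m n T) (h : Conn T T') : Conn T' T := by
  unfold Conn at h ⊢
  induction h with
  | refl => exact Relation.ReflTransGen.refl
  | tail h1 h2 ih => exact Relation.ReflTransGen.head (move_symm (til_conn hT h1) h2) ih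

theorem conn_trans {T'' : Cell → ℕ} (h : Conn T T') (h' : Conn T' T'') : Conn T T'' :=
  Relation.ReflTransGen.trans h h'

end Pool.Agent.FT3D
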