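import Pool.Agent.FT3D.Local

/-!
# Soundness of the checker: codes, flows, steps
-/

namespace Pool.Agent.FT3D

/-- the cell with code `c` -/
def cellOf (gi gj : ℤ) (c : ℕ) : Cell :=
  (gi + ((c / 128 : ℕ) : ℤ) - 8, gj + ((c / 8 % 16 : ℕ) : ℤ) - 8, ((c % 8 : ℕ) : ℤ))

/-- the vertex with code `v` -/
def px (gi : ℤ) (v : ℕ) : ℤ := gi + ((v / 16 : ℕ) : ℤ) - 8
def py (gj : ℤ) (v : ℕ) : ℤ := gj + ((v % 16 : ℕ) : ℤ) - 8

variable {gi gj : ℤ}

theorem cellOf_inj {c c' : ℕ} (h : cellOf gi gj c = cellOf gi gj c') : c = c' := by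
  unfold cellOf at h
  rw [Prod.mk.injEq, Prod.mk.injEq] at h
  omega

theorem cellOf_eq_iff {c c' : ℕ} : cellOf gi gj c = cellOf gi gj c' ↔ c = c' :=
  ⟨cellOf_inj, fun h => by rw [h]⟩

theorem pxy_inj {v w : ℕ} (h1 : px gi v = px gi w) (h2 : py gj v = py gj w) : v = w := by
  unfold px at h1
  unfold py at h2
  omega

theorem cellOf_col (v z : ℕ) (hz : z < 8) : cellOf gi gj (8 * v + z) = (px gi v, py gj v, (z : ℤ)) := by
  unfold cellOf px py
  have h1 : (8 * v + z) / 128 = v / 16 := by omega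
  have h2 : (8 * v + z) / 8 % 16 = v % 16 := by omega
  have h3 : (8 * v + z) % 8 = z := by omega
  rw [h1, h2, h3]

theorem cellOf_code (c : ℕ) : cellOf gi gj c = (px gi (c / 8), py gj (c / 8), ((c % 8 : ℕ) : ℤ)) := by
  unfold cellOf px py
  have h1 : c / 8 / 16 = c / 128 := by omega
  rw [h1]

/-- the code of the neighbour is right if nothing is carried -/
theorem cellOf_nbc (c d : ℕ) (hd : 1 ≤ d ∧ d ≤ 6) (h2 : d = 2 → 128 ≤ c) (h3 : d = 3 → c / 8 % 16 ≤ 14)
    (h4 : d = 4 → 1 ≤ c / 8 % 16) (h5 : d = 5 → c % 8 ≤ 6) (h6 : d = 6 → 1 ≤ c % 8) :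
    cellOf gi gj (nbc c d) = nb (cellOf gi gj c) d := by
  have hd' : d = 1 ∨ d = 2 ∨ d = 3 ∨ d = 4 ∨ d = 5 ∨ d = 6 := by omega
  unfold cellOf nb
  rw [Prod.mk.injEq, Prod.mk.injEq]
  rcases hd' with rfl | rfl | rfl | rfl | rfl | rfl
  · rw [show nbc c 1 = c + 128 from rfl, show dX 1 = 1 from rfl, show dY 1 = 0 from rfl,
      show dZ 1 = 0 from rfl]
    dsimp only
    omega
  · have := h2 rfl
    rw [show nbc c 2 = c - 128 from rfl, show dX 2 = -1 from rfl, show dY 2 = 0 from rfl,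
      show dZ 2 = 0 from rfl]
    dsimp only
    omega
  · have := h3 rfl
    rw [show nbc c 3 = c + 8 from rfl, show dX 3 = 0 from rfl, show dY 3 = 1 from rfl,
      show dZ 3 = 0 from rfl]
    dsimp only
    omega
  · have := h4 rfl
    rw [show nbc c 4 = c - 8 from rfl, show dX 4 = 0 from rfl, show dY 4 = -1 from rfl,
      show dZ 4 = 0 from rfl]
    dsimp only
    omega
  · have := h5 rfl
    rw [show nbc c 5 = c + 1 from rfl, show dX 5 = 0 from rfl, show dY 5 = 0 from rfl,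
      show dZ 5 = 1 from rfl]
    dsimp only
    omega
  · have := h6 rfl
    rw [show nbc c 6 = c - 1 from rfl, show dX 6 = 0 from rfl, show dY 6 = 0 from rfl,
      show dZ 6 = -1 from rfl]
    dsimp only
    omega

theorem opc_eq {d : ℕ} (h : 1 ≤ d ∧ d ≤ 6) : opc d = opp d := by
  have hd' : d = 1 ∨ d = 2 ∨ d = 3 ∨ d = 4 ∨ d = 5 ∨ d = 6 := by omega
  rcases hd' with rfl | rfl | rfl | rfl | rfl | rfl <;> rfl

/-- the known cells are right -/
def Agree (gi gj : ℤ) (T : Cell → ℕ) (K : List (ℕ × ℕ)) : Prop :=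
  ∀ c, get K c ≠ 0 → T (cellOf gi gj c) = get K c

theorem get_cons (a d : ℕ) (K : List (ℕ × ℕ)) (c : ℕ) : get ((a, d) :: K) c = if a = c then d else get K c := by
  show (bif Nat.beq a c then d else get K c) = _
  rw [Bool.cond_eq_ite]
  simp only [Nat.beq_eq]

variable {P : Par} {J : ℕ} {m n : ℤ} {T : Cell → ℕ} {K : List (ℕ × ℕ)}

theorem agree_nil : Agree gi gj T [] := by
  intro c hc
  exact absurd rfl hc

theorem sgc_eq (hO : P.ori = 0 ∨ P.ori = 1) {s : ℤ} (hs : s = 1 ∨ s = -1)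
    (ho : s * sg (gi - 1) gj = if P.ori = 0 then 1 else -1) (v : ℕ) :
    sgc P v = s * sg (px gi v) (py gj v) := by
  have key : Even (px gi v + py gj v) ↔ (Even (gi - 1 + gj) ↔ (v / 16 + v % 16) % 2 = 1) := by
    unfold px py
    rw [Int.even_iff, Int.even_iff]
    omega
  unfold sgc sg at *
  rw [Bool.cond_eq_ite]
  simp only [Nat.beq_eq]
  rcases hO with h | h <;> rcases hs with rfl | rfl <;> rw [h] at * <;>
    by_cases h1 : Even (gi - 1 + gj) <;> by_cases h2 : (v / 16 + v % 16) % 2 = 1 <;>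
    simp only [h1, h2, key, if_true, if_false, iff_true, iff_false, not_true] at ho ⊢ <;>
    first | (exfalso; norm_num at ho; done) | (norm_num; done) | (norm_num; omega)

end Pool.Agent.FT3D
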