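import Pool.Agent.FT3D.SoundA

/-!
# Soundness of the checker: flows, steps, paths
-/

namespace Pool.Agent.FT3D

variable {gi gj : ℤ} {P : Par} {J : ℕ} {m n : ℤ} {T : Cell → ℕ} {K : List (ℕ × ℕ)}

/-- matching at the two ends -/
theorem til_iff (hT : Til J m n T) {c : Cell} {k : ℕ} (hk : k = 1 ∨ k = 3) :
    T c = k ↔ T (nb c k) = opp k := by
  have hk1 : 1 ≤ k ∧ k ≤ 6 := by omega
  constructor
  · intro h
    have hb : Bx J m n c := bx_of_ne hT (by omega)
    have := hT.inv c hb
    rw [h] at this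
    exact this
  · intro h
    have ho := opp_rng hk1.1 hk1.2
    have hb : Bx J m n (nb c k) := bx_of_ne hT (by omega)
    have := hT.inv _ hb
    rw [h, nb_opp c hk1.1 hk1.2, opp_opp hk1.1 hk1.2] at this
    exact this

theorem rng_sound (hT : Til J m n T) (hA : Agree gi gj T K) {p q k : ℕ} (hk : k = 1 ∨ k = 3)
    (hpq : ∀ z < 8, cellOf gi gj (8 * q + z) = nb (cellOf gi gj (8 * p + z)) k) :
    ∀ Z, Z ≤ 8 → (rng K p q k Z).1 ≤ Fl Z T k (px gi p) (py gj p) ∧
      Fl Z T k (px gi p) (py gj p) ≤ (rng K p q k Z).2 := by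
  intro Z
  induction Z with
  | zero =>
    intro _
    simp [rng, Fl]
  | succ z ih =>
    intro hz
    obtain ⟨i1, i2⟩ := ih (by omega)
    have hF : Fl (z + 1) T k (px gi p) (py gj p) = Fl z T k (px gi p) (py gj p) +
        (-1) ^ z * (if T (cellOf gi gj (8 * p + z)) = k then 1 else 0) := by
      rw [cellOf_col p z (by omega)]
      unfold Fl
      rw [Finset.sum_range_succ]
    rw [hF]
    have hap : get K (8 * p + z) ≠ 0 → T (cellOf gi gj (8 * p + z)) = get K (8 * p + z) := hA _
    have haq : get K (8 * q + z) ≠ 0 → T (cellOf gi gj (8 * q + z)) = get K (8 * q + z) := hA _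
    rw [hpq z (by omega)] at haq
    have hiff := til_iff hT (c := cellOf gi gj (8 * p + z)) hk
    have hopc : opc k = opp k := opc_eq (by omega)
    have hsg : ((-1 : ℤ) ^ z = if z % 2 = 0 then 1 else -1) := by
      rcases Nat.even_or_odd z with h | h
      · rw [h.neg_one_pow, if_pos (Nat.even_iff.1 h)]
      · rw [h.neg_one_pow, if_neg (by rw [Nat.odd_iff.1 h]; decide)]
    rw [hsg]
    simp only [rng, Bool.cond_eq_ite, Nat.beq_eq, hopc]
    generalize T (cellOf gi gj (8 * p + z)) = tp at *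
    generalize T (nb (cellOf gi gj (8 * p + z)) k) = tq at *
    generalize get K (8 * p + z) = a at *
    generalize get K (8 * q + z) = b at *
    generalize Fl z T k (px gi p) (py gj p) = F at *
    generalize rng K p q k z = r at *
    generalize opp k = ok at *
    by_cases ha : a = 0
    · by_cases hb : b = 0
      · by_cases hz2 : z % 2 = 0 <;> by_cases ht : tp = k <;>
          simp only [ha, hb, hz2, ht, if_true, if_false] <;> constructor <;> linarith
      · have h1 := haq hb
        by_cases hbo : b = ok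
        · have ht : tp = k := hiff.2 (by rw [h1, hbo])
          by_cases hz2 : z % 2 = 0 <;> simp only [ha, hz2, ht, hbo, if_true, if_false] <;>
            split_ifs <;> constructor <;> linarith
        · have ht : ¬ tp = k := fun h => hbo (by rw [← h1]; exact hiff.1 h)
          simp only [ha, hb, ht, hbo, if_true, if_false]
          constructor <;> linarith
    · have h1 := hap ha
      by_cases hak : a = k
      · have ht : tp = k := by rw [h1, hak]
        by_cases hz2 : z % 2 = 0 <;> simp only [hz2, ht, hak, if_true, if_false] <;>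
          split_ifs <;> constructor <;> first | linarith | omega
      · have ht : ¬ tp = k := fun h => hak (by rw [← h1]; exact h)
        simp only [ha, ht, hak, if_false]
        constructor <;> linarith

theorem anyK_sound {v : ℕ} : ∀ {z : ℕ}, anyK K v z = true → ∃ z' < z, get K (8 * v + z') ≠ 0 := by
  intro z
  induction z with
  | zero => intro h; simp [anyK] at h
  | succ z ih =>
    intro h
    simp only [anyK, Bool.or_eq_true, Bool.not_eq_true', ] at h
    rcases h with h | h
    · refine ⟨z, by omega, fun h0 => ?_⟩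
      rw [h0] at h
      exact absurd h (by decide)
    · obtain ⟨z', hz', h2⟩ := ih h
      exact ⟨z', by omega, h2⟩

/-- the column with code `v` is inside -/
def ColIn (m n gi gj : ℤ) (v : ℕ) : Prop := 0 ≤ px gi v ∧ px gi v < m ∧ 0 ≤ py gj v ∧ py gj v < n

theorem colK_sound (hJ : P.J < 8) (hT : Til P.J m n T) (hA : Agree gi gj T K) (hi : 0 < gi ∧ gi < m)
    (hj : 0 < gj ∧ gj < n) {v : ℕ} (h : colK P K v = true) : ColIn m n gi gj v := by
  simp only [colK, Bool.or_eq_true, Nat.beq_eq] at h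
  unfold ColIn px py
  rcases h with (((h | h) | h) | h) | h
  · subst h; norm_num; omega
  · subst h; norm_num; omega
  · subst h; norm_num; omega
  · subst h; norm_num; omega
  · obtain ⟨z, hz, h2⟩ := anyK_sound h
    have h3 := hA _ h2
    have hb : Bx P.J m n (cellOf gi gj (8 * v + z)) := bx_of_ne hT (by rw [h3]; exact h2)
    rw [cellOf_col v z (by omega)] at hb
    unfold Bx px py at hb
    dsimp only at hb
    exact ⟨hb.1, hb.2.1, hb.2.2.1, hb.2.2.2.1⟩

/-- the vertex with code `v` is a vertex of the rectangle -/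
def Vin (m n gi gj : ℤ) (v : ℕ) : Prop := Cl m n (px gi v) (py gj v)

/-- the height at the vertex with code `v` -/
noncomputable def hv (P : Par) (T : Cell → ℕ) (gi gj : ℤ) (v : ℕ) : ℤ := ht P.J T (px gi v) (py gj v)

theorem wv_iff {v : ℕ} : wv v = true ↔ 32 ≤ v ∧ v ≤ 239 ∧ 2 ≤ v % 16 ∧ v % 16 ≤ 14 := by
  simp only [wv, Bool.and_eq_true, Nat.ble_eq, and_assoc]

theorem minmax {c x lo hi : ℤ} (hc : c = 1 ∨ c = -1) (h1 : lo ≤ x) (h2 : x ≤ hi) (e : ℤ) :
    min (c * (4 * lo - e)) (c * (4 * hi - e)) ≤ c * (4 * x - e) ∧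
      c * (4 * x - e) ≤ max (c * (4 * lo - e)) (c * (4 * hi - e)) := by
  rcases hc with rfl | rfl
  · exact ⟨min_le_of_left_le (by linarith), le_max_of_le_right (by linarith)⟩
  · exact ⟨min_le_of_right_le (by linarith), le_max_of_le_left (by linarith)⟩

theorem sgc_one (P : Par) (v : ℕ) : sgc P v = 1 ∨ sgc P v = -1 := by
  unfold sgc
  cases (Nat.beq ((v / 16 + v % 16 + P.ori) % 2) 1)
  · right; rfl
  · left; rfl

theorem stpE (hJ : P.J < 8) (hT : Til P.J m n T) (hA : Agree gi gj T K) (hi : 0 < gi ∧ gi < m)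
    (hj : 0 < gj ∧ gj < n) (hO : P.ori = 0 ∨ P.ori = 1) {s : ℤ} (hs : s = 1 ∨ s = -1)
    (ho : s * sg (gi - 1) gj = if P.ori = 0 then 1 else -1) {v : ℕ} (hv1 : 1 ≤ v % 16) {r : ℤ × ℤ}
    (h : stp P K v 1 = some r) :
    Vin m n gi gj v ∧ Vin m n gi gj (v + 16) ∧
      r.1 ≤ s * (hv P T gi gj (v + 16) - hv P T gi gj v) ∧
      s * (hv P T gi gj (v + 16) - hv P T gi gj v) ≤ r.2 := by
  have p1 : px gi (v + 16) = px gi v + 1 := by unfold px; omega
  have p2 : py gj (v + 16) = py gj v := by unfold py; omega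
  have p3 : px gi (v - 1) = px gi v := by unfold px; omega
  have p4 : py gj (v - 1) = py gj v - 1 := by unfold py; omega
  have hc : colK P K v = true ∨ colK P K (v - 1) = true := by
    by_contra hn
    push Not at hn
    simp only [stp, Bool.cond_eq_ite, Nat.beq_eq, if_true] at h
    rw [if_neg (by simp [hn.1, hn.2])] at h
    exact absurd h (by simp)
  have hcl : 0 ≤ px gi v ∧ px gi v < m ∧ 0 ≤ py gj v ∧ py gj v ≤ n := by
    rcases hc with hc | hc
    · have := colK_sound hJ hT hA hi hj hc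
      unfold ColIn at this
      omega
    · have := colK_sound hJ hT hA hi hj hc
      unfold ColIn at this
      rw [p3, p4] at this
      omega
  refine ⟨⟨hcl.1, hcl.2.1.le, hcl.2.2.1, hcl.2.2.2⟩, ?_, ?_⟩
  · unfold Vin Cl
    rw [p1, p2]
    omega
  have hr : r = (min (sgc P v * (4 * (rng K (v - 1) v 3 P.J).1 - ep P.J))
      (sgc P v * (4 * (rng K (v - 1) v 3 P.J).2 - ep P.J)),
      max (sgc P v * (4 * (rng K (v - 1) v 3 P.J).1 - ep P.J))
      (sgc P v * (4 * (rng K (v - 1) v 3 P.J).2 - ep P.J))) := by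
    simp only [stp, Bool.cond_eq_ite, Nat.beq_eq, if_true] at h
    rw [if_pos (by simpa using hc)] at h
    exact (Option.some.inj h).symm
  have hpq : ∀ z < 8, cellOf gi gj (8 * v + z) = nb (cellOf gi gj (8 * (v - 1) + z)) 3 := by
    intro z hz
    rw [cellOf_col v z hz, cellOf_col (v - 1) z hz, p3, p4]
    simp [nb, dX, dY, dZ]
  have hF := rng_sound hT hA (k := 3) (Or.inr rfl) hpq P.J (by omega)
  rw [p3, p4] at hF
  have hm := minmax (sgc_one P v) hF.1 hF.2 (ep P.J)
  have hE := ht_E P.J T (py gj v) hcl.1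
  have hval : s * (hv P T gi gj (v + 16) - hv P T gi gj v) =
      sgc P v * (4 * Fl P.J T 3 (px gi v) (py gj v - 1) - ep P.J) := by
    unfold hv
    rw [p1, p2, hE, sgc_eq hO hs ho]
    ring
  rw [hval, hr]
  exact hm

theorem stpN (hJ : P.J < 8) (hT : Til P.J m n T) (hA : Agree gi gj T K) (hi : 0 < gi ∧ gi < m)
    (hj : 0 < gj ∧ gj < n) (hO : P.ori = 0 ∨ P.ori = 1) {s : ℤ} (hs : s = 1 ∨ s = -1)
    (ho : s * sg (gi - 1) gj = if P.ori = 0 then 1 else -1) {v : ℕ} (hv1 : 16 ≤ v)
    (hv2 : v % 16 ≤ 14) {r : ℤ × ℤ} (h : stp P K v 3 = some r) :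
    Vin m n gi gj v ∧ Vin m n gi gj (v + 1) ∧
      r.1 ≤ s * (hv P T gi gj (v + 1) - hv P T gi gj v) ∧
      s * (hv P T gi gj (v + 1) - hv P T gi gj v) ≤ r.2 := by
  have p1 : px gi (v + 1) = px gi v := by unfold px; omega
  have p2 : py gj (v + 1) = py gj v + 1 := by unfold py; omega
  have p3 : px gi (v - 16) = px gi v - 1 := by unfold px; omega
  have p4 : py gj (v - 16) = py gj v := by unfold py; omega
  have hc : colK P K v = true ∨ colK P K (v - 16) = true := by
    by_contra hn
    push Not at hn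
    simp only [stp, Bool.cond_eq_ite, Nat.beq_eq] at h
    rw [if_neg (by decide), if_neg (by simp [hn.1, hn.2])] at h
    exact absurd h (by simp)
  have hcl : 0 ≤ px gi v ∧ px gi v ≤ m ∧ 0 ≤ py gj v ∧ py gj v < n := by
    rcases hc with hc | hc
    · have := colK_sound hJ hT hA hi hj hc
      unfold ColIn at this
      omega
    · have := colK_sound hJ hT hA hi hj hc
      unfold ColIn at this
      rw [p3, p4] at this
      omega
  refine ⟨⟨hcl.1, hcl.2.1, hcl.2.2.1, hcl.2.2.2.le⟩, ?_, ?_⟩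
  · unfold Vin Cl
    rw [p1, p2]
    omega
  have hr : r = (min (sgc P (v - 16) * (4 * (rng K (v - 16) v 1 P.J).1 - ep P.J))
      (sgc P (v - 16) * (4 * (rng K (v - 16) v 1 P.J).2 - ep P.J)),
      max (sgc P (v - 16) * (4 * (rng K (v - 16) v 1 P.J).1 - ep P.J))
      (sgc P (v - 16) * (4 * (rng K (v - 16) v 1 P.J).2 - ep P.J))) := by
    simp only [stp, Bool.cond_eq_ite, Nat.beq_eq] at h
    rw [if_neg (by decide), if_pos (by simpa using hc)] at h
    exact (Option.some.inj h).symm
  have hpq : ∀ z < 8, cellOf gi gj (8 * v + z) = nb (cellOf gi gj (8 * (v - 16) + z)) 1 := by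
    intro z hz
    rw [cellOf_col v z hz, cellOf_col (v - 16) z hz, p3, p4]
    simp [nb, dX, dY, dZ]
  have hF := rng_sound hT hA (k := 1) (Or.inl rfl) hpq P.J (by omega)
  rw [p3, p4] at hF
  have hm := minmax (sgc_one P (v - 16)) hF.1 hF.2 (ep P.J)
  have hN := ht_N hT hcl.1 hcl.2.1 hcl.2.2.1 hcl.2.2.2
  have hval : s * (hv P T gi gj (v + 1) - hv P T gi gj v) =
      sgc P (v - 16) * (4 * Fl P.J T 1 (px gi v - 1) (py gj v) - ep P.J) := by
    unfold hv
    rw [p1, p2, hN, sgc_eq hO hs ho, p3, p4]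
    ring
  rw [hval, hr]
  exact hm

end Pool.Agent.FT3D
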