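import Pool.Agent.FT3D.SoundB

/-!
# Soundness of the checker: paths and bounds
-/

namespace Pool.Agent.FT3D

variable {gi gj : ℤ} {P : Par} {m n : ℤ} {T : Cell → ℕ} {K : List (ℕ × ℕ)} {s : ℤ}

/-- the assumptions of the soundness lemmas -/
structure Ctx (P : Par) (m n : ℤ) (T : Cell → ℕ) (s gi gj : ℤ) (K : List (ℕ × ℕ)) : Prop where
  hJ : P.J < 8
  hO : P.ori = 0 ∨ P.ori = 1
  S : Sit P m n T s gi gj
  A : Agree gi gj T K

theorem stpD_sound (C : Ctx P m n T s gi gj K) {v k : ℕ} {w : ℕ} {lo hi : ℤ}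
    (h : stpD P K v k = some (w, lo, hi)) :
    Vin m n gi gj v ∧ Vin m n gi gj w ∧ lo ≤ s * (hv P T gi gj w - hv P T gi gj v) ∧
      s * (hv P T gi gj w - hv P T gi gj v) ≤ hi := by
  have hw : wv v = true := by
    by_contra hn
    simp only [stpD, Bool.cond_eq_ite] at h
    rw [if_neg hn] at h
    exact absurd h (by simp)
  simp only [stpD, Bool.cond_eq_ite] at h
  rw [if_pos hw] at h
  rw [wv_iff] at hw
  simp only [Nat.beq_eq] at h
  by_cases h1 : k = 1
  · rw [if_pos h1] at h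
    simp only [Option.map_eq_some_iff, Prod.mk.injEq] at h
    obtain ⟨r, hr, rfl, rfl⟩ := h
    exact stpE C.hJ C.S.til C.A C.S.hi C.S.hj C.hO C.S.s1 C.S.ori (by omega) hr
  rw [if_neg h1] at h
  by_cases h2 : k = 2
  · rw [if_pos h2] at h
    simp only [Option.map_eq_some_iff, Prod.mk.injEq] at h
    obtain ⟨r, hr, rfl, rfl, rfl⟩ := h
    have := stpE C.hJ C.S.til C.A C.S.hi C.S.hj C.hO C.S.s1 C.S.ori (v := v - 16) (by omega) hr
    rw [show v - 16 + 16 = v by omega] at this
    exact ⟨this.2.1, this.1, by linarith [this.2.2.2], by linarith [this.2.2.1]⟩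
  rw [if_neg h2] at h
  by_cases h3 : k = 3
  · rw [if_pos h3] at h
    simp only [Option.map_eq_some_iff, Prod.mk.injEq] at h
    obtain ⟨r, hr, rfl, rfl⟩ := h
    exact stpN C.hJ C.S.til C.A C.S.hi C.S.hj C.hO C.S.s1 C.S.ori (by omega) (by omega) hr
  rw [if_neg h3] at h
  by_cases h4 : k = 4
  · rw [if_pos h4] at h
    simp only [Option.map_eq_some_iff, Prod.mk.injEq] at h
    obtain ⟨r, hr, rfl, rfl, rfl⟩ := h
    have := stpN C.hJ C.S.til C.A C.S.hi C.S.hj C.hO C.S.s1 C.S.ori (v := v - 1) (by omega) (by omega) hr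
    rw [show v - 1 + 1 = v by omega] at this
    exact ⟨this.2.1, this.1, by linarith [this.2.2.2], by linarith [this.2.2.1]⟩
  rw [if_neg h4] at h
  exact absurd h (by simp)

theorem pth_sound (C : Ctx P m n T s gi gj K) : ∀ {p : List ℕ} {v w : ℕ} {lo hi : ℤ},
    pth P K v p = some (w, lo, hi) → (Vin m n gi gj v → Vin m n gi gj w) ∧
      lo ≤ s * (hv P T gi gj w - hv P T gi gj v) ∧ s * (hv P T gi gj w - hv P T gi gj v) ≤ hi := by
  intro p
  induction p with
  | nil =>
    intro v w lo hi h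
    simp only [pth, Option.some.injEq, Prod.mk.injEq] at h
    obtain ⟨rfl, rfl, rfl⟩ := h
    exact ⟨id, by simp, by simp⟩
  | cons k p ih =>
    intro v w lo hi h
    simp only [pth] at h
    split at h
    · exact absurd h (by simp)
    · rename_i w1 lo1 hi1 h1
      split at h
      · exact absurd h (by simp)
      · rename_i w2 lo2 hi2 h2
        simp only [Option.some.injEq, Prod.mk.injEq] at h
        obtain ⟨rfl, rfl, rfl⟩ := h
        obtain ⟨a1, a2, a3, a4⟩ := stpD_sound C h1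
        obtain ⟨b1, b2, b3⟩ := ih h2
        exact ⟨fun _ => b1 a2, by linarith, by linarith⟩

/-- relative height -/
noncomputable def rel (P : Par) (T : Cell → ℕ) (s gi gj : ℤ) (v : ℕ) : ℤ :=
  s * (hv P T gi gj v - ht P.J T gi gj)

theorem px136 : px gi 136 = gi := by unfold px; norm_num

theorem py136 : py gj 136 = gj := by unfold py; norm_num

theorem rel136 : rel P T s gi gj 136 = 0 := by
  unfold rel hv
  rw [px136, py136]
  ring

theorem vin136 (C : Ctx P m n T s gi gj K) : Vin m n gi gj 136 := by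
  unfold Vin Cl
  rw [px136, py136]
  have := C.S.hi
  have := C.S.hj
  omega

theorem rsd_eq (P : Par) (gi gj : ℤ) (v : ℕ) : rsd P v = rI P (px gi v - gi) (py gj v - gj) := by
  have e1 : Even (px gi v - gi) ↔ v / 16 % 2 = 0 := by
    unfold px
    rw [Int.even_iff]
    omega
  have e2 : Even (py gj v - gj) ↔ v % 16 % 2 = 0 := by
    unfold py
    rw [Int.even_iff]
    omega
  unfold rsd rI
  simp only [Bool.cond_eq_ite, Nat.beq_eq]
  by_cases hJ : P.J % 2 = 0
  · rw [if_pos hJ, if_pos hJ]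
  rw [if_neg hJ, if_neg hJ]
  by_cases ho : P.ori = 0
  · simp only [ho, if_true, e1, e2]
  · simp only [ho, if_false, e1, e2]
    split_ifs <;> rfl

theorem flo_eq (P : Par) (gi gj : ℤ) (v : ℕ) : flo P v = flI P (px gi v - gi) (py gj v - gj) := by
  unfold flo flI
  rw [rsd_eq P gi gj]

theorem bfr_iff (C : Ctx P m n T s gi gj K) {v : ℕ} (hV : Vin m n gi gj v) :
    bfr P v = true ↔ rk P m gi gj < rk P m (px gi v) (py gj v) := by
  have h1 := C.S.hi
  obtain ⟨v1, v2, v3, v4⟩ := hV
  simp only [bfr, Bool.or_eq_true, Bool.and_eq_true, Nat.blt_eq, Nat.beq_eq]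
  unfold rk
  have hx : px gi v = gi + ((v / 16 : ℕ) : ℤ) - 8 := rfl
  have hy : py gj v = gj + ((v % 16 : ℕ) : ℤ) - 8 := rfl
  rw [hx] at v1 v2 ⊢
  rw [hy]
  generalize v / 16 = a at *
  generalize v % 16 = b at *
  have key : ((gj + (b : ℤ) - 8 + P.al * (gi + a - 8)) * (m + 1) - (gi + a - 8)) -
      ((gj + P.al * gi) * (m + 1) - gi) = ((b + P.al * a : ℤ) - (8 + P.al * 8)) * (m + 1) - (a - 8) := by
    ring
  constructor
  · intro h
    rcases h with h | ⟨h, h'⟩
    · have h2 : (8 + P.al * 8 : ℤ) + 1 ≤ b + P.al * a := by exact_mod_cast h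
      have h3 : (m + 1) * 1 ≤ (m + 1) * ((b + P.al * a : ℤ) - (8 + P.al * 8)) :=
        mul_le_mul_of_nonneg_left (by linarith) (by linarith)
      nlinarith
    · have h2 : (b + P.al * a : ℤ) = 8 + P.al * 8 := by exact_mod_cast h
      have h3 : (a : ℤ) < 8 := by exact_mod_cast h'
      rw [h2] at key
      linarith
  · intro h
    by_contra hn
    push Not at hn
    obtain ⟨n1, n2⟩ := hn
    have n1' : (b + P.al * a : ℤ) ≤ 8 + P.al * 8 := by exact_mod_cast n1
    rcases lt_or_eq_of_le n1' with h2 | h2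
    · have h3 : (m + 1) * ((b + P.al * a : ℤ) - (8 + P.al * 8)) ≤ (m + 1) * (-1) :=
        mul_le_mul_of_nonneg_left (by linarith) (by linarith)
      nlinarith
    · have h3 := n2 (by exact_mod_cast h2)
      have h4 : (8 : ℤ) ≤ a := by exact_mod_cast h3
      rw [h2] at key
      linarith

end Pool.Agent.FT3D
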