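import Pool.Agent.FT3D.SoundC

/-!
# Soundness of the checker: residues, bounds, contradictions
-/

namespace Pool.Agent.FT3D

variable {gi gj : ℤ} {P : Par} {m n : ℤ} {T : Cell → ℕ} {K : List (ℕ × ℕ)} {s : ℤ}

theorem H0_rI (hJ : P.J % 2 = 1) (hO : P.ori = 0 ∨ P.ori = 1) (hs : s = 1 ∨ s = -1)
    (ho : s * sg (gi - 1) gj = if P.ori = 0 then 1 else -1) (i j : ℤ) :
    ∃ k : ℤ, s * (H0 i j - H0 gi gj) = rI P (i - gi) (j - gj) + 4 * k := by
  have hJ' : ¬ P.J % 2 = 0 := by omega
  unfold H0 rI
  unfold sg at ho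
  rw [if_neg hJ']
  simp only [Int.even_sub, Int.even_add, Int.not_even_one, iff_false] at ho ⊢
  rcases hO with h | h <;> rcases hs with rfl | rfl <;> rw [h] at * <;>
    by_cases h1 : Even i <;> by_cases h2 : Even j <;> by_cases h3 : Even gi <;> by_cases h4 : Even gj <;>
    simp only [h1, h2, h3, h4, if_true, if_false, iff_true, iff_false, not_true, not_false_iff] at ho ⊢ <;>
    first | (exfalso; norm_num at ho; done) | (refine ⟨0, ?_⟩; norm_num; done) |
      (refine ⟨-1, ?_⟩; norm_num; done) | (refine ⟨1, ?_⟩; norm_num; done)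

theorem rsd_rng (P : Par) (v : ℕ) : 0 ≤ rsd P v ∧ rsd P v ≤ 3 ∧ (P.J % 2 = 0 → rsd P v = 0) := by
  unfold rsd
  simp only [Bool.cond_eq_ite]
  split_ifs <;> simp_all

theorem rel_res (C : Ctx P m n T s gi gj K) {v : ℕ} (hV : Vin m n gi gj v) :
    ∃ k : ℤ, rel P T s gi gj v = rsd P v + 4 * k := by
  have h1 := C.S.hi
  have h2 := C.S.hj
  unfold rel hv
  rcases Nat.mod_two_eq_zero_or_one P.J with hJ | hJ
  · obtain ⟨k1, e1⟩ := ht_res_even hJ T (px gi v) (py gj v)
    obtain ⟨k2, e2⟩ := ht_res_even hJ T gi gj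
    refine ⟨s * (k1 - k2), ?_⟩
    rw [e1, e2, (rsd_rng P v).2.2 hJ]
    ring
  · obtain ⟨k1, e1⟩ := ht_res_odd hJ T (i := px gi v) (j := py gj v) hV.1 hV.2.2.1
    obtain ⟨k2, e2⟩ := ht_res_odd hJ T (i := gi) (j := gj) (by omega) (by omega)
    obtain ⟨k3, e3⟩ := H0_rI hJ C.hO C.S.s1 C.S.ori (px gi v) (py gj v)
    refine ⟨s * (k1 - k2) + k3, ?_⟩
    rw [e1, e2, rsd_eq P gi gj]
    linear_combination e3

theorem rel_le (C : Ctx P m n T s gi gj K) {v : ℕ} (hV : Vin m n gi gj v) :
    rel P T s gi gj v ≤ ubc P v := by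
  unfold ubc
  simp only [Bool.cond_eq_ite, Nat.beq_eq]
  by_cases h1 : v = 136
  · rw [if_pos h1, h1, rel136]
  rw [if_neg h1]
  have hup : rel P T s gi gj v ≤ 0 := C.S.up _ _ hV
  obtain ⟨k, hk⟩ := rel_res C hV
  obtain ⟨r0, r3, _⟩ := rsd_rng P v
  by_cases h2 : rsd P v = 0
  · simp only [h2, decide_true, if_true]
    by_cases h3 : bfr P v = true
    · rw [if_pos h3]
      have h4 : rel P T s gi gj v < 0 := C.S.bef _ _ hV ((bfr_iff C hV).1 h3)
      omega
    · rw [if_neg h3]
      exact hup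
  · simp only [h2, decide_false]
    rw [if_neg (by decide)]
    omega

theorem cor_sound (C : Ctx P m n T s gi gj K) {v : ℕ} (h : cor P K v = true) : Vin m n gi gj v := by
  simp only [cor, Bool.and_eq_true, Bool.or_eq_true] at h
  obtain ⟨hw, h⟩ := h
  rw [wv_iff] at hw
  have hc : ∀ w, colK P K w = true → ColIn m n gi gj w := fun w hw =>
    colK_sound C.hJ C.S.til C.A C.S.hi C.S.hj hw
  unfold Vin Cl
  rcases h with ((h | h) | h) | h
  · have := hc _ h
    unfold ColIn at this
    omega
  · have := hc _ h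
    unfold ColIn at this
    have p1 : px gi (v - 1) = px gi v := by unfold px; omega
    have p2 : py gj (v - 1) = py gj v - 1 := by unfold py; omega
    rw [p1, p2] at this
    omega
  · have := hc _ h
    unfold ColIn at this
    have p1 : px gi (v - 16) = px gi v - 1 := by unfold px; omega
    have p2 : py gj (v - 16) = py gj v := by unfold py; omega
    rw [p1, p2] at this
    omega
  · have := hc _ h
    unfold ColIn at this
    have p1 : px gi (v - 17) = px gi v - 1 := by unfold px; omega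
    have p2 : py gj (v - 17) = py gj v - 1 := by unfold py; omega
    rw [p1, p2] at this
    omega

theorem loS_sound (C : Ctx P m n T s gi gj K) {u : ℕ} {a : ℤ} (h : loS P K u = some a) :
    Vin m n gi gj u ∧ a ≤ rel P T s gi gj u := by
  unfold loS at h
  simp only [Bool.cond_eq_ite, Nat.beq_eq] at h
  by_cases h1 : u = 136
  · rw [if_pos h1] at h
    have := Option.some.inj h
    subst this
    rw [h1, rel136]
    exact ⟨vin136 C, le_rfl⟩
  rw [if_neg h1] at h
  by_cases h2 : (!P.deep && cor P K u) = true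
  · rw [if_pos h2] at h
    have := Option.some.inj h
    subst this
    simp only [Bool.and_eq_true, Bool.not_eq_true'] at h2
    have hV := cor_sound C h2.2
    refine ⟨hV, ?_⟩
    rw [flo_eq P gi gj]
    exact C.S.flo h2.1 _ _ hV
  · rw [if_neg h2] at h
    exact absurd h (by simp)

theorem hiS_sound (C : Ctx P m n T s gi gj K) {u : ℕ} {a : ℤ} (h : hiS P K u = some a) :
    Vin m n gi gj u ∧ rel P T s gi gj u ≤ a := by
  unfold hiS at h
  simp only [Bool.cond_eq_ite, Nat.beq_eq] at h
  by_cases h1 : u = 136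
  · rw [if_pos h1] at h
    have := Option.some.inj h
    subst this
    rw [h1, rel136]
    exact ⟨vin136 C, le_rfl⟩
  rw [if_neg h1] at h
  by_cases h2 : cor P K u = true
  · rw [if_pos h2] at h
    have := Option.some.inj h
    subst this
    exact ⟨cor_sound C h2, rel_le C (cor_sound C h2)⟩
  · rw [if_neg h2] at h
    exact absurd h (by simp)

theorem chkCon_sound (C : Ctx P m n T s gi gj K) {u : ℕ} {p : List ℕ}
    (h : chkCon P K u p = true) : False := by
  unfold chkCon at h
  split at h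
  · rename_i a w lo hi h1 h2
    rw [decide_eq_true_eq] at h
    obtain ⟨hV, ha⟩ := loS_sound C h1
    obtain ⟨b1, b2, b3⟩ := pth_sound C h2
    have := rel_le C (b1 hV)
    unfold rel at this ha
    linarith
  · exact absurd h (by simp)

end Pool.Agent.FT3D
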