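import Pool.Agent.FT3D.SoundD

/-!
# Soundness of the checker: moves
-/

namespace Pool.Agent.FT3D

variable {gi gj : ℤ} {P : Par} {m n : ℤ} {T : Cell → ℕ} {K : List (ℕ × ℕ)} {s : ℤ}

/-- the effect of one move -/
def Eff (P : Par) (m n : ℤ) (T T' : Cell → ℕ) (s gi gj : ℤ) (K' : List (ℕ × ℕ)) (v : ℕ) (d h : ℤ) : Prop :=
  Til P.J m n T' ∧ Move T T' ∧ Agree gi gj T' K' ∧
    (∀ i j, s * ht P.J T' i j = s * ht P.J T i j + if i = px gi v ∧ j = py gj v then 4 * d else 0) ∧
    (hor P.J m n T' : ℤ) = hor P.J m n T + h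

theorem neg_pow_code (c : ℕ) : (-1 : ℤ) ^ (c % 8) = if c % 2 = 0 then 1 else -1 := by
  have h8 : c % 8 % 2 = c % 2 := by omega
  rcases Nat.even_or_odd (c % 8) with h | h
  · rw [h.neg_one_pow, if_pos (by rw [← h8]; exact Nat.even_iff.1 h)]
  · rw [h.neg_one_pow, if_neg (by rw [← h8, Nat.odd_iff.1 h]; decide)]

theorem flip_sound (hJ : P.J < 8) (hO : P.ori = 0 ∨ P.ori = 1) (hs : s = 1 ∨ s = -1)
    (ho : s * sg (gi - 1) gj = if P.ori = 0 then 1 else -1) (hT : Til P.J m n T)
    (hA : Agree gi gj T K) {c d e : ℕ} {K' : List (ℕ × ℕ)} {v : ℕ} {D h : ℤ}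
    (hm : mv P K (.f c d e) = some (K', v, D, h)) :
    ∃ T', Eff P m n T T' s gi gj K' v D h := by
  simp only [mv, Bool.cond_eq_ite] at hm
  by_cases hc : (wv (c / 8) && (Nat.beq d 1 || Nat.beq d 3 || Nat.beq d 5) &&
      (Nat.beq e 1 || Nat.beq e 3 || Nat.beq e 5) && !(Nat.beq d e) && Nat.beq (get K c) d &&
      Nat.beq (get K (nbc c e)) d) = true
  · rw [if_pos hc] at hm
    simp only [Bool.and_eq_true, Bool.or_eq_true, Nat.beq_eq, Bool.not_eq_true'] at hc
    obtain ⟨⟨⟨⟨⟨hw, hd⟩, he⟩, hde⟩, hk1⟩, hk2⟩ := hc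
    have hde' : d ≠ e := by
      intro hh
      rw [hh] at hde
      have : Nat.beq e e = true := by rw [Nat.beq_eq]
      rw [this] at hde
      exact absurd hde (by decide)
    rw [wv_iff] at hw
    have hd0 : 1 ≤ d ∧ d ≤ 6 := by omega
    have he0 : 1 ≤ e ∧ e ≤ 6 := by omega
    have t1 : T (cellOf gi gj c) = d := by
      rw [hA c (by omega)]; exact hk1
    have hb : Bx P.J m n (cellOf gi gj c) := bx_of_ne hT (by omega)
    have hz : c % 8 ≤ 6 := by
      have := hb.2.2.2.2.2
      simp only [cellOf] at this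
      omega
    have c1 : cellOf gi gj (nbc c d) = nb (cellOf gi gj c) d := by
      apply cellOf_nbc c d hd0 <;> omega
    have c2 : cellOf gi gj (nbc c e) = nb (cellOf gi gj c) e := by
      apply cellOf_nbc c e he0 <;> omega
    have c3 : cellOf gi gj (nbc (nbc c d) e) = nb (nb (cellOf gi gj c) d) e := by
      rw [← c1]
      rcases hd with (rfl | rfl) | rfl <;>
        first
        | (rw [show nbc c 1 = c + 128 from rfl]; apply cellOf_nbc _ e he0 <;> omega)
        | (rw [show nbc c 3 = c + 8 from rfl]; apply cellOf_nbc _ e he0 <;> omega)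
        | (rw [show nbc c 5 = c + 1 from rfl]; apply cellOf_nbc _ e he0 <;> omega)
    have t2 : T (nb (cellOf gi gj c) e) = d := by
      rw [← c2, hA (nbc c e) (by omega)]; exact hk2
    have hF : CanFlip T (cellOf gi gj c) d e := by
      refine ⟨⟨hd0.1, hd0.2, he0.1, he0.2, ?_⟩, t1, t2⟩
      omega
    refine ⟨flip T (cellOf gi gj c) d e, til_flip hT hF, Move.flip _ _ _ hF, ?_, ?_⟩
    · have hKeq : K' = (c, e) :: (nbc c d, e) :: (nbc c e, opc e) :: (nbc (nbc c d) e, opc e) :: K := by
        split_ifs at hm <;> exact (congrArg Prod.fst (Option.some.inj hm)).symm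
      intro c' hc'
      rw [hKeq] at hc' ⊢
      simp only [get_cons] at hc' ⊢
      unfold flip
      rw [← c3, ← c1, ← c2]
      simp only [cellOf_eq_iff]
      rw [opc_eq he0] at hc' ⊢
      by_cases e1 : c' = c
      · rw [if_pos e1, if_pos e1.symm]
      rw [if_neg e1, if_neg (Ne.symm e1)]
      rw [if_neg (Ne.symm e1)] at hc'
      by_cases e2 : c' = nbc c d
      · rw [if_pos e2, if_pos e2.symm]
      rw [if_neg e2, if_neg (Ne.symm e2)]
      rw [if_neg (Ne.symm e2)] at hc'
      by_cases e3 : c' = nbc c e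
      · rw [if_pos e3, if_pos e3.symm]
      rw [if_neg e3, if_neg (Ne.symm e3)]
      rw [if_neg (Ne.symm e3)] at hc'
      by_cases e4 : c' = nbc (nbc c d) e
      · rw [if_pos e4, if_pos e4.symm]
      rw [if_neg e4, if_neg (Ne.symm e4)]
      rw [if_neg (Ne.symm e4)] at hc'
      exact hA c' hc'
    · have hh := hor_flip hT hF (by tauto) (by tauto)
      by_cases e5 : e = 5
      · rw [if_pos (by rw [Nat.beq_eq]; exact e5)] at hm
        simp only [Option.some.injEq, Prod.mk.injEq] at hm
        obtain ⟨-, -, rfl, rfl⟩ := hm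
        refine ⟨fun i j => ?_, ?_⟩
        · rw [ht_flip_v hT hF (by tauto) (by tauto) (Or.inr e5)]
          simp
        · rw [hh, if_pos e5]
      by_cases d5 : d = 5
      · rw [if_neg (by rw [Nat.beq_eq]; exact e5), if_pos (by rw [Nat.beq_eq]; exact d5)] at hm
        simp only [Option.some.injEq, Prod.mk.injEq] at hm
        obtain ⟨-, -, rfl, rfl⟩ := hm
        refine ⟨fun i j => ?_, ?_⟩
        · rw [ht_flip_v hT hF (by tauto) (by tauto) (Or.inl d5)]
          simp
        · rw [hh, if_neg e5, if_pos d5]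
      rw [if_neg (by rw [Nat.beq_eq]; exact e5), if_neg (by rw [Nat.beq_eq]; exact d5)] at hm
      simp only [Option.some.injEq, Prod.mk.injEq, Nat.beq_eq] at hm
      obtain ⟨-, rfl, rfl, rfl⟩ := hm
      refine ⟨fun i j => ?_, ?_⟩
      · rw [ht_flip_h hT hF (by omega)]
        have q1 : px gi (c / 8 + 17) = (cellOf gi gj c).1 + 1 := by
          unfold px cellOf
          dsimp only
          omega
        have q2 : py gj (c / 8 + 17) = (cellOf gi gj c).2.1 + 1 := by
          unfold py cellOf
          dsimp only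
          omega
        have q3 : sgc P (c / 8 + 17 - 16) = s * sg (cellOf gi gj c).1 ((cellOf gi gj c).2.1 + 1) := by
          rw [sgc_eq hO hs ho]
          have r1 : px gi (c / 8 + 17 - 16) = (cellOf gi gj c).1 := by
            unfold px cellOf
            dsimp only
            omega
          have r2 : py gj (c / 8 + 17 - 16) = (cellOf gi gj c).2.1 + 1 := by
            unfold py cellOf
            dsimp only
            omega
          rw [r1, r2]
        have q4 : (cellOf gi gj c).2.2.toNat = c % 8 := by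
          unfold cellOf
          dsimp only
          omega
        rw [q1, q2, q3, q4, neg_pow_code]
        by_cases hij : i = (cellOf gi gj c).1 + 1 ∧ j = (cellOf gi gj c).2.1 + 1
        · rw [if_pos hij, if_pos hij]
          ring
        · rw [if_neg hij, if_neg hij]
          ring
      · rw [hh, if_neg e5, if_neg d5]
  · rw [if_neg hc] at hm
    exact absurd hm (by simp)

theorem trit_sound (hJ : P.J < 8) (hO : P.ori = 0 ∨ P.ori = 1) (hs : s = 1 ∨ s = -1)
    (ho : s * sg (gi - 1) gj = if P.ori = 0 then 1 else -1) (hT : Til P.J m n T)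
    (hA : Agree gi gj T K) {o a b : ℕ} {K' : List (ℕ × ℕ)} {v : ℕ} {D h : ℤ}
    (hm : mv P K (.t o a b) = some (K', v, D, h)) :
    ∃ T', Eff P m n T T' s gi gj K' v D h := by
  simp only [mv, Bool.cond_eq_ite] at hm
  by_cases hc : (wv (o / 8) && Nat.ble 1 a && Nat.ble a 4 && Nat.ble 1 b && Nat.ble b 4 &&
      !(Nat.beq ((a + 1) / 2) ((b + 1) / 2)) && Nat.beq (get K o) a && Nat.beq (get K (o + 1)) b &&
      Nat.beq (get K (nbc (nbc o a) b)) 5) = true
  · rw [if_pos hc] at hm
    simp only [Bool.and_eq_true, Nat.beq_eq, Nat.ble_eq, Bool.not_eq_true'] at hc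
    obtain ⟨⟨⟨⟨⟨⟨⟨⟨hw, ha1⟩, ha4⟩, hb1⟩, hb4⟩, hab⟩, hk1⟩, hk2⟩, hk3⟩ := hc
    have hab' : (a + 1) / 2 ≠ (b + 1) / 2 := by
      intro hh
      rw [hh] at hab
      have : Nat.beq ((b + 1) / 2) ((b + 1) / 2) = true := by rw [Nat.beq_eq]
      rw [this] at hab
      exact absurd hab (by decide)
    rw [wv_iff] at hw
    have t1 : T (cellOf gi gj o) = a := by
      rw [hA o (by omega)]; exact hk1
    have hb : Bx P.J m n (cellOf gi gj o) := bx_of_ne hT (by omega)
    have hz : o % 8 ≤ 6 := by
      have := hb.2.2.2.2.2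
      simp only [cellOf] at this
      omega
    have c1 : cellOf gi gj (o + 1) = nb (cellOf gi gj o) 5 := by
      rw [show o + 1 = nbc o 5 from rfl]
      apply cellOf_nbc o 5 (by omega) <;> omega
    have c2 : cellOf gi gj (nbc o a) = nb (cellOf gi gj o) a := by
      apply cellOf_nbc o a (by omega) <;> omega
    have ha' : a = 1 ∨ a = 2 ∨ a = 3 ∨ a = 4 := by omega
    have hb' : b = 1 ∨ b = 2 ∨ b = 3 ∨ b = 4 := by omega
    have c3 : cellOf gi gj (nbc (nbc o a) b) = nb (nb (cellOf gi gj o) a) b := by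
      rw [← c2]
      rcases ha' with rfl | rfl | rfl | rfl <;>
        first
        | (rw [show nbc o 1 = o + 128 from rfl]; apply cellOf_nbc _ b (by omega) <;> omega)
        | (rw [show nbc o 2 = o - 128 from rfl]; apply cellOf_nbc _ b (by omega) <;> omega)
        | (rw [show nbc o 3 = o + 8 from rfl]; apply cellOf_nbc _ b (by omega) <;> omega)
        | (rw [show nbc o 4 = o - 8 from rfl]; apply cellOf_nbc _ b (by omega) <;> omega)
    have c4 : cellOf gi gj (nbc o b + 1) = nb (nb (cellOf gi gj o) b) 5 := by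
      have c4' : cellOf gi gj (nbc o b) = nb (cellOf gi gj o) b := by
        apply cellOf_nbc o b (by omega) <;> omega
      rw [← c4']
      rw [show nbc o b + 1 = nbc (nbc o b) 5 from rfl]
      rcases hb' with rfl | rfl | rfl | rfl <;>
        first
        | (rw [show nbc o 1 = o + 128 from rfl]; apply cellOf_nbc _ 5 (by omega) <;> omega)
        | (rw [show nbc o 2 = o - 128 from rfl]; apply cellOf_nbc _ 5 (by omega) <;> omega)
        | (rw [show nbc o 3 = o + 8 from rfl]; apply cellOf_nbc _ 5 (by omega) <;> omega)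
        | (rw [show nbc o 4 = o - 8 from rfl]; apply cellOf_nbc _ 5 (by omega) <;> omega)
    have c5 : cellOf gi gj (nbc (nbc o a) b + 1) = nb (nb (nb (cellOf gi gj o) a) b) 5 := by
      rw [← c3]
      rw [show nbc (nbc o a) b + 1 = nbc (nbc (nbc o a) b) 5 from rfl]
      rcases ha' with rfl | rfl | rfl | rfl <;> rcases hb' with rfl | rfl | rfl | rfl <;>
        first
        | (exfalso; exact hab' rfl)
        | (rw [show nbc (nbc o 1) 3 = o + 128 + 8 from rfl]; apply cellOf_nbc _ 5 (by omega) <;> omega)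
        | (rw [show nbc (nbc o 1) 4 = o + 128 - 8 from rfl]; apply cellOf_nbc _ 5 (by omega) <;> omega)
        | (rw [show nbc (nbc o 2) 3 = o - 128 + 8 from rfl]; apply cellOf_nbc _ 5 (by omega) <;> omega)
        | (rw [show nbc (nbc o 2) 4 = o - 128 - 8 from rfl]; apply cellOf_nbc _ 5 (by omega) <;> omega)
        | (rw [show nbc (nbc o 3) 1 = o + 8 + 128 from rfl]; apply cellOf_nbc _ 5 (by omega) <;> omega)
        | (rw [show nbc (nbc o 3) 2 = o + 8 - 128 from rfl]; apply cellOf_nbc _ 5 (by omega) <;> omega)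
        | (rw [show nbc (nbc o 4) 1 = o - 8 + 128 from rfl]; apply cellOf_nbc _ 5 (by omega) <;> omega)
        | (rw [show nbc (nbc o 4) 2 = o - 8 - 128 from rfl]; apply cellOf_nbc _ 5 (by omega) <;> omega)
    have t2 : T (nb (cellOf gi gj o) 5) = b := by
      rw [← c1, hA (o + 1) (by omega)]; exact hk2
    have t3 : T (nb (nb (cellOf gi gj o) a) b) = 5 := by
      rw [← c3, hA (nbc (nbc o a) b) (by omega)]; exact hk3
    have hF : CanTrit T (cellOf gi gj o) a b := by
      refine ⟨⟨ha1, by omega, hb1, by omega, hab'⟩, ha4, hb4, t1, t2, t3⟩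
    simp only [Option.some.injEq, Prod.mk.injEq] at hm
    obtain ⟨hKeq, hv, hD, hh⟩ := hm
    refine ⟨trit T (cellOf gi gj o) a b, til_trit hT hF, Move.trit _ _ _ hF, ?_, ?_, ?_⟩
    · intro c' hc'
      rw [← hKeq] at hc' ⊢
      simp only [get_cons] at hc' ⊢
      unfold trit
      rw [← c5, ← c3, ← c4, ← c2, ← c1]
      simp only [cellOf_eq_iff]
      rw [opc_eq (by omega : 1 ≤ a ∧ a ≤ 6), opc_eq (by omega : 1 ≤ b ∧ b ≤ 6)] at hc' ⊢
      by_cases e1 : c' = o
      · rw [if_pos e1, if_pos e1.symm]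
      rw [if_neg e1, if_neg (Ne.symm e1)]
      rw [if_neg (Ne.symm e1)] at hc'
      by_cases e2 : c' = o + 1
      · rw [if_pos e2, if_pos e2.symm]
      rw [if_neg e2, if_neg (Ne.symm e2)]
      rw [if_neg (Ne.symm e2)] at hc'
      by_cases e3 : c' = nbc o a
      · rw [if_pos e3, if_pos e3.symm]
      rw [if_neg e3, if_neg (Ne.symm e3)]
      rw [if_neg (Ne.symm e3)] at hc'
      by_cases e4 : c' = nbc (nbc o a) b
      · rw [if_pos e4, if_pos e4.symm]
      rw [if_neg e4, if_neg (Ne.symm e4)]
      rw [if_neg (Ne.symm e4)] at hc'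
      by_cases e5 : c' = nbc o b + 1
      · rw [if_pos e5, if_pos e5.symm]
      rw [if_neg e5, if_neg (Ne.symm e5)]
      rw [if_neg (Ne.symm e5)] at hc'
      by_cases e6 : c' = nbc (nbc o a) b + 1
      · rw [if_pos e6, if_pos e6.symm]
      rw [if_neg e6, if_neg (Ne.symm e6)]
      rw [if_neg (Ne.symm e6)] at hc'
      exact hA c' hc'
    · intro i j
      rw [ht_trit hT hF]
      simp only [Bool.or_eq_true, Nat.beq_eq] at hv
      have q1 : px gi v = (cellOf gi gj o).1 + (if a = 1 ∨ b = 1 then 1 else 0) := by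
        rw [← hv]
        unfold px cellOf
        dsimp only
        split_ifs <;> omega
      have q2 : py gj v = (cellOf gi gj o).2.1 + (if a = 3 ∨ b = 3 then 1 else 0) := by
        rw [← hv]
        unfold py cellOf
        dsimp only
        split_ifs <;> omega
      have q3 : sgc P (v - 16) = s * sg (px gi v - 1) (py gj v) := by
        rw [sgc_eq hO hs ho]
        have hv16 : 32 ≤ v := by
          rw [← hv]
          omega
        have r1 : px gi (v - 16) = px gi v - 1 := by
          unfold px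
          omega
        have r2 : py gj (v - 16) = py gj v := by
          unfold py
          omega
        rw [r1, r2]
      have q4 : (cellOf gi gj o).2.2.toNat = o % 8 := by
        unfold cellOf
        dsimp only
        omega
      simp only [Bool.or_eq_true, Nat.beq_eq, Nat.ble_eq] at hD
      rw [hv] at hD
      rw [← q1, ← q2, q4, neg_pow_code, ← hD, q3]
      by_cases hij : i = px gi v ∧ j = py gj v
      · rw [if_pos hij, if_pos hij, hij.1, hij.2]
        ring
      · rw [if_neg hij, if_neg hij]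
        ring
    · rw [hor_trit hT hF, ← hh]
      ring
  · rw [if_neg hc] at hm
    exact absurd hm (by simp)

end Pool.Agent.FT3D
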