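import Pool.Agent.FT3D.SoundE

/-!
# Soundness of the checker: sequences of moves
-/

namespace Pool.Agent.FT3D

variable {gi gj : ℤ} {P : Par} {m n : ℤ} {T : Cell → ℕ} {K : List (ℕ × ℕ)} {s : ℤ}

theorem mv_sound (hJ : P.J < 8) (hO : P.ori = 0 ∨ P.ori = 1) (hs : s = 1 ∨ s = -1)
    (ho : s * sg (gi - 1) gj = if P.ori = 0 then 1 else -1) (hT : Til P.J m n T)
    (hA : Agree gi gj T K) {mo : Mv} {K' : List (ℕ × ℕ)} {v : ℕ} {D h : ℤ}
    (hm : mv P K mo = some (K', v, D, h)) :
    ∃ T', Eff P m n T T' s gi gj K' v D h := by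
  cases mo with
  | f c d e => exact flip_sound hJ hO hs ho hT hA hm
  | t o a b => exact trit_sound hJ hO hs ho hT hA hm

theorem dl_cons (w : ℕ) (d : ℤ) (L : List (ℕ × ℤ)) (v : ℕ) :
    dl ((w, d) :: L) v = (if v = w then d else 0) + dl L v := by
  simp only [dl, Bool.cond_eq_ite, Nat.beq_eq]
  by_cases h : v = w
  · rw [if_pos h, if_pos h.symm]
  · rw [if_neg h, if_neg (Ne.symm h)]
    ring

theorem mvs_sound (hJ : P.J < 8) (hO : P.ori = 0 ∨ P.ori = 1) (hs : s = 1 ∨ s = -1)
    (ho : s * sg (gi - 1) gj = if P.ori = 0 then 1 else -1) :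
    ∀ {ms : List Mv} {T : Cell → ℕ} {K : List (ℕ × ℕ)} {L : List (ℕ × ℤ)} {h : ℤ},
      Til P.J m n T → Agree gi gj T K → mvs P K ms = some (L, h) →
      ∃ T', Til P.J m n T' ∧ Conn T T' ∧
        (∀ v, s * hv P T' gi gj v = s * hv P T gi gj v + 4 * dl L v) ∧
        (∀ i j, (∀ x ∈ L, ¬ (i = px gi x.1 ∧ j = py gj x.1)) → ht P.J T' i j = ht P.J T i j) ∧
        (hor P.J m n T' : ℤ) = hor P.J m n T + h := by
  intro ms
  induction ms with
  | nil =>
    intro T K L h hT hA hm
    simp only [mvs, Option.some.injEq, Prod.mk.injEq] at hm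
    obtain ⟨rfl, rfl⟩ := hm
    exact ⟨T, hT, Relation.ReflTransGen.refl, by intro v; simp [dl], fun _ _ _ => rfl, by simp⟩
  | cons mo ms ih =>
    intro T K L h hT hA hm
    simp only [mvs] at hm
    split at hm
    · exact absurd hm (by simp)
    · rename_i K1 v1 d1 h1 hm1
      split at hm
      · exact absurd hm (by simp)
      · rename_i L2 h2 hm2
        simp only [Option.some.injEq, Prod.mk.injEq] at hm
        obtain ⟨rfl, rfl⟩ := hm
        obtain ⟨T1, a1, a2, a3, a4, a5⟩ := mv_sound hJ hO hs ho hT hA hm1
        obtain ⟨T2, b1, b2, b3, b4, b5⟩ := ih a1 a3 hm2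
        refine ⟨T2, b1, Relation.ReflTransGen.head a2 b2, fun v => ?_, fun i j hx => ?_, ?_⟩
        · rw [b3 v, dl_cons]
          have h4 := a4 (px gi v) (py gj v)
          have hiff : (px gi v = px gi v1 ∧ py gj v = py gj v1) ↔ v = v1 :=
            ⟨fun hh => pxy_inj hh.1 hh.2, fun hh => by rw [hh]; exact ⟨rfl, rfl⟩⟩
          simp only [hiff] at h4
          unfold hv at *
          rw [h4]
          by_cases hv1 : v = v1
          · rw [if_pos hv1, if_pos hv1]
            ring
          · rw [if_neg hv1, if_neg hv1]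
            ring
        · rw [b4 i j (fun x hx' => hx x (List.mem_cons_of_mem _ hx'))]
          have h4 := a4 i j
          rw [if_neg (hx (v1, d1) (List.mem_cons_self ..))] at h4
          rcases hs with rfl | rfl <;> linarith
        · rw [b5, a5]
          ring

theorem hasV_sound {l : List (ℕ × ℕ × List ℕ)} {v : ℕ} (h : hasV l v = true) : ∃ c ∈ l, c.1 = v := by
  induction l with
  | nil => simp [hasV] at h
  | cons c l ih =>
    simp only [hasV, Bool.or_eq_true, Nat.beq_eq] at h
    rcases h with h | h
    · exact ⟨c, List.mem_cons_self .., h⟩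
    · obtain ⟨c', h1, h2⟩ := ih h
      exact ⟨c', List.mem_cons_of_mem _ h1, h2⟩

theorem chkCe_sound (C : Ctx P m n T s gi gj K) {L : List (ℕ × ℤ)} {c : ℕ × ℕ × List ℕ}
    (h : chkCe P K L c = true) :
    (0 < dl L c.1 → Vin m n gi gj c.1 ∧ rel P T s gi gj c.1 + 4 * dl L c.1 ≤ rbd P c.1) ∧
    (dl L c.1 ≤ 0 → Vin m n gi gj c.1 ∧ flo P c.1 ≤ rel P T s gi gj c.1 + 4 * dl L c.1) := by
  unfold chkCe at h
  simp only at h
  split at h
  · exact absurd h (by simp)
  · rename_i w lo hi hp
    simp only [Bool.and_eq_true, Nat.beq_eq, Bool.cond_eq_ite] at h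
    obtain ⟨hw, h⟩ := h
    subst hw
    obtain ⟨p1, p2, p3⟩ := pth_sound C hp
    by_cases hD : 0 < dl L c.1
    · simp only [hD, decide_true, if_true] at h
      refine ⟨fun _ => ?_, fun h0 => absurd h0 (by omega)⟩
      split at h
      · exact absurd h (by simp)
      · rename_i a ha
        rw [decide_eq_true_eq] at h
        obtain ⟨q1, q2⟩ := hiS_sound C ha
        refine ⟨p1 q1, ?_⟩
        unfold rel at *
        linarith
    · simp only [hD, decide_false] at h
      rw [if_neg (by decide)] at h
      refine ⟨fun h0 => absurd h0 hD, fun _ => ?_⟩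
      split at h
      · exact absurd h (by simp)
      · rename_i a ha
        rw [decide_eq_true_eq] at h
        obtain ⟨q1, q2⟩ := loS_sound C ha
        refine ⟨p1 q1, ?_⟩
        unfold rel at *
        linarith

theorem rbd_eq (C : Ctx P m n T s gi gj K) {v : ℕ} (hV : Vin m n gi gj v) :
    rbd P v = if rk P m gi gj < rk P m (px gi v) (py gj v) then -1 else 0 := by
  unfold rbd
  rw [Bool.cond_eq_ite]
  by_cases h : bfr P v = true
  · rw [if_pos h, if_pos ((bfr_iff C hV).1 h)]
  · rw [if_neg h, if_neg (fun hh => h ((bfr_iff C hV).2 hh))]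

theorem chkRed_sound (C : Ctx P m n T s gi gj K) {ms : List Mv} {ce : List (ℕ × ℕ × List ℕ)}
    (h : chkRed P K ms ce = true) : Concl P m n T s gi gj := by
  unfold chkRed at h
  split at h
  · exact absurd h (by simp)
  · rename_i L h0 hm
    obtain ⟨T', t1, t2, t3, t4, t5⟩ := mvs_sound C.hJ C.hO C.S.s1 C.S.ori C.S.til C.A hm
    simp only [Bool.or_eq_true, Bool.and_eq_true, decide_eq_true_eq, List.all_eq_true] at h
    rcases h with ⟨⟨g1, g2⟩, g3⟩ | ⟨g1, g2⟩
    · -- the height at `g` is lowered
      have key : ∀ i j, Cl m n i j →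
          (ht P.J T' i j = ht P.J T i j) ∨
          (∃ v D : ℤ, s * (ht P.J T' i j - ht P.J T gi gj) = v + 4 * D ∧
            v = s * (ht P.J T i j - ht P.J T gi gj) ∧
            ((0 < D ∧ v + 4 * D ≤ (if rk P m gi gj < rk P m i j then -1 else 0)) ∨
             (D ≤ 0 ∧ flI P (i - gi) (j - gj) ≤ v + 4 * D))) := by
        intro i j hC
        by_cases hx : ∀ x ∈ L, ¬ (i = px gi x.1 ∧ j = py gj x.1)
        · exact Or.inl (t4 i j hx)
        · push Not at hx
          obtain ⟨x, hxL, hxi, hxj⟩ := hx
          subst hxi hxj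
          have ht3 := t3 x.1
          unfold hv at ht3
          rcases g3 x hxL with h1 | h1
          · left
            rw [h1] at ht3
            rcases C.S.s1 with h2 | h2 <;> rw [h2] at ht3 <;> linarith
          · right
            obtain ⟨c, hc, hcx⟩ := hasV_sound h1
            have hce := chkCe_sound C (g2 c hc)
            rw [hcx] at hce
            refine ⟨rel P T s gi gj x.1, dl L x.1, ?_, rfl, ?_⟩
            · unfold rel hv
              linarith
            · by_cases hD : 0 < dl L x.1
              · left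
                refine ⟨hD, ?_⟩
                have := (hce.1 hD).2
                rw [rbd_eq C hC] at this
                exact this
              · right
                refine ⟨by omega, ?_⟩
                have := (hce.2 (by omega)).2
                rw [flo_eq P gi gj] at this
                exact this
      refine ⟨T', t1, t2, fun i j hC => ?_, Or.inl ⟨?_, fun i j hC hne => ?_⟩⟩
      · rcases key i j hC with h1 | ⟨v, D, e1, e2, h1 | h1⟩
        · rw [h1]
          exact min_le_left _ _
        · rw [e1, ← e2]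
          exact min_le_of_left_le (by omega)
        · rw [e1]
          exact min_le_of_right_le h1.2
      · have := t3 136
        unfold hv at this
        rw [px136, py136] at this
        nlinarith
      · rcases key i j hC with h1 | ⟨v, D, e1, e2, h1 | h1⟩
        · rw [h1]
          exact le_max_left _ _
        · rw [e1]
          exact le_max_of_le_right h1.2
        · rw [e1, ← e2]
          exact le_max_of_le_left (by omega)
    · -- the heights are unchanged
      have hall : ∀ i j, ht P.J T' i j = ht P.J T i j := by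
        intro i j
        by_cases hx : ∀ x ∈ L, ¬ (i = px gi x.1 ∧ j = py gj x.1)
        · exact t4 i j hx
        · push Not at hx
          obtain ⟨x, hxL, hxi, hxj⟩ := hx
          subst hxi hxj
          have ht3 := t3 x.1
          unfold hv at ht3
          rw [g2 x hxL] at ht3
          rcases C.S.s1 with h2 | h2 <;> rw [h2] at ht3 <;> linarith
      refine ⟨T', t1, t2, fun i j _ => ?_, Or.inr ⟨fun i j _ => hall i j, ?_⟩⟩
      · rw [hall]
        exact min_le_left _ _
      · omega

end Pool.Agent.FT3D
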